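import Mathlib

/-! The colouring algorithm, on an adjacency oracle. -/

set_option autoImplicit false

namespace Pool.Agent.Lib.MP_1b5cbf_lc

abbrev O := ℕ → ℕ → Bool
/-- root, vertices to remove, vertices to add -/
abbrev Nd := ℕ × List ℕ × List ℕ

/-- scan a list until `b` items are collected -/
def scan {τ : Type} (b : ℕ) (acc : List τ → ℕ → Option τ) : List ℕ → List τ → List ℕ × List τ
  | [], s => ([], s)
  | w :: R, s => if s.length < b then scan b acc R ((acc s w).toList ++ s) else (w :: R, s)

def free (a : O) (C : List ℕ) (w : ℕ) : Option ℕ :=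
  if C.all fun c => !a w c then some w else none

def gst (a : O) (b : ℕ) (R C : List ℕ) : List ℕ × List ℕ := scan b (free a) R C

def sel (a : O) (b : ℕ) (R C : List ℕ) : List ℕ × List ℕ := scan b (fun _ => free a C) R []

def pick (a : O) (C : List ℕ) (Y : List Nd) (j : ℕ) (ok : List Nd → Nd → Bool) (H : List Nd)
    (w : ℕ) : Option Nd :=
  (Y.find? fun y => ok H y && C.all fun c => a w c == decide (c ∈ y.2.1.take j)).map
    fun y => (y.1, y.2.1, w :: y.2.2)

def cr (H : List Nd) (ρ : ℕ) : ℕ := H.countP fun x => x.1 == ρ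

def hd (x : Nd) : ℕ := x.2.1.headD 0

def cls (a : O) (b : ℕ) (C R : List ℕ) (Y : List Nd) : List ℕ × List Nd :=
  scan b (pick a C Y 1 fun H y => cr H y.1 == 0) R []

def kids (T : List ℕ) (H : List Nd) : List Nd :=
  H.flatMap fun x => T.map fun u => (x.1, u :: x.2.1, x.2.2)

def ext (a : O) (g : ℕ) (C T : List ℕ) (s : List ℕ × List Nd) : List ℕ × List Nd :=
  scan (g * s.2.length) (pick a C (kids T s.2) 2 fun H y =>
    decide (cr H y.1 < (g + 1) * cr s.2 y.1) && H.all fun x => !(hd x == hd y)) s.1 []

def com (a : O) (N : ℕ) (C : List ℕ) (H : List Nd) : List ℕ :=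
  (gst a (C.length + N) (H.flatMap fun x => x.2.2)
    (C.filter fun c => decide (c ∉ H.flatMap fun x => x.2.1))).2

def tree (a : O) (A g r : ℕ) (T C R : List ℕ) : List ℕ × List Nd :=
  (ext a g C T)^[r] (cls a A C R (T.map fun u => (u, [u], [])))

def clo (a : O) (N : ℕ) (C : List ℕ) (s : List ℕ × List Nd) : List ℕ × List Nd :=
  cls a (2 * N) C s.1 s.2

def fin (a : O) (N : ℕ) (C : List ℕ) (s : List ℕ × List Nd) : List ℕ × List ℕ :=
  (s.1, com a N C (if s.2.length < 2 * N then [] else s.2))

def swp (a : O) (A g r N : ℕ) (T : List ℕ) (s : List ℕ × List ℕ) : List ℕ × List ℕ :=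
  fin a N s.2 (clo a N s.2 (tree a A g r (T.filter fun u => decide (u ∈ s.2)) s.2 s.1))

def gro (a : O) (N : ℕ) (s : List ℕ × List ℕ) : List ℕ × List ℕ :=
  gst a (s.2.length + N) s.1 s.2

/-- one colour class -/
def rnd (a : O) (A g r N h m : ℕ) (P T : List ℕ) : List ℕ :=
  ((swp a A g r N T)^[m]
    (P.drop (P.length / 2), ((gro a N)^[h] (P.take (P.length / 2), T)).2)).2

def out (X G : List ℕ) : List ℕ := X.filter fun v => decide (v ∉ G)

def tad (a : O) (s' : ℕ) (x : List ℕ × List (List ℕ)) (T L : List ℕ) : List ℕ × List (List ℕ) :=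
  (L ++ x.1, (gst a (T.length + s') L T).2 :: x.2)

def tst (a : O) (s s' : ℕ) (Q : List ℕ) (x : List ℕ × List (List ℕ)) (T : List ℕ) :
    List ℕ × List (List ℕ) := tad a s' x T (sel a s (out Q x.1) T).2

def lay (a : O) (s s' y : ℕ) (Ts : List (List ℕ)) (j : ℕ) : List (List ℕ) :=
  (Ts.foldl (tst a s s' (List.range' (j * y) y)) ([], [])).2

def tbd (a : O) (k J s s' y : ℕ) : List (List ℕ) :=
  (List.range J).foldl (lay a s s' y) (List.replicate k [])

def xst (a : O) (A g r N h m : ℕ) (P : List ℕ) (Cs : List (List ℕ)) (T : List ℕ) :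
    List (List ℕ) := rnd a A g r N h m (out P Cs.flatten) T :: Cs

def pool (J y : ℕ) (Al : List ℕ) (Cs : List (List ℕ)) (j : ℕ) : List ℕ :=
  (out Al Cs.flatten).filter fun v => min (v / y) J == j

def big (J y h : ℕ) (Al : List ℕ) (Cs : List (List ℕ)) : List ℕ :=
  pool J y Al Cs
    (((List.range (J + 1)).find? fun j => decide (h < (pool J y Al Cs j).length)).getD 0)

def bst (a : O) (J y N h : ℕ) (Al : List ℕ) (Cs : List (List ℕ)) : List (List ℕ) :=
  if h < (big J y h Al Cs).length then rnd a 0 0 0 N h 0 (big J y h Al Cs) [] :: Cs else Cs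

def bph (a : O) (J y N h : ℕ) (Al : List ℕ) (Cs : List (List ℕ)) : List (List ℕ) :=
  (bst a J y N h Al)^[Al.length] Cs

def xph (a : O) (A g r N h m : ℕ) (P : List ℕ) (Ts : List (List ℕ)) : List (List ℕ) :=
  Ts.foldl (xst a A g r N h m P) []

def xb (a : O) (n J y A g r N h m : ℕ) (Ts : List (List ℕ)) : List (List ℕ) :=
  bph a J y N h (Ts.flatten ++ List.range' (J * y) (n - J * y))
    (xph a A g r N h m (List.range' (J * y) (n - J * y)) Ts)

def classes (a : O) (n k J s s' y A g r N h m : ℕ) : List (List ℕ) :=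
  xb a n J y A g r N h m (tbd a k J s s' y)

def peel (a : O) (K : ℕ) (G St : List ℕ) : List ℕ :=
  ((out G St).find? fun v => decide ((out G St).countP (fun u => !(u == v) && a v u) < K)).toList
    ++ St

def ins (a : O) (K : ℕ) (col : List (ℕ × ℕ)) (v : ℕ) : List (ℕ × ℕ) :=
  (v, ((List.range K).find? fun c => col.all fun q => !(q.2 == c) || !a v q.1).getD 0) :: col

def gcol (a : O) (K : ℕ) (G : List ℕ) : List (ℕ × ℕ) :=
  ((peel a K G)^[G.length] []).foldl (ins a K) []

def asg (a : O) (n K : ℕ) (Cs : List (List ℕ)) : List (ℕ × ℕ) :=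
  gcol a K (out (List.range n) Cs.flatten) ++
    (Cs.zipIdx K).flatMap fun q => q.1.map fun v => (v, q.2)

def look (n : ℕ) (l : List (ℕ × ℕ)) : List ℕ :=
  (List.range n).map fun v => ((l.find? fun q => q.1 == v).getD (0, 0)).2

def run (a : O) (n : ℕ) (q : List ℕ) : List ℕ :=
  look n (asg a n (q.getD 0 0) (classes a n (q.getD 1 0) (q.getD 2 0) (q.getD 3 0) (q.getD 4 0)
    (q.getD 5 0) (q.getD 6 0) (q.getD 7 0) (q.getD 8 0) (q.getD 9 0) (q.getD 10 0) (q.getD 11 0)))

def tup (n : ℕ) : ℕ → List (List ℕ)
  | 0 => [[]]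
  | i + 1 => (tup n i).flatMap fun l => (List.range (n + 1)).map fun x => x :: l

def valid (a : O) (n k : ℕ) (c : List ℕ) : Bool :=
  (List.range n).all fun u => decide (c.getD u 0 < k) &&
    (List.range n).all fun v => u == v || !a u v || !(c.getD u 0 == c.getD v 0)

def outs (a : O) (n : ℕ) : List (List ℕ) :=
  (tup n 12).map (run a n) ++ (List.range (n + 1)).map fun K => look n (asg a n K [])

def best (a : O) (n : ℕ) (l : List (List ℕ)) : List ℕ :=
  (l.find? (valid a n (((List.range (n + 1)).find? fun k => l.any (valid a n k)).getD 0))).getD []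

def ad (M : List (List Bool)) : O := fun u v => (M.getD u []).getD v false

def alg (M : List (List Bool)) : List ℕ := best (ad M) M.length (outs (ad M) M.length)

/-! ### basic facts on `scan` -/

section
variable {τ : Type} {b : ℕ} {acc : List τ → ℕ → Option τ}

theorem scan_suffix (R : List ℕ) (s : List τ) : (scan b acc R s).1 <:+ R := by
  induction R generalizing s with
  | nil => exact List.suffix_rfl
  | cons w R ih =>
    rw [scan]; split_ifs
    · exact (ih _).trans (List.suffix_cons _ _)
    · exact List.suffix_rfl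

theorem scan_inv {I : List τ → Prop} (R : List ℕ) (s : List τ) (h0 : I s)
    (h : ∀ s, ∀ w ∈ R, I s → s.length < b → I ((acc s w).toList ++ s)) : I (scan b acc R s).2 := by
  induction R generalizing s with
  | nil => exact h0
  | cons w R ih =>
    rw [scan]; split_ifs with hb
    · exact ih _ (h s w (by simp) h0 hb) fun s v hv => h s v (by simp [hv])
    · exact h0

theorem scan_len (R : List ℕ) (s : List τ) : (scan b acc R s).2.length ≤ s.length + R.length := by
  induction R generalizing s with
  | nil => exact le_rfl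
  | cons w R ih =>
    rw [scan]; split_ifs
    · refine (ih _).trans ?_
      cases acc s w <;> simp; omega
    · simp

theorem scan_le (R : List ℕ) (s : List τ) : (scan b acc R s).2.length ≤ max b s.length :=
  scan_inv (I := fun t => t.length ≤ max b s.length) R s (le_max_right _ _) fun t w _ h1 h2 => by
    cases acc t w <;> simp at h1 ⊢ <;> omega

theorem scan_eq (R : List ℕ) (s : List τ) : R.foldl (fun x w =>
    if x.2.length < b then (x.1.tail, (acc x.2 w).toList ++ x.2) else x) (R, s) =
      scan b acc R s := by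
  induction R generalizing s with
  | nil => rfl
  | cons w R ih =>
    rw [scan, List.foldl_cons]
    split_ifs with hb
    · exact ih _
    · replace hb : ¬s.length < b := hb
      generalize w :: R = X
      clear ih
      induction R with
      | nil => rfl
      | cons v R ih => rw [List.foldl_cons, if_neg hb, ih]

end

end Pool.Agent.Lib.MP_1b5cbf_lc
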