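import Pool.Agent.Lib.MP_1b5cbf_lc.Tree

/-! One augmenting block and one greedy block. -/

set_option autoImplicit false

namespace Pool.Agent.Lib.MP_1b5cbf_lc

open Finset Classical Real

noncomputable section

variable {μ : Pm}

theorem len_le {X Y : List ℕ} (h : X.Nodup) (h' : X ⊆ Y) : X.length ≤ Y.length :=
  (List.subperm_of_subset h h').length_le

theorem len_flatMap {β : Type} {H : List β} {f : β → List ℕ} {c : ℕ}
    (h : ∀ x ∈ H, (f x).length = c) : (H.flatMap f).length = H.length * c := by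
  induction H with
  | nil => simp
  | cons x H ih =>
    rw [List.flatMap_cons, List.length_append, ih fun y hy => h y (by simp [hy]), h x (by simp),
      List.length_cons]
    ring

theorem nodup_of_cr {H : List Nd} (h : ∀ ρ, cr H ρ ≤ 1) : (H.map Prod.fst).Nodup :=
  List.nodup_iff_count_le_one.2 fun ρ => by
    rw [List.count_eq_countP, List.countP_map]; exact h ρ

theorem tree_tp {F : Fr} {R C T T' : List ℕ} {A g r K1 K2 : ℕ} {t u : ℝ}
    (hR : R.Nodup) (hd' : ∀ c ∈ C, c ∉ R) (hn : ∀ w ∈ R, w < μ.n) (hT : T'.Nodup)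
    (hT' : ∀ v ∈ T', v ∈ T ∧ v ∈ C ∧ v < μ.n) (ht : t ≤ T'.length) (hg : 1 ≤ g) (hu : u ≤ A)
    (h0 : 4 * (A * g ^ r : ℕ) ≤ t) (h1 : 2 * A ≤ t / 2 * (μ.p * (1 - μ.p) ^ C.length) * K1)
    (h2 : 2 * g * (g + 1) ≤ t / 2 * (μ.p ^ 2 * (1 - μ.p) ^ C.length) * K2) :
    TP μ ((1 + r) * exp (-u / 4)) F (BI F R C T R F) (fun a => tree (o a) A g r T' C R)
      fun x F' a => BI F R C T x.1 F' a ∧ Good R C x.1 x.2 F' a ∧ Lv μ.n C T g r x.2 ∧
        (K1 + r * K2 ≤ R.length → x.2.length = A * g ^ r ∧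
          R.length ≤ x.1.length + (K1 + r * K2)) := by
  have hA : ∀ i ≤ r, A * g ^ i ≤ A * g ^ r := fun i hi =>
    Nat.mul_le_mul_left _ (Nat.pow_le_pow_right hg hi)
  have e0 : ((T'.map fun v => ((v, [v], []) : Nd)).map hd) = T' := by
    simp [Function.comp_def, hd]
  have a1 := cstage (μ := μ) (F1 := F) (F := F) (R := R) (T := T) (b := A) (B := 1) (M := K1)
    (m := t / 2) (u := u) (G := True) (Y := T'.map fun v => (v, [v], [])) hR hd' hn
    (e0.symm ▸ hT) (by simpa [hd] using hT') (fun ρ => by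
      have := List.nodup_iff_count_le_one.1 hT ρ
      rw [List.count_eq_countP] at this
      rw [cr, List.countP_map]
      exact this) fun _ => by
      have h3 : (A : ℝ) ≤ (A * g ^ r : ℕ) := by exact_mod_cast (by simpa using hA 0 (by omega))
      have h4 : ((2 * A * 1 : ℕ) : ℝ) ≤ T'.length := by
        push_cast at h0 h3 ⊢; nlinarith [(Nat.cast_nonneg A : (0 : ℝ) ≤ A)]
      simp only [List.length_map]
      exact ⟨by exact_mod_cast h4, by linarith, hu, h1⟩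
  have a2 := TP.iter (μ := μ) (f := fun a => ext (o a) g C T') (exp_pos (-u / 4)).le r
    (I := fun i x F' a => BI F R C T x.1 F' a ∧ Good R C x.1 x.2 F' a ∧ Lv μ.n C T g i x.2 ∧
      (K1 + i * K2 ≤ R.length → x.2.length = A * g ^ i ∧ R.length ≤ x.1.length + (K1 + i * K2)))
    (fun s F' η a h he => ⟨BI.stab _ _ _ h.1 he, h.2.1.ext he (by simp) (by simp), h.2.2⟩)
    fun i hi s F' => TP.of_pre (exp_pos _).le fun η hp => by
      refine (estage (F1 := F) (M := K2) (G := s.2.length = A * g ^ i) hR hd' hn hT hT' hp.2.2.1 ht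
        fun hG => ⟨?_, ?_, h2⟩).conseq le_rfl (exp_pos _).le fun η h => ⟨⟨h.1, h.2.1⟩,
          fun a F'' _ h' => ⟨h'.1, h'.2.1, h'.2.2.1, fun hK => ?_⟩⟩
      · have b1 := hA i hi.le
        have b2 := hA (i + 1) hi
        have b3 : s.2.length + g * s.2.length ≤ 2 * (A * g ^ r) := by
          rw [hG, show g * (A * g ^ i) = A * g ^ (i + 1) by ring]; omega
        have b4 : (s.2.length : ℝ) + g * s.2.length ≤ 2 * (A * g ^ r : ℕ) := by exact_mod_cast b3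
        linarith
      · refine hu.trans (Nat.cast_le.2 ?_)
        rw [hG, show g * (A * g ^ i) = A * g ^ (i + 1) by ring]
        exact Nat.le_mul_of_pos_right _ (by positivity)
      · rw [add_mul, one_mul] at hK ⊢
        obtain ⟨b1, b2⟩ := h.2.2.2 (by omega)
        obtain ⟨b3, b4⟩ := h'.2.2.2.2 b1 (by omega)
        exact ⟨by rw [le_antisymm h'.2.2.2.1 b3, b1]; ring, by omega⟩
  refine ((a1.conseq le_rfl (exp_pos _).le fun η h => ⟨⟨h, by simp, by simp, by simp⟩,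
    fun a F' _ h => ⟨h.1, h.2.1, ⟨fun x hx => ?_, ?_, h.2.2.1.2⟩, fun hK => ?_⟩⟩).bind a2).conseq
    (le_of_eq (by ring)) (by positivity) fun η h => ⟨h, fun _ _ _ h => h⟩
  · obtain ⟨y, hy, b1, b2, b3⟩ := h.2.2.1.1 x hx
    obtain ⟨v, hv, rfl⟩ := List.mem_map.1 hy
    simpa [b2, b3, hd] using hT' v hv
  · rw [List.map_congr_left (g := Prod.fst) fun x hx => ?_]
    · exact nodup_of_cr h.2.2.1.2
    · obtain ⟨y, hy, b1, b2, b3⟩ := h.2.2.1.1 x hx
      obtain ⟨v, hv, rfl⟩ := List.mem_map.1 hy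
      simp [b1, b2, hd]
  · simp only [zero_mul, add_zero, pow_zero, mul_one] at hK ⊢
    obtain ⟨b3, b4⟩ := h.2.2.2.2 trivial hK
    exact ⟨le_antisymm h.2.2.2.1 b3, b4⟩

structure RI (F0 : Fr) (R0 C0 T R C : List ℕ) (F : Fr) (a : A) : Prop where
  suf : R <:+ R0
  nd : C.Nodup
  dis : ∀ c ∈ C, c ∉ R
  mem : ∀ c ∈ C, c ∈ C0 ∨ c ∈ R0
  keep : ∀ c ∈ C0, c ∈ T ∨ c ∈ C
  rr : OK F a R R
  rc : OK F a R C
  fr : FR F R T
  ind : Ind F a C
  fm : Fm F0 F (fun x => x ∈ R0 ∧ x ∉ R) fun c => c ∈ T ∨ c ∈ C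

theorem RI.stab {F0 : Fr} {R0 C0 T R C : List ℕ} : Stab (RI F0 R0 C0 T R C) := fun _ _ _ h he =>
  ⟨h.suf, h.nd, h.dis, h.mem, h.keep, h.rr.stab he, h.rc.stab he, h.fr, h.ind.ext he, h.fm⟩

def tf (T C : List ℕ) : ℕ := (T.filter fun v => decide (v ∈ C)).length

/-- what a block achieves -/
def BQ (F0 : Fr) (R0 C0 T : List ℕ) (N l K : ℕ) (s x : List ℕ × List ℕ) (F : Fr) (a : A) : Prop :=
  RI F0 R0 C0 T x.1 x.2 F a ∧ s.2.length ≤ x.2.length ∧ tf T s.2 ≤ tf T x.2 + l ∧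
    (K ≤ s.1.length → s.2.length + N ≤ x.2.length ∧ s.1.length ≤ x.1.length + K)

theorem fin_tp {F0 F1 F : Fr} {R0 C0 T R C : List ℕ} {s : List ℕ × List Nd} {r N K : ℕ} {u : ℝ}
    {η1 : A} (hT : T.Nodup) (hI : RI F0 R0 C0 T R C F1 η1) (hu : u ≤ N)
    (hc : μ.p * ((r + 2) * (2 * N) : ℕ) * ((r + 2) * (2 * N) : ℕ) ≤ 0.44 * N)
    (hs : ∀ x ∈ s.2, x.2.1.length = r + 1 ∧ x.2.2.length = r + 2 ∧ x.2.1 ⊆ T)
    (hs' : ∀ ρ, cr s.2 ρ ≤ 1) (hl : s.2.length ≤ 2 * N)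
    (hK : K ≤ R.length → 2 * N ≤ s.2.length ∧ R.length ≤ s.1.length + K) :
    TP μ (exp (-u / 4)) F (fun η => BI F1 R C T s.1 F η ∧ Good R C s.1 s.2 F η)
      (fun a => fin (o a) N C s) (BQ F0 R0 C0 T N ((r + 1) * (2 * N)) K (R, C)) := by
  obtain ⟨R', H⟩ := s
  dsimp only at *
  have hfm : ∀ {F a}, BI F1 R C T R' F a → ∀ C' : List ℕ, (∀ c ∈ C, c ∈ T ∨ c ∈ C') →
      Fm F0 F (fun x => x ∈ R0 ∧ x ∉ R') fun c => c ∈ T ∨ c ∈ C' := fun h C' hC =>
    (hI.fm.mono (fun x hx => ⟨hx.1, fun h' => hx.2 (h.suf.subset h')⟩)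
      fun c hc => hc.elim Or.inl (hC c)).trans
      (h.fm.mono (fun x hx => ⟨hI.suf.subset hx.1, hx.2⟩) hC)
  by_cases hH : H.length < 2 * N
  · have : (fun a => fin (o a) N C (R', H)) = fun _ => (R', C) := by
      funext a; simp [fin, hH, com, gst, scan]
    rw [this]
    refine TP.pure (exp_pos _).le fun η h a he => ?_
    have h1 := BI.stab _ _ _ h.1 he
    exact ⟨⟨h1.suf.trans hI.suf, hI.nd, fun c hc h' => hI.dis c hc (h1.suf.subset h'), hI.mem,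
      hI.keep, fun u hu v hv => h1.rr u (h1.suf.subset hu) v (h1.suf.subset hv), h1.rc, h1.fr,
      h1.ind, hfm h1 C fun c => Or.inr⟩, le_rfl, by simp, fun h => absurd (hK h).1 (by omega)⟩
  refine TP.of_pre (exp_pos _).le fun η0 hp => ?_
  have hH' : H.length = 2 * N := by omega
  set L := H.flatMap fun x => x.2.2
  set U := H.flatMap fun x => x.2.1
  set C' := C.filter fun c => decide (c ∉ U)
  have hL : L.length = (r + 2) * (2 * N) := by
    rw [len_flatMap fun x hx => (hs x hx).2.1, hH', mul_comm]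
  have hU : U.length = (r + 1) * (2 * N) := by
    rw [len_flatMap fun x hx => (hs x hx).1, hH', mul_comm]
  have hUT : ∀ c ∈ U, c ∈ T := fun c hc => by
    obtain ⟨x, hx, hc⟩ := List.mem_flatMap.1 hc
    exact (hs x hx).2.2 hc
  have hC' : ∀ c, c ∈ C' ↔ c ∈ C ∧ c ∉ U := by simp [C']
  have hLm : ∀ {F a}, Good R C R' H F a → ∀ l ∈ L, l ∈ R ∧ l ∉ R' ∧ ∀ c ∈ C', no F a s(l, c) :=
    fun h l hl => by
      obtain ⟨x, hx, hl⟩ := List.mem_flatMap.1 hl
      obtain ⟨b1, b2, b3⟩ := h.mem x hx l hl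
      exact ⟨b1, b2, fun c hc => b3 c ((hC' c).1 hc).1 fun h =>
        ((hC' c).1 hc).2 (List.mem_flatMap.2 ⟨x, hx, h⟩)⟩
  have hLn : L.Nodup := List.nodup_flatMap.2 ⟨hp.2.nd, (List.pairwise_map.1
    (nodup_of_cr hs')).imp_of_mem fun hx hy hne _ => hp.2.dis _ hx _ hy hne _⟩
  have hlen : C.length ≤ C'.length + (r + 1) * (2 * N) := by
    rw [← hU, ← List.length_append]
    exact len_le hI.nd fun c hc => by by_cases h : c ∈ U <;> simp [hC', hc, h]
  have : (fun a => fin (o a) N C (R', H)) = fun a => (R', (gst (o a) (C.length + N) L C').2) := by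
    funext a; simp only [fin, hH, com, if_false]; rfl
  rw [this]
  refine TP.map (fun x : List ℕ × List ℕ => (R', x.2)) ((gstage (K := (· ∈ C')) (G := True)
    (β := (r + 1) * (2 * N) + N) (M := (r + 2) * (2 * N)) hLn
    (fun c hc h => hI.dis c ((hC' c).1 hc).1 (hLm hp.2 c h).1) (exp_pos _).le ?_ ?_
    (fun _ => le_rfl) fun _ => num2 (e := N) (by omega) (le_of_eq (by ring)) hu hc).conseq le_rfl
    (exp_pos _).le fun η h => ⟨?_, fun a F' he h' => ?_⟩)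
  · linarith [pow_le_one₀ (n := (r + 1) * (2 * N) + N) (sub_nonneg.2 μ.h1) (sub_le_self 1 μ.h0)]
  · rw [List.filter_eq_nil_iff.2 (by simp)]
    simp only [List.length_nil]; omega
  · have := hLm h.2
    exact ⟨List.suffix_rfl, List.suffix_rfl, hI.nd.filter _, fun c => Or.inl,
      fun l hl c hc _ => Or.inr ((this l hl).2.2 c hc).2,
      fun l hl v hv => h.1.rr l (this l hl).1 v (this v hv).1,
      fun l hl c hc => ((this l hl).2.2 c hc).1,
      fun l hl v hv => h.1.ind l ((hC' l).1 hl).1 v ((hC' v).1 hv).1, Fm.refl⟩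
  · generalize gst (o a) (C.length + N) L C' = x at h' ⊢
    obtain ⟨g1, -, g2⟩ := h'
    have hL' := hLm h.2
    have hm : ∀ c ∈ x.2, c ∈ C ∨ c ∈ L := fun c hc =>
      (g1.mem c hc).imp (fun h => ((hC' c).1 h).1) And.left
    have hdis : ∀ c ∈ x.2, c ∉ R' := fun c hc h' => (hm c hc).elim
      (fun h1 => hI.dis c h1 (h.1.suf.subset h')) fun h1 => (hL' c h1).2.1 h'
    have hk : ∀ c ∈ C, c ∈ T ∨ c ∈ x.2 := fun c hc => by
      by_cases h : c ∈ U
      exacts [Or.inl (hUT c h), Or.inr (g1.pre.subset ((hC' c).2 ⟨hc, h⟩))]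
    have keep : ∀ w ∈ R', ∀ v, s(w, v) ∈ F → s(w, v) ∈ F' := fun w hw v =>
      g1.fm.keep (fun h => (hL' w h.1.1).2.1 hw) fun h => hdis w h.2 hw
    obtain ⟨g3, -⟩ := g2 trivial hL.ge
    refine ⟨⟨h.1.suf.trans hI.suf, g1.nd, hdis, fun c hc => (hm c hc).elim (hI.mem c)
      fun h => Or.inr (hI.suf.subset (hL' c h).1), fun c hc => (hI.keep c hc).elim Or.inl (hk c),
      fun w hw v hv hne => he.ok (h.1.rr w (h.1.suf.subset hw) v (h.1.suf.subset hv) hne)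
        (keep w hw v), fun w hw v hv hne => he.ok ((hm v hv).elim (fun h1 => h.1.rc w hw v h1 hne)
        fun h1 => h.1.rr w (h.1.suf.subset hw) v (hL' v h1).1 hne) (keep w hw v),
      fun w hw v hv => keep w hw v (h.1.fr w hw v hv), g1.ind, (hfm h.1 x.2 hk).trans
        (g1.fm.mono (fun l hl => ⟨hI.suf.subset (hL' l hl.1).1, (hL' l hl.1).2.1⟩)
          fun c => Or.inr)⟩, le_trans (Nat.le_add_right _ _) g3, ?_, fun h => ⟨g3, (hK h).2⟩⟩
    rw [← hU, tf, tf, ← List.length_append]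
    refine len_le (hT.filter _) fun c hc => ?_
    simp only [List.mem_filter, decide_eq_true_eq, List.mem_append] at hc ⊢
    by_cases h : c ∈ U
    exacts [Or.inr h, Or.inl ⟨hc.1, g1.pre.subset ((hC' c).2 ⟨hc.2, h⟩)⟩]

theorem swp_tp {F0 F : Fr} {R0 C0 T : List ℕ} {s : List ℕ × List ℕ} {A g r N K1 K2 K3 : ℕ}
    {t u : ℝ} (hR : R0.Nodup) (hn : ∀ w ∈ R0, w < μ.n) (hT : T.Nodup) (hTn : ∀ v ∈ T, v < μ.n)
    (ht : t ≤ tf T s.2) (hg : 1 ≤ g) (hu : u ≤ N) (hA : 4 * N * (g + 1) ^ r ≤ A * g ^ r)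
    (h0 : 4 * (A * g ^ r : ℕ) ≤ t) (h1 : 2 * A ≤ t / 2 * (μ.p * (1 - μ.p) ^ s.2.length) * K1)
    (h2 : 2 * g * (g + 1) ≤ t / 2 * (μ.p ^ 2 * (1 - μ.p) ^ s.2.length) * K2)
    (h3 : 4 * N ≤ (A * g ^ r : ℕ) / 2 * (μ.p * (1 - μ.p) ^ s.2.length) * K3)
    (hc : μ.p * ((r + 2) * (2 * N) : ℕ) * ((r + 2) * (2 * N) : ℕ) ≤ 0.44 * N) :
    TP μ ((r + 3) * exp (-u / 4)) F (RI F0 R0 C0 T s.1 s.2 F) (fun a => swp (o a) A g r N T s)
      (BQ F0 R0 C0 T N ((r + 1) * (2 * N)) (K1 + r * K2 + K3) s) := by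
  obtain ⟨R, C⟩ := s
  dsimp only at *
  refine TP.of_pre (by positivity) fun η1 hI => ?_
  have hR' := hR.sublist hI.suf.sublist
  have hn' : ∀ w ∈ R, w < μ.n := fun w hw => hn w (hI.suf.subset hw)
  have hNA : N ≤ A := Nat.le_of_mul_le_mul_right (le_trans (by
    gcongr <;> omega) hA) (by positivity : 0 < g ^ r)
  have a1 := tree_tp (μ := μ) (F := F) (T := T) (T' := T.filter fun v => decide (v ∈ C)) hR'
    hI.dis hn' (hT.filter _) (fun v hv => by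
      simp only [List.mem_filter, decide_eq_true_eq] at hv; exact ⟨hv.1, hv.2, hTn v hv.1⟩)
    ht hg (hu.trans (Nat.cast_le.2 hNA)) h0 h1 h2
  refine ((a1.bind (δ' := exp (-u / 4)) (g := fun x a => clo (o a) N C x)
    (R := fun x F' a => (BI F R C T x.1 F' a ∧ Good R C x.1 x.2 F' a) ∧
      (∀ z ∈ x.2, z.2.1.length = r + 1 ∧ z.2.2.length = r + 2 ∧ z.2.1 ⊆ T) ∧
      (∀ ρ, cr x.2 ρ ≤ 1) ∧ x.2.length ≤ 2 * N ∧ (K1 + r * K2 + K3 ≤ R.length →
        2 * N ≤ x.2.length ∧ R.length ≤ x.1.length + (K1 + r * K2 + K3))) fun x F' => ?_).bind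
    (δ' := exp (-u / 4)) (g := fun x a => fin (o a) N C x) fun x F' =>
      TP.of_pre (exp_pos _).le fun η h => (fin_tp hT hI hu hc h.2.1 h.2.2.1 h.2.2.2.1
        h.2.2.2.2).conseq le_rfl (exp_pos _).le fun η h => ⟨h.1, fun _ _ _ h => h⟩).conseq
    (le_of_eq (by ring)) (by positivity) fun η h =>
      ⟨⟨List.suffix_rfl, h.rr, h.rc, h.fr, h.ind, Fm.refl⟩, fun _ _ _ h => h⟩
  refine TP.of_pre (exp_pos _).le fun η hp => ?_
  have hL := hp.2.2.1
  refine (cstage (F1 := F) (T := T) (B := (g + 1) ^ r) (M := K3) (m := (A * g ^ r : ℕ) / 2)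
    (G := x.2.length = A * g ^ r) hR' hI.dis hn' hL.nd (fun y hy => ?_) hL.cap
    fun hG => ⟨?_, ?_, ?_, ?_⟩).conseq le_rfl (exp_pos _).le fun η h => ⟨⟨h.1, h.2.1⟩,
      fun a F'' _ h' => ⟨⟨h'.1, h'.2.1⟩, fun z hz => ?_, h'.2.2.1.2, h'.2.2.2.1, fun hK => ?_⟩⟩
  · obtain ⟨b1, -, b3, b4⟩ := hL.sh y hy
    obtain ⟨e, l, el⟩ := List.exists_cons_of_length_eq_add_one b1
    exact ⟨by simp [el], b3 (by simp [hd, el]), b4⟩
  · rw [hG, ← mul_assoc]; exact hA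
  · rw [hG]; linarith
  · push_cast; linarith [(Nat.cast_nonneg N : (0 : ℝ) ≤ N)]
  · push_cast at h3 ⊢; linarith
  · obtain ⟨y, hy, -, b2, b3⟩ := h'.2.2.1.1 z hz
    obtain ⟨c1, c2, c3, -⟩ := hL.sh y hy
    exact ⟨b2 ▸ c1, by omega, b2 ▸ c3⟩
  · obtain ⟨b1, b2⟩ := h.2.2.2 (by omega)
    obtain ⟨b3, b4⟩ := h'.2.2.2.2 b1 (by omega)
    exact ⟨b3, by omega⟩

theorem gro_tp {F0 F : Fr} {R0 C0 T : List ℕ} {s : List ℕ × List ℕ} {N K : ℕ} {u : ℝ}
    (hR : R0.Nodup) (hT : T.Nodup) (hu : u ≤ N)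
    (h1 : 2 * N ≤ (1 - μ.p) ^ (s.2.length + N) * K) :
    TP μ (exp (-u / 4)) F (RI F0 R0 C0 T s.1 s.2 F) (fun a => gro (o a) N s)
      (BQ F0 R0 C0 T N 0 K s) := by
  obtain ⟨R, C⟩ := s
  dsimp only at *
  refine TP.of_pre (exp_pos _).le fun η1 hI => ?_
  refine (gstage (K := fun _ => False) (G := True) (β := C.length + N) (M := K)
    (θ := exp (-(1 - μ.p) ^ (C.length + N) / 2)) (hR.sublist hI.suf.sublist) hI.dis
    (exp_pos _).le (exp_pos _).le (by simp) (fun _ => ?_) fun _ => ?_).conseq le_rfl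
    (exp_pos _).le fun η h => ⟨⟨List.suffix_rfl, List.suffix_rfl, h.nd, fun c => Or.inl, h.rc,
      h.rr, by simp, h.ind, Fm.refl⟩, fun a F' he h' => ?_⟩
  · linarith [add_one_le_exp (-(1 - μ.p) ^ (C.length + N) / 2)]
  · rw [Nat.add_sub_cancel_left]; exact num1 hu h1
  · dsimp only
    generalize gst (o a) (C.length + N) R C = x at h' ⊢
    obtain ⟨g1, -, g2⟩ := h'
    have hdis : ∀ c ∈ x.2, c ∉ x.1 := fun c hc h' => (g1.mem c hc).elim
      (fun h1 => h.dis c h1 (g1.suf.subset h')) fun h1 => h1.2 h'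
    refine ⟨⟨g1.suf.trans h.suf, g1.nd, hdis, fun c hc => (g1.mem c hc).elim (h.mem c)
      fun h' => Or.inr (h.suf.subset h'.1), fun c hc => (h.keep c hc).imp_right
        fun h => g1.pre.subset h, g1.rr, g1.rc, fun w hw v hv => g1.fm.keep (fun h => h.1.2 hw)
        (fun h => hdis w h.2 hw) (h.fr w (g1.suf.subset hw) v hv), g1.ind,
      (h.fm.mono (fun y hy => ⟨hy.1, fun h => hy.2 (g1.suf.subset h)⟩) fun c hc => hc.imp_right
        fun h => g1.pre.subset h).trans (g1.fm.mono (fun y hy => ⟨h.suf.subset hy.1, hy.2⟩)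
        fun c => Or.inr)⟩, g1.pre.length_le, len_le (hT.filter _) fun c hc => ?_, g2 trivial⟩
    simp only [List.mem_filter, decide_eq_true_eq] at hc ⊢
    exact ⟨hc.1, g1.pre.subset hc.2⟩

end

end Pool.Agent.Lib.MP_1b5cbf_lc
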