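import Pool.Agent.Lib.MP_1b5cbf_lc.Param

/-! The failure probability in the binomial model. -/

set_option autoImplicit false

namespace Pool.Agent.Lib.MP_1b5cbf_lc

open Finset Classical Real

noncomputable section

variable {μ : Pm} {κ D l L : ℝ}

theorem Big.logL (h : Big D l L) : 11 ≤ log L := by
  have hL := h.hL
  rw [le_log_iff_exp_le (by linarith), show (11 : ℝ) = (11 : ℕ) * 1 by norm_num, exp_nat_mul]
  exact (pow_le_pow_left₀ (exp_pos _).le exp_one_lt_d9.le _).trans (by norm_num; linarith)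

theorem main_par (h : Big D l L) (hp : Kp μ κ) (hκ : κ * l ^ 5 ≤ 1) (hn1 : D / 2 ≤ κ * μ.n)
    (hn2 : κ * μ.n ≤ D) {k : ℕ} (hk1 : k * l ≤ 2 * D) (hk2 : D ≤ k * (l + L - 17 * log L)) :
    E μ (fun a => ind (Bad μ.n k a)) ≤
      8 * μ.n ^ 3 * exp (-(μ.n / (32 * l ^ 4 * D))) + (l ^ 2 / μ.n) ^ 3 := by
  obtain ⟨a1, a2, a3⟩ := h.L3
  have hL := h.hL
  have h0 := hp.pos
  have hl : 100000 ≤ l := by linarith
  have hl0 : 0 < l := by linarith
  have hD6 := h.l6.1
  have pw : ∀ i, 100000 * l ^ i ≤ l ^ (i + 1) := fun i => by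
    rw [pow_succ']; exact mul_le_mul_of_nonneg_right hl (pow_pos hl0 i).le
  have l1 := pw 1
  have l2 := pw 2
  have l3 := pw 3
  have l4 := pw 4
  have l5 := pw 5
  norm_num only [pow_one] at l1 l2 l3 l4 l5
  have hD0 : 0 < D := by linarith
  have lL := h.logL
  obtain ⟨w, hw⟩ : ∃ w, D = w * l ^ 2 := ⟨D / l ^ 2, by field_simp⟩
  have w1 : l ^ 4 ≤ w := le_of_mul_le_mul_right (by linarith) (pow_pos hl0 2)
  have w0 : 0 ≤ w := by linarith
  have w2 : D / l ^ 2 = w := by rw [hw]; field_simp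
  have w3 : D / l ^ 5 * l ^ 3 = w := by rw [hw]; field_simp
  have w4 : 1 ≤ D / l ^ 5 := (one_le_div (by positivity)).2 (by linarith)
  have κ1 : κ * 100000 ≤ 1 := le_trans (mul_le_mul_of_nonneg_left (by linarith) h0.le) hκ
  have nD : D ≤ μ.n := by
    linarith [mul_le_mul_of_nonneg_right κ1 (Nat.cast_nonneg μ.n : (0 : ℝ) ≤ μ.n)]
  have n0 : (0 : ℝ) < μ.n := by linarith
  have k0 : (0 : ℝ) ≤ k := Nat.cast_nonneg k
  have k1 : w * l ≤ 2 * k := le_of_mul_le_mul_right (by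
    linarith [mul_le_mul_of_nonneg_left (by linarith : l + L - 17 * log L ≤ 2 * l) k0]) hl0
  obtain ⟨A, g, r, N, m, n1, n2, sp, m1, m2, g1, r1, m3, hA⟩ := swap_par h h0 hκ
  obtain ⟨hh, h1, h2⟩ := cl_spec h0 (a := D / l ^ 5) (by positivity)
  obtain ⟨x, x1, x2⟩ := cl_spec h0 (a := 8 * w) (by linarith)
  obtain ⟨ρ, ρ1, ρ2⟩ := ce_spec (a := 20 * w) (by linarith)
  obtain ⟨j, j1, j2⟩ := ce_spec (a := 38 * (w * L ^ 2)) (by positivity)
  have wL : w ≤ w * L ^ 2 := le_mul_of_one_le_right w0 (by linarith)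
  have j3 : 2 * (ρ : ℝ) + j ≤ 81 * (w * L ^ 2) := by linarith
  have wl : 100000 * (w * L ^ 3) ≤ w * l := by linarith [mul_le_mul_of_nonneg_left a3 w0]
  have wl2 : 100000 * (w * L ^ 2) ≤ w * L ^ 3 := by linarith [mul_le_mul_of_nonneg_left a2 w0]
  obtain ⟨k', hk'⟩ : ∃ k', k = k' + (2 * ρ + j) := ⟨k - (2 * ρ + j), by
    have : 2 * ρ + j ≤ k := by exact_mod_cast (by linarith : 2 * (ρ : ℝ) + j ≤ k)
    omega⟩
  have k2 : (k : ℝ) = k' + (2 * ρ + j) := by exact_mod_cast hk'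
  have k3 : (0 : ℝ) ≤ k' := Nat.cast_nonneg k'
  have k4 : k' * l ≤ 2 * D := le_trans (by gcongr; omega) hk1
  obtain ⟨J, s', e, M, t1, t2, t3, t4, t5, t6, t7, t8, t9, t10⟩ := seed_par h hp hκ k4
  have hν : 0 < κ * N := pos_of_mul_pos_right (by linarith : 0 < 2000 * L ^ 2 * (κ * N))
    (by positivity)
  have ν1 : 1000 * (κ * N) ≤ 1 := by
    linarith [mul_le_mul_of_nonneg_right (by linarith : 1 ≤ L ^ 2) hν.le]
  have h3 : κ * hh * l ^ 3 ≤ 2 * w := by
    linarith [mul_le_mul_of_nonneg_right (by linarith : κ * hh ≤ 2 * (D / l ^ 5)) (pow_pos hl0 3).le]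
  have h5 : 0 < κ * hh := by linarith
  have h4 : κ * hh ≤ w := by
    linarith [mul_le_mul_of_nonneg_left (by linarith : 2 ≤ l ^ 3) h5.le]
  have sm : ∀ {v : ℕ}, κ * v ≤ D / 2 → v ≤ μ.n := fun hv => by
    exact_mod_cast le_of_mul_le_mul_left (hv.trans hn1) h0
  have sm' : ∀ {v : ℕ}, (v : ℝ) ≤ D → v ≤ μ.n := fun hv => by exact_mod_cast hv.trans nD
  have wD : 100000 * w ≤ D := by
    linarith [mul_le_mul_of_nonneg_left (by linarith : 100000 ≤ l ^ 2) w0]
  have y1 : J * (k' * (s' + e) + M) ≤ μ.n := sm (by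
    have := mul_le_mul_of_nonneg_left t4 k3
    push_cast at t9 this ⊢
    linarith)
  have kD : (k : ℝ) ≤ D := by linarith [mul_le_mul_of_nonneg_left hl k0]
  have x3 : 8 * μ.n ≤ l ^ 2 * x := le_of_mul_le_mul_left (by
    linarith [mul_le_mul_of_nonneg_left x1 (pow_pos hl0 2).le]) h0
  have x4 : (0 : ℝ) < x := pos_of_mul_pos_right (by linarith : 0 < κ * x) h0.le
  refine (core (k1 := k') (J := J) (s := s' + e) (s' := s') (y := k' * (s' + e) + M) (e := e)
    (M := M) (h := hh) (m := m) (x := x) (ρ := ρ) (u := 1 / (8 * l ^ 4 * κ)) (D := D)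
    (Λ := l + L - 7 * log L) (c := 8 * √D / l) (LB := l - 6 * L) hp ?_ ?_ (by linarith)
    (by omega) y1 hn2 ?_ ?_ sp ?_ ?_ (by positivity)
    (fun x x' z b1 _ b3 b4 b5 => acc_par h (by linarith) b3 b4 b5 t4) (by linarith) ?_ ?_ ?_ t1
    le_rfl le_rfl ?_ t2 (by exact_mod_cast x4) ?_ ?_ ?_ (sm' kD) ?_).trans (add_le_add ?_ ?_)
  · exact_mod_cast (pos_of_mul_pos_right hν h0.le : (0 : ℝ) < N)
  · rw [div_le_iff₀ (by positivity)]
    linarith [mul_le_mul_of_nonneg_right (by linarith : 2000 * L ^ 2 ≤ 8 * l ^ 4) hν.le]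
  · rw [h.hD, exp_le_exp]
    have b1 : l ^ 5 ≤ hh := by
      linarith [mul_le_mul_of_nonneg_left (w4.trans h1) (pow_pos hl0 5).le,
        mul_le_mul_of_nonneg_right hκ (Nat.cast_nonneg hh : (0 : ℝ) ≤ hh)]
    have b2 : 2000 * L ^ 2 * l ≤ l ^ 5 := by
      linarith [mul_le_mul_of_nonneg_right (by linarith : 2000 * L ^ 2 ≤ l) hl0.le]
    push_cast
    linarith [mul_le_mul_of_nonneg_left n1 hl0.le, mul_le_mul_of_nonneg_left (b2.trans b1) hν.le]
  · exact_mod_cast (pos_of_mul_pos_right h5 h0.le : (0 : ℝ) < hh)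
  · refine le_of_mul_le_mul_left ?_ h0
    rw [mul_add, show κ * (l / (16 * κ)) = l / 16 by field_simp]
    linarith
  · have := exp_le_exp.2 m2
    rw [← h.hl] at this
    refine le_trans ?_ (mul_le_mul_of_nonneg_left this (by positivity))
    rw [div_mul_cancel₀ _ hl0.ne']
    exact le_trans (by linarith) (le_self_pow₀ (by linarith) (by norm_num))
  · intro z hz
    have b1 : D ≤ l ^ 6 * exp z := by
      have := (div_le_iff₀ (pow_pos hl0 5)).1 (h1.trans hz)
      linarith [mul_le_mul_of_nonneg_right l5 (exp_pos z).le, mul_pos (pow_pos hl0 5) (exp_pos z)]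
    rw [h.hD] at b1
    nth_rw 2 [h.hl] at b1
    rw [← exp_nat_mul, ← exp_add, exp_le_exp] at b1
    push_cast at b1
    linarith
  · have b1 := mul_le_mul_of_nonneg_left m1 k3
    have b2 : k' * (9 * L ^ 2) ≤ 18 * (w * L ^ 2) * l := le_of_mul_le_mul_right (by
      have := mul_le_mul_of_nonneg_right (hw ▸ k4) (by positivity : 0 ≤ L ^ 2)
      linarith only [this]) hl0
    have b3 : l / 2 * (38 * (w * L ^ 2)) ≤ (l - 6 * L) * j := by gcongr <;> linarith
    have b4 := mul_le_mul_of_nonneg_left (by linarith : 1 ≤ l) (by linarith : 0 ≤ w * L ^ 2)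
    rw [show (k : ℝ) - k' - 2 * ρ = j by linarith]
    push_cast at b1 ⊢
    linarith only [b1, b2, b3, b4, h4, wL]
  · have b1 : 8 * √D / l * √D = 8 * (w * l) := by
      rw [div_mul_eq_mul_div, mul_assoc, mul_self_sqrt hD0.le, hw]; field_simp
    have b2 : (2 * ρ + j) * (7 * L) ≤ 81 * (w * L ^ 2) * (7 * L) := by gcongr
    have b3 : 2 * ρ * (l - 6 * L) ≤ 42 * w * l :=
      mul_le_mul (by linarith) (by linarith) (by linarith) (by linarith)
    have b4 : (0 : ℝ) ≤ (2 * ρ + j) * log L := mul_nonneg (by positivity) (by linarith)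
    rw [b1, show (k : ℝ) - k' - 2 * ρ = j by linarith, show (k' : ℝ) = k - (2 * ρ + j) by linarith]
    linarith only [mul_le_mul_of_nonneg_left lL k0, b2, b3, b4, wl, k1, hk2, k0]
  · rw [div_le_iff₀ (by positivity)]; linarith
  · exact_mod_cast (by linarith : (5 : ℝ) ≤ ρ)
  · have b1 := sp_par (w := w) (a := μ.p * x) (b := l ^ 2) (by linarith) ρ1
      ((mul_le_mul_of_nonneg_right hp.p_le x4.le).trans (by linarith)) (by linarith)
    linarith only [mul_le_mul_of_nonneg_left x3 (exp_pos (1 + μ.p * x)).le,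
      mul_le_mul_of_nonneg_right b1 x4.le, mul_pos (exp_pos (1 + μ.p * x)) n0,
      (by positivity : (0 : ℝ) ≤ 2 ^ (ρ - 5) * x)]
  · have b1 : κ * ((J + 1) * hh + J * (k' * e + M) : ℕ) ≤ κ * x := by
      have := mul_le_mul_of_nonneg_right t7 h5.le
      push_cast at t9 ⊢
      linarith
    have b2 : (J + 1) * hh + J * (k' * e + M) ≤ x := by exact_mod_cast le_of_mul_le_mul_left b1 h0
    linarith only [b2]
  · simp only [List.mem_cons, List.not_mem_nil, or_false, forall_eq_or_imp, forall_eq]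
    have b1 := sm' kD
    have b2 : s' + e ≤ μ.n := sm (by linarith)
    have b3 : A ≤ μ.n := sm (by rw [hA]; push_cast; linarith)
    exact ⟨by omega, by omega, sm' (by linarith), b2, by omega,
      le_trans (Nat.le_mul_of_pos_left _ t6) y1, b3, sm' (by linarith), sm' (by linarith),
      by omega, sm (by linarith), sm' (by linarith)⟩
  · refine mul_le_mul_of_nonneg_left (exp_le_exp.2 ?_) (by positivity)
    rw [neg_div, neg_le_neg_iff, div_div, div_le_div_iff₀ (by positivity) (by positivity)]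
    linarith only [mul_le_mul_of_nonneg_left hn2 (pow_pos hl0 4).le]
  · have b1 : 1 / x ≤ l ^ 2 / μ.n := by
      rw [div_le_div_iff₀ x4 n0]; linarith
    refine le_trans ?_ (pow_le_pow_left₀ (by positivity) b1 3)
    rw [div_pow, div_le_div_iff₀ (by positivity) (by positivity)]
    linarith only [pow_pos x4 4]

end

end Pool.Agent.Lib.MP_1b5cbf_lc
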