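import Pool.Agent.Lib.MP_1b5cbf_lc.Transfer

/-! The failure probability for admissible parameters. -/

set_option autoImplicit false

namespace Pool.Agent.Lib.MP_1b5cbf_lc

open Finset Classical Real

noncomputable section

variable {μ : Pm} {κ : ℝ}

def Bad (n k : ℕ) (a : A) : Prop := ¬(valid (o a) n k (best (o a) n (outs (o a) n)) ∧
  best (o a) n (outs (o a) n) ∈ outs (o a) n)

theorem o_symm (a : A) (u v : ℕ) : o a u v = o a v u := congrArg a Sym2.eq_swap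

theorem mem_outs {a : O} {n : ℕ} (q : List ℕ) (hl : q.length = 12) (hq : ∀ v ∈ q, v ≤ n) :
    run a n q ∈ outs a n := by
  have := mem_tup q hq
  rw [hl] at this
  exact List.mem_append_left _ (List.mem_map_of_mem this)

theorem run_eq (a : O) (n K k J s s' y A g r N h m : ℕ) :
    run a n [K, k, J, s, s', y, A, g, r, N, h, m] =
      look n (asg a n K (xb a n J y A g r N h m (tbd a k J s s' y))) := rfl

theorem core0 {k x ρ : ℕ} (hx : 1 ≤ x) (hρ : 5 ≤ ρ) (hn : μ.n ≤ x) (hk : 2 * ρ ≤ k) (hkn : k ≤ μ.n)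
    (hs : exp (1 + μ.p * x) * μ.n ≤ 2 ^ (ρ - 5) * (2 * x)) :
    E μ (fun a => ind (Bad μ.n k a)) ≤ x / (2 * x) ^ 4 := by
  refine le_trans (E_mono fun a => ind_mono ?_) (sparse hx hρ hs)
  intro hb h
  apply hb
  refine best_valid (c := look μ.n (asg (o a) μ.n (2 * ρ) [])) ?_ (asg_valid (o_symm a) h
    ((List.length_filter_le _ _).trans (by simpa using hn)) (by simp) (by simpa using hk)) hkn
  exact List.mem_append_right _ (List.mem_map.2 ⟨_, List.mem_range.2 (by omega), rfl⟩)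

theorem core {k k1 J s s' y e M A g r N h m x ρ : ℕ} {u t Γ D Λ c LB : ℝ}
    (hκ : Kp μ κ) (hN : 1 ≤ N) (hu : u ≤ N) (hν : κ * N ≤ 1 / 5) (hy : 0 < y) (hJ : J * y ≤ μ.n)
    (hD : κ * μ.n ≤ D) (hh : D ≤ exp (κ * (h * N : ℕ))) (h1 : 1 ≤ h)
    (sp : SP κ t Γ A g r N) (ht : t + m * ((r + 1) * (2 * N) : ℕ) ≤ (J * s' : ℕ))
    (hΓ : 15 ≤ Γ * exp (κ * (m * N : ℕ))) (hc : 0 ≤ c)
    (hacc : ∀ x x' z : ℝ, κ * h < x → x ≤ D → 0 ≤ x' → x ≤ Γ * exp z →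
      x' + z ≤ x + κ * (J * s' : ℕ) → Λ + c * √x' ≤ z + c * √x)
    (hL0 : 0 < LB) (hL : ∀ z, κ * h ≤ 15 * exp z → LB ≤ z)
    (hW1 : κ * (h + k1 * (m * ((r + 1) * (2 * N)) : ℕ)) ≤ LB * (k - k1 - 2 * ρ))
    (hW2 : D + c * √D - k1 * Λ ≤ LB * (k - k1 - 2 * ρ))
    (t1 : 2 * s ≤ (1 - μ.p) ^ (J * s') * M) (t2 : k1 * s + M ≤ y) (t3 : s' + e ≤ s) (t4 : u ≤ e)
    (t5 : μ.p * s * s ≤ 0.44 * e) (hx : 1 ≤ x) (hρ : 5 ≤ ρ)
    (hs : exp (1 + μ.p * x) * μ.n ≤ 2 ^ (ρ - 5) * (2 * x))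
    (hg : (J + 1) * h + J * y ≤ x + k1 * (J * s')) (hkn : k ≤ μ.n)
    (hq : ∀ v ∈ [2 * ρ, k1, J, s, s', y, A, g, r, N, h, m], v ≤ μ.n) :
    E μ (fun a => ind (Bad μ.n k a)) ≤ 8 * μ.n ^ 3 * exp (-u / 4) + x / (2 * x) ^ 4 := by
  have a1 := ((tbd_tp (μ := μ) t1 t2 t3 t4 t5).bind fun Ts F => xb_tp hκ hN hu hν hy hJ hD hh h1 sp
    ht hΓ hc hacc hL0 hL hW1 hW2).conseq (P' := fun _ => True)
    (δ' := 8 * μ.n ^ 3 * exp (-u / 4)) (Q' := fun Cs _ a => Sp (o a) μ.n x (2 * ρ) →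
      valid (o a) μ.n k (look μ.n (asg (o a) μ.n (2 * ρ) Cs))) ?_ (by positivity)
    fun η _ => ⟨trivial, fun a F _ h hs => asg_valid (o_symm a) hs (by omega)
      (fun C hC u hu v hv hne => (h.1 C hC u hu v hv hne).2) ?_⟩
  · refine le_trans (E_mono fun a => ?_) ((E_add _ _).trans_le
      (add_le_add a1.final (sparse hx hρ hs)))
    by_cases hb : Bad μ.n k a
    swap
    · rw [ind_neg hb]; exact add_nonneg (ind_nonneg _) (ind_nonneg _)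
    by_cases hs : Sp (o a) μ.n x (2 * ρ)
    swap
    · rw [ind_pos hb, ind_pos hs]; exact le_add_of_nonneg_left (ind_nonneg _)
    refine le_add_of_le_of_nonneg (ind_mono fun _ hv => hb (best_valid ?_ (hv hs) hkn))
      (ind_nonneg _)
    exact run_eq .. ▸ mem_outs _ rfl hq
  · simp only [List.mem_cons, List.not_mem_nil, or_false, forall_eq_or_imp, forall_eq] at hq
    obtain ⟨-, q1, q2, -, -, -, -, -, q3, q6, q4, q5⟩ := hq
    have b0 : (1 : ℝ) ≤ μ.n := by exact_mod_cast hN.trans q6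
    have b1 : (J : ℝ) * (k1 * 2) + (k1 * (h + m * (r + 3)) + μ.n * h) ≤
        μ.n * (μ.n * 2) + (μ.n * (μ.n + μ.n * (μ.n + 3)) + μ.n * μ.n) := by gcongr
    have b2 := mul_le_mul_of_nonneg_right (b1.trans (by nlinarith : _ ≤ 8 * (μ.n : ℝ) ^ 3))
      (exp_pos (-u / 4)).le
    linarith
  · generalize xb _ _ _ _ _ _ _ _ _ _ _ = Cs at h ⊢
    have b1 : LB * (2 * ρ + Cs.length) ≤ LB * k := by linarith [h.2.1]
    exact_mod_cast le_of_mul_le_mul_left b1 hL0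

end

end Pool.Agent.Lib.MP_1b5cbf_lc
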