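import Pool.Agent.Lib.MP_1b5cbf_lc.Phase

/-! Colouring the leftover vertices; validity of the output. -/

set_option autoImplicit false

namespace Pool.Agent.Lib.MP_1b5cbf_lc

open Finset Classical Real

noncomputable section

def Sp (a : O) (n x K : ℕ) : Prop := ∀ S : List ℕ, S.Nodup → (∀ v ∈ S, v < n) → S ≠ [] →
  S.length ≤ x → ∃ v ∈ S, S.countP (fun u => !(u == v) && a v u) < K

def Deg (a : O) (K : ℕ) (G : List ℕ) : List ℕ → Prop
  | [] => True
  | v :: B => v ∈ G ∧ v ∉ B ∧ (out G B).countP (fun u => !(u == v) && a v u) < K ∧ Deg a K G B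

variable {a : O} {n x K : ℕ} {G : List ℕ}

theorem Deg.nodup {B : List ℕ} (h : Deg a K G B) : B.Nodup ∧ B ⊆ G := by
  induction B with
  | nil => simp
  | cons v B ih => exact ⟨List.nodup_cons.2 ⟨h.2.1, (ih h.2.2.2).1⟩, by simp [h.1, (ih h.2.2.2).2]⟩

theorem peel_spec (hs : Sp a n x K) (hG : G.Nodup) (hn : ∀ v ∈ G, v < n) (hx : G.length ≤ x) :
    Deg a K G ((peel a K G)^[G.length] []) ∧ G ⊆ (peel a K G)^[G.length] [] := by
  have : ∀ i, Deg a K G ((peel a K G)^[i] []) ∧
      (out G ((peel a K G)^[i] []) = [] ∨ i ≤ ((peel a K G)^[i] []).length) := by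
    intro i
    induction i with
    | zero => simp [Deg]
    | succ i ih =>
      rw [Function.iterate_succ_apply']
      generalize (peel a K G)^[i] [] = St at ih
      unfold peel
      cases hf : List.find? _ _ with
      | none =>
        refine ⟨ih.1, Or.inl (by_contra fun h => ?_)⟩
        obtain ⟨v, hv, h⟩ := hs _ (nodup_out hG St) (fun v hv => hn v (mem_out.1 hv).1) h
          ((List.length_filter_le _ _).trans hx)
        exact List.find?_eq_none.1 hf v hv (decide_eq_true h)
      | some v =>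
        have h1 := List.mem_of_find?_eq_some hf
        have h2 := List.find?_some hf
        refine ⟨⟨(mem_out.1 h1).1, (mem_out.1 h1).2, of_decide_eq_true h2, ih.1⟩,
          Or.inr ?_⟩
        have := ih.2.resolve_left fun h => by simp [h] at h1
        simpa using this
  obtain ⟨h1, h2⟩ := this G.length
  generalize (peel a K G)^[G.length] [] = St at h1 h2
  refine ⟨h1, fun v hv => by_contra fun h => ?_⟩
  have h3 := out_step (G := []) hG h1.nodup.1 (fun v hv => (mem_out.1 hv).1) h1.nodup.2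
  have h4 : v ∈ out G St := mem_out.2 ⟨hv, h⟩
  have h5 := List.length_pos_of_mem h4
  rw [List.append_nil] at h3
  exact h2.elim (fun h => by simp [h] at h4) (by omega)

def CI (a : O) (K : ℕ) (col : List (ℕ × ℕ)) : Prop :=
  ∀ q ∈ col, q.2 < K ∧ ∀ q' ∈ col, q.1 ≠ q'.1 → a q.1 q'.1 → q.2 ≠ q'.2

theorem ins_spec (hsym : ∀ u v, a u v = a v u) (B : List ℕ) : ∀ col : List (ℕ × ℕ), Deg a K G B →
    CI a K col → (col.map Prod.fst).Nodup → (∀ q ∈ col, q.1 ∈ G ∧ q.1 ∉ B) →
    CI a K (B.foldl (ins a K) col) ∧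
      ∀ v, v ∈ B ∨ v ∈ col.map Prod.fst → v ∈ (B.foldl (ins a K) col).map Prod.fst := by
  induction B with
  | nil => exact fun col _ h _ _ => ⟨h, by simp⟩
  | cons v B ih =>
    intro col hD hc hn hm
    have hv : ∀ q ∈ col, q.1 ≠ v := fun q hq e => (hm q hq).2 (by simp [e])
    obtain ⟨c, hf⟩ : ∃ c, ((List.range K).find? fun c =>
        col.all fun q => !(q.2 == c) || !a v q.1) = some c := by
      rw [← Option.isSome_iff_exists, List.find?_isSome]
      by_contra h
      have h1 := len_le (Y := (col.filter fun q => a v q.1).map Prod.snd) List.nodup_range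
        (X := List.range K) fun c hc => by
          by_contra h'
          refine h ⟨c, hc, List.all_eq_true.2 fun q hq => ?_⟩
          by_contra h2
          simp only [Bool.or_eq_true, Bool.not_eq_eq_eq_not, Bool.not_true, beq_eq_false_iff_ne,
            not_or, not_not, Bool.not_eq_false] at h2
          exact h' (List.mem_map.2 ⟨q, List.mem_filter.2 ⟨hq, h2.2⟩, h2.1⟩)
      have h2 := len_le (Y := (out G B).filter fun u => !(u == v) && a v u)
        (hn.sublist ((List.filter_sublist (p := fun q => a v q.1)).map _)) fun u hu => by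
          obtain ⟨q, hq, rfl⟩ := List.mem_map.1 hu
          obtain ⟨h3, h4⟩ := List.mem_filter.1 hq
          exact List.mem_filter.2 ⟨mem_out.2 ⟨(hm q h3).1, fun h => (hm q h3).2 (by simp [h])⟩,
            by simp [hv q h3, h4]⟩
      have h3 := hD.2.2.1
      simp only [List.length_range, List.length_map, List.countP_eq_length_filter] at h1 h2 h3
      omega
    have h1 := List.mem_range.1 (List.mem_of_find?_eq_some hf)
    have h2 : ∀ q ∈ col, a v q.1 → q.2 ≠ c := fun q hq h => by
      have := List.find?_some hf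
      simpa [h] using List.all_eq_true.1 this q hq
    have e : ins a K col v = (v, c) :: col := by rw [ins, hf]; rfl
    obtain ⟨h3, h4⟩ := ih ((v, c) :: col) hD.2.2.2 (fun q hq => by
        rcases List.mem_cons.1 hq with rfl | hq
        · refine ⟨h1, fun q' hq' hne h => ?_⟩
          exact (h2 q' ((List.mem_cons.1 hq').resolve_left fun e => hne (by rw [e])) h).symm
        · refine ⟨(hc q hq).1, fun q' hq' hne h => ?_⟩
          rcases List.mem_cons.1 hq' with rfl | hq'
          exacts [h2 q hq (hsym _ _ ▸ h), (hc q hq).2 q' hq' hne h])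
      (List.nodup_cons.2 ⟨fun h => let ⟨q, hq, e⟩ := List.mem_map.1 h; hv q hq e, hn⟩)
      fun q hq => by
        rcases List.mem_cons.1 hq with rfl | hq
        exacts [⟨hD.1, hD.2.1⟩, ⟨(hm q hq).1, fun h => (hm q hq).2 (by simp [h])⟩]
    rw [List.foldl_cons, e]
    exact ⟨h3, fun u hu => h4 u (by simp only [List.mem_cons, List.map_cons] at hu ⊢; tauto)⟩

theorem valid_iff {k : ℕ} {c : List ℕ} : valid a n k c ↔ ∀ u < n, c.getD u 0 < k ∧
    ∀ v < n, u ≠ v → a u v → c.getD u 0 ≠ c.getD v 0 := by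
  simp only [valid, List.all_eq_true, List.mem_range, Bool.and_eq_true, decide_eq_true_eq,
    Bool.or_eq_true, beq_iff_eq, Bool.not_eq_eq_eq_not, Bool.not_true, beq_eq_false_iff_ne]
  refine forall₂_congr fun u _ => and_congr_right fun _ => forall₂_congr fun v _ => ?_
  cases a u v <;> simp [or_iff_not_imp_left]

theorem asg_valid {Cs : List (List ℕ)} {k : ℕ} (hsym : ∀ u v, a u v = a v u) (hs : Sp a n x K)
    (hx : (out (List.range n) Cs.flatten).length ≤ x)
    (hC : ∀ C ∈ Cs, ∀ u ∈ C, ∀ v ∈ C, u ≠ v → a u v = false) (hk : K + Cs.length ≤ k) :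
    valid a n k (look n (asg a n K Cs)) := by
  obtain ⟨h1, h2⟩ := peel_spec hs (nodup_out List.nodup_range _)
    (fun v hv => List.mem_range.1 (mem_out.1 hv).1) hx
  obtain ⟨h3, h4⟩ := ins_spec hsym _ [] h1 (by simp [CI]) (by simp) (by simp)
  change CI a K (gcol a K _) at h3
  have hz : ∀ q ∈ (Cs.zipIdx K).flatMap fun q => q.1.map fun v => (v, q.2),
      K ≤ q.2 ∧ ∃ C, Cs[q.2 - K]? = some C ∧ q.1 ∈ C := by
    simp only [List.mem_flatMap, List.mem_map, List.mem_zipIdx_iff_le_and_getElem?_sub]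
    rintro _ ⟨z, hz, v, hv, rfl⟩
    exact ⟨hz.1, z.1, hz.2, hv⟩
  have h5 : CI a k (asg a n K Cs) := by
    intro q hq
    rcases List.mem_append.1 hq with hq | hq
    · refine ⟨(h3 q hq).1.trans_le (by omega), fun q' hq' => ?_⟩
      rcases List.mem_append.1 hq' with hq' | hq'
      · exact (h3 q hq).2 q' hq'
      · exact fun _ _ => ((h3 q hq).1.trans_le (hz q' hq').1).ne
    · obtain ⟨b1, C, b2, b3⟩ := hz q hq
      obtain ⟨b4, -⟩ := List.getElem?_eq_some_iff.1 b2
      refine ⟨by omega, fun q' hq' hne h e => ?_⟩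
      rcases List.mem_append.1 hq' with hq' | hq'
      · have := (h3 q' hq').1; omega
      · obtain ⟨-, C', c2, c3⟩ := hz q' hq'
        rw [← e, b2, Option.some.injEq] at c2
        simp [hC C (List.mem_of_getElem? b2) _ b3 _ (c2 ▸ c3) hne] at h
  have h6 : ∀ u < n, ∃ q ∈ asg a n K Cs, q.1 = u ∧ (look n (asg a n K Cs)).getD u 0 = q.2 := by
    intro u hu
    obtain ⟨q, hq⟩ : ∃ q, ((asg a n K Cs).find? fun q => q.1 == u) = some q := by
      rw [← Option.isSome_iff_exists, List.find?_isSome]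
      by_cases h : u ∈ Cs.flatten
      · obtain ⟨C, hC, h⟩ := List.mem_flatten.1 h
        obtain ⟨i, hi⟩ := List.getElem?_of_mem hC
        refine ⟨(u, i + K), List.mem_append_right _ ?_, by simp⟩
        simp only [List.mem_flatMap, List.mem_map, List.mem_zipIdx_iff_le_and_getElem?_sub]
        exact ⟨(C, i + K), ⟨by simp, by simpa using hi⟩, u, h, rfl⟩
      · obtain ⟨q, hq, e⟩ := List.mem_map.1 (h4 u (Or.inl (h2 (mem_out.2 ⟨List.mem_range.2 hu, h⟩))))
        exact ⟨q, List.mem_append_left _ hq, by simpa using e⟩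
    exact ⟨q, List.mem_of_find?_eq_some hq, by simpa using List.find?_some hq, by simp [look, hu, hq]⟩
  refine valid_iff.2 fun u hu => ?_
  obtain ⟨q, hq, rfl, e⟩ := h6 u hu
  refine ⟨e ▸ (h5 q hq).1, fun v hv => ?_⟩
  obtain ⟨q', hq', rfl, e'⟩ := h6 v hv
  rw [e, e']
  exact (h5 q hq).2 q' hq'

theorem best_valid {k : ℕ} {c : List ℕ} {l : List (List ℕ)} (hc : c ∈ l) (h : valid a n k c)
    (hk : k ≤ n) : valid a n k (best a n l) ∧ best a n l ∈ l := by
  obtain ⟨k0, h0⟩ : ∃ k0, ((List.range (n + 1)).find? fun k => l.any (valid a n k)) = some k0 := by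
    rw [← Option.isSome_iff_exists, List.find?_isSome]
    exact ⟨k, List.mem_range.2 (by omega), List.any_eq_true.2 ⟨c, hc, h⟩⟩
  obtain ⟨h1, -, h2⟩ := List.find?_range_eq_some.1 h0
  have h3 : k0 ≤ k := by
    by_contra h3
    have := h2 k (by omega)
    simp [List.any_eq_true.2 ⟨c, hc, h⟩] at this
  obtain ⟨c', h4⟩ : ∃ c', l.find? (valid a n k0) = some c' := by
    rw [← Option.isSome_iff_exists, List.find?_isSome]; exact List.any_eq_true.1 h1
  rw [best, h0, Option.getD_some, h4, Option.getD_some]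
  refine ⟨valid_iff.2 fun u hu => ?_, List.mem_of_find?_eq_some h4⟩
  have := valid_iff.1 (List.find?_some h4) u hu
  exact ⟨this.1.trans_le h3, this.2⟩

theorem mem_tup {n : ℕ} (q : List ℕ) (h : ∀ v ∈ q, v ≤ n) : q ∈ tup n q.length := by
  induction q with
  | nil => simp [tup]
  | cons v q ih =>
    simp only [List.length_cons, tup, List.mem_flatMap, List.mem_map, List.mem_range]
    exact ⟨q, ih fun w hw => h w (by simp [hw]), v, Nat.lt_succ_of_le (h v (by simp)), rfl⟩

theorem card_half (S : Finset ℕ) (r : ℕ → ℕ → Bool) (hr : ∀ u v, r u v → r v u) :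
    #((S ×ˢ S).filter fun q => q.1 ≠ q.2 ∧ r q.1 q.2) =
      2 * #((S ×ˢ S).filter fun q => q.1 < q.2 ∧ r q.1 q.2) := by
  rw [← card_filter_add_card_filter_not (fun q : ℕ × ℕ => q.1 < q.2), two_mul, filter_filter,
    filter_filter]
  congr 1
  · exact congrArg card (filter_congr fun q _ => ⟨fun h => ⟨h.2, h.1.2⟩, fun h => ⟨⟨h.1.ne, h.2⟩, h.1⟩⟩)
  · refine card_nbij' Prod.swap Prod.swap (fun q hq => ?_) (fun q hq => ?_) (fun _ _ => rfl)
      fun _ _ => rfl <;> simp only [coe_filter, mem_product, Set.mem_ofPred_eq, Prod.fst_swap,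
        Prod.snd_swap] at hq ⊢
    · exact ⟨hq.1.symm, by omega, hr _ _ hq.2.1.2⟩
    · exact ⟨hq.1.symm, ⟨by omega, hr _ _ hq.2.2⟩, by omega⟩

theorem sparse {μ : Pm} {x ρ : ℕ} (hx : 1 ≤ x) (hρ : 5 ≤ ρ)
    (h : exp (1 + μ.p * x) * μ.n ≤ 2 ^ (ρ - 5) * (2 * x)) :
    E μ (fun a => ind (¬Sp (o a) μ.n x (2 * ρ))) ≤ x / (2 * x) ^ 4 := by
  have h0 := μ.h0
  have hx' : (1 : ℝ) ≤ x := by exact_mod_cast hx
  let I : Finset ℕ → Finset (ℕ × ℕ) := fun S => (S ×ˢ S).filter fun q => q.1 < q.2
  have a1 : ∀ a : A, ind (¬Sp (o a) μ.n x (2 * ρ)) ≤ ∑ j ∈ Icc 1 x,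
      ∑ S ∈ powersetCard j (range μ.n), ((2 * x / j : ℝ) ^ (ρ * j))⁻¹ *
        ∏ q ∈ I S, if a s(q.1, q.2) then (2 * x / j : ℝ) else 1 := by
    intro a
    have nn : ∀ (j : ℕ) S, 0 ≤ ((2 * x / j : ℝ) ^ (ρ * j))⁻¹ *
        ∏ q ∈ I S, if a s(q.1, q.2) then (2 * x / j : ℝ) else 1 := fun j S =>
      mul_nonneg (by positivity) (prod_nonneg fun _ _ => by split_ifs <;> positivity)
    by_cases hs : Sp (o a) μ.n x (2 * ρ)
    · rw [ind_neg (not_not.2 hs)]
      exact sum_nonneg fun j _ => sum_nonneg fun S _ => nn j S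
    rw [ind_pos hs]
    simp only [Sp, not_forall, not_exists, not_and, not_lt] at hs
    obtain ⟨S, h1, h2, h3, h4, h5⟩ := hs
    have hj : 1 ≤ S.length := List.length_pos_iff.2 h3
    refine le_trans ?_ (single_le_sum (fun j _ => sum_nonneg fun S _ => nn j S)
      (mem_Icc.2 ⟨hj, h4⟩))
    refine le_trans ?_ (single_le_sum (fun S _ => nn _ S) (a := S.toFinset) (mem_powersetCard.2
      ⟨fun v hv => mem_range.2 (h2 v (List.mem_toFinset.1 hv)), List.toFinset_card_of_nodup h1⟩))
    have hj' : (0 : ℝ) < S.length := by exact_mod_cast hj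
    have hj2 : (S.length : ℝ) ≤ x := by exact_mod_cast h4
    rw [prod_ite, prod_const, prod_const_one, mul_one, ← div_eq_inv_mul, one_le_div (by positivity)]
    refine pow_le_pow_right₀ ((one_le_div hj').2 (by linarith)) ?_
    have b1 := card_half S.toFinset (fun u v => a s(u, v)) fun u v h => Sym2.eq_swap ▸ h
    rw [card_filter, sum_product] at b1
    have b2 := card_nsmul_le_sum S.toFinset (fun v => ∑ u ∈ S.toFinset,
      if v ≠ u ∧ a s(v, u) then 1 else 0) (2 * ρ) fun v hv => by
        refine (h5 v (List.mem_toFinset.1 hv)).trans (le_of_eq ?_)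
        rw [← card_filter, List.countP_eq_length_filter, ← List.toFinset_card_of_nodup
          (h1.filter _), List.toFinset_filter]
        exact congrArg card (filter_congr fun u _ => by
          simp only [o, Bool.and_eq_true, Bool.not_eq_eq_eq_not, Bool.not_true,
            beq_eq_false_iff_ne, ne_comm])
    rw [List.toFinset_card_of_nodup h1, smul_eq_mul] at b2
    simp only [I, filter_filter]
    have b3 := b2.trans b1.le
    nlinarith
  refine (E_mono a1).trans ?_
  rw [E_sum]
  refine (sum_le_card_nsmul _ _ (1 / (2 * x : ℝ) ^ 4) fun j hj => ?_).trans (le_of_eq (by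
    simp [div_eq_mul_inv]))
  obtain ⟨hj1, hj2⟩ := mem_Icc.1 hj
  have hj' : (0 : ℝ) < j := by exact_mod_cast hj1
  have hj3 : (j : ℝ) ≤ x := by exact_mod_cast hj2
  have ht : (2 : ℝ) ≤ 2 * x / j := (le_div_iff₀ hj').2 (by linarith)
  rw [E_sum]
  refine (sum_le_card_nsmul _ _ (((2 * x / j : ℝ) ^ (ρ * j))⁻¹ * exp (μ.p * x) ^ j)
    fun S hS => ?_).trans ?_
  · rw [E_mul, E_prod (I S) (fun q => s(q.1, q.2)) ?_ fun _ b => if b then (2 * x / j : ℝ) else 1]
    · refine mul_le_mul_of_nonneg_left ((prod_le_prod (g := fun _ => exp (μ.p * (2 * x / j)))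
        (fun q _ => E_nonneg fun _ => by split_ifs <;> positivity) fun q _ => ?_).trans ?_)
        (by positivity)
      · rw [E_coord _ fun b => if b then (2 * x / j : ℝ) else 1]
        have : 0 ≤ μ.p * (2 * x / j) := by positivity
        simp only [if_true, Bool.false_eq_true, if_false]
        split_ifs <;> linarith [add_one_le_exp (μ.p * (2 * x / j))]
      · have b1 := card_half S (fun _ _ => true) fun _ _ _ => rfl
        have b2 := card_filter_le (S ×ˢ S) fun q => q.1 ≠ q.2 ∧ true = true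
        rw [b1, card_product, (mem_powersetCard.1 hS).2] at b2
        simp only [and_true] at b2
        have b3 : 2 * (#(I S) : ℝ) ≤ j * j := by exact_mod_cast b2
        rw [prod_const, ← exp_nat_mul, ← exp_nat_mul, exp_le_exp, ← mul_div_assoc, ← mul_div_assoc,
          div_le_iff₀ hj']
        nlinarith [mul_le_mul_of_nonneg_left b3 (by positivity : 0 ≤ μ.p * x)]
    · intro q hq q' hq' e
      simp only [I, coe_filter, Set.mem_ofPred_eq] at hq hq'
      rcases Sym2.eq_iff.1 e with e | e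
      exacts [Prod.ext e.1 e.2, by omega]
  · set t : ℝ := 2 * x / j
    have b1 : (μ.n.choose j : ℝ) ≤ (μ.n * exp 1 / j) ^ j := by
      refine (Nat.choose_le_pow_div j μ.n).trans ?_
      have := pow_div_factorial_le_exp (j : ℝ) hj'.le j
      rw [div_le_iff₀ (by positivity)] at this
      rw [div_pow, mul_pow, ← exp_nat_mul, mul_one, div_le_div_iff₀ (by positivity) (by positivity),
        mul_assoc]
      gcongr
    have b2 : μ.n * exp 1 / j * exp (μ.p * x) ≤ t ^ (ρ - 4) := by
      rw [show ρ - 4 = ρ - 5 + 1 by omega, pow_succ, div_mul_eq_mul_div, mul_assoc, ← exp_add]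
      refine le_trans (div_le_div_of_nonneg_right (mul_comm (μ.n : ℝ) _ ▸ h) hj'.le) ?_
      rw [mul_div_assoc]
      gcongr
    have b3 : 2 * x ≤ t ^ j := by
      obtain ⟨i, rfl⟩ : ∃ i, j = i + 1 := ⟨j - 1, by omega⟩
      have c1 : ((i + 1 : ℕ) : ℝ) ≤ t ^ i :=
        le_trans (by exact_mod_cast Nat.lt_two_pow_self) (pow_le_pow_left₀ zero_le_two ht i)
      rw [pow_succ]
      exact le_trans (le_of_eq (mul_div_cancel₀ _ hj'.ne').symm) (by gcongr)
    rw [card_powersetCard, card_range, nsmul_eq_mul, mul_left_comm, ← div_eq_inv_mul,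
      div_le_iff₀ (by positivity)]
    calc _ ≤ (μ.n * exp 1 / j) ^ j * exp (μ.p * x) ^ j := by gcongr
      _ ≤ (t ^ (ρ - 4)) ^ j := by rw [← mul_pow]; gcongr
      _ ≤ _ := by
        rw [show ρ * j = j * 4 + (ρ - 4) * j by zify [show 4 ≤ ρ by omega]; ring, pow_add, pow_mul,
          pow_mul, ← mul_assoc]
        refine le_mul_of_one_le_left (by positivity) ?_
        rw [one_div_mul_eq_div, one_le_div (by positivity)]
        gcongr

end

end Pool.Agent.Lib.MP_1b5cbf_lc
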