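import Pool.Agent.Lib.MP_1b5cbf_lc.Round

/-! Building the seeds of the colour classes layer by layer. -/

set_option autoImplicit false

namespace Pool.Agent.Lib.MP_1b5cbf_lc

open Finset Classical Real

noncomputable section

variable {μ : Pm}

theorem tb_tp {F : Fr} {Q T : List ℕ} {s s' e M : ℕ} {u : ℝ} (hQ : Q.Nodup) (hT : T.Nodup)
    (hd : ∀ c ∈ T, c ∉ Q) (h1 : 2 * s ≤ (1 - μ.p) ^ T.length * M) (hM : M ≤ Q.length)
    (he : s' + e ≤ s) (hu : u ≤ e) (hc : μ.p * s * s ≤ 0.44 * e) :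
    TP μ (2 * exp (-u / 4)) F (fun η => OK F η Q T ∧ OK F η Q Q ∧ Ind F η T)
      (fun a => ((sel (o a) s Q T).2, (gst (o a) (T.length + s') (sel (o a) s Q T).2 T).2))
      fun x F' a => x.1 ⊆ Q ∧ x.1.length = s ∧ T ⊆ x.2 ∧ x.2.Nodup ∧ (∀ c ∈ x.2, c ∈ T ∨ c ∈ x.1) ∧
        x.2.length = T.length + s' ∧ Ind F' a x.2 ∧ ∀ u v, ¬(u ∈ Q ∧ v ∈ T) → ¬(v ∈ Q ∧ u ∈ T) →
          ¬(u ∈ x.1 ∧ v ∈ x.1) → s(u, v) ∈ F → s(u, v) ∈ F' := by
  have hu' : u ≤ s := hu.trans (Nat.cast_le.2 (by omega))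
  refine (((sstage (F0 := F) (θ := exp (-(1 - μ.p) ^ T.length / 2)) hQ hd (exp_pos (-u / 4)).le
    (exp_pos _).le (by linarith [add_one_le_exp (-(1 - μ.p) ^ T.length / 2)]) (num1 hu' h1)
    hM).conseq (Q' := fun L F1 a => L.Nodup ∧ L.length = s ∧
      (∀ l ∈ L, l ∈ Q ∧ ∀ c ∈ T, no F1 a s(l, c)) ∧ Fm F F1 (· ∈ Q) (· ∈ T) ∧ OK F1 a L L ∧
      Ind F1 a T) le_rfl (exp_pos _).le fun η h => ⟨h.1, fun a F1 he h' => ⟨h'.1, h'.2.1,
      h'.2.2.1, h'.2.2.2, fun l hl v hv hne => he.ok (h.2.1 l (h'.2.2.1 l hl).1 v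
        (h'.2.2.1 v hv).1 hne) (h'.2.2.2.keep (fun h => hd v h.2 (h'.2.2.1 v hv).1)
          fun h => hd l h.2 (h'.2.2.1 l hl).1), h.2.2.ext he⟩⟩).bind
    (δ' := exp (-u / 4)) (g := fun L a => (L, (gst (o a) (T.length + s') L T).2))
    fun L F1 => TP.of_pre (exp_pos _).le fun η0 hp => ?_).le (le_of_eq (by ring))
  refine TP.map (fun x : List ℕ × List ℕ => (L, x.2)) ((gstage (K := (· ∈ T)) (G := True)
    (β := s') (M := s) hp.1 (fun c hc h => hd c hc (hp.2.2.1 c h).1) (exp_pos _).le ?_ ?_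
    (fun _ => le_rfl) fun _ => num2 (by omega) he hu hc).conseq le_rfl
    (exp_pos _).le fun η h => ⟨?_, fun a F' he h' => ?_⟩)
  · linarith [pow_le_one₀ (n := s') (sub_nonneg.2 μ.h1) (sub_le_self 1 μ.h0)]
  · rw [List.filter_eq_nil_iff.2 (by simp)]; simp
  · exact ⟨List.suffix_rfl, List.suffix_rfl, hT, fun c => Or.inl,
      fun l hl c hc _ => Or.inr ((h.2.2.1 l hl).2 c hc).2, h.2.2.2.2.1,
      fun l hl c hc => ((h.2.2.1 l hl).2 c hc).1, h.2.2.2.2.2, Fm.refl⟩
  · generalize gst (o a) (T.length + s') L T = x at h' ⊢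
    obtain ⟨g1, g2, g3⟩ := h'
    have hm : ∀ c ∈ x.2, c ∈ T ∨ c ∈ L := fun c hc => (g1.mem c hc).imp_right And.left
    refine ⟨fun l hl => (h.2.2.1 l hl).1, h.2.1, g1.pre.subset, g1.nd, hm,
      le_antisymm (by simpa using g2) (g3 trivial h.2.1.ge).1, g1.ind,
      fun u v a1 a2 a3 a4 => g1.fm.keep (fun h' => ?_) (fun h' => ?_) (h.2.2.2.1.keep a1 a2 a4)⟩
    · exact (hm v h'.2).elim (fun h1 => a1 ⟨(h.2.2.1 u h'.1.1).1, h1⟩) fun h1 => a3 ⟨h'.1.1, h1⟩
    · exact (hm u h'.2).elim (fun h1 => a2 ⟨(h.2.2.1 v h'.1.1).1, h1⟩) fun h1 => a3 ⟨h1, h'.1.1⟩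

structure II (k s s' y j : ℕ) (l : List (List ℕ)) (x : List ℕ × List (List ℕ)) (F : Fr) (a : A) :
    Prop where
  len : x.2.length + l.length = k
  lg : x.1.length ≤ x.2.length * s
  gq : ∀ v ∈ x.1, v < (j + 1) * y
  nd : (x.2.flatten ++ l.flatten).Nodup
  dn : ∀ T ∈ x.2, T.length = (j + 1) * s' ∧ Ind F a T ∧ ∀ v ∈ T, v < j * y ∨ v ∈ x.1
  td : ∀ T ∈ l, T.length = j * s' ∧ Ind F a T ∧ ∀ v ∈ T, v < j * y
  f1 : ∀ u v, u ≠ v → (j + 1) * y ≤ u → s(u, v) ∈ F
  f2 : ∀ w, j * y ≤ w → w ∉ x.1 → ∀ v, v ≠ w → j * y ≤ v ∨ v ∈ l.flatten → s(w, v) ∈ F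
  f3 : ∀ u ∈ x.2.flatten ++ l.flatten, ∀ v ∈ x.2.flatten ++ l.flatten, u ≠ v → u / y = v / y →
    ok F a s(u, v)

theorem mem_out {X G : List ℕ} {v : ℕ} : v ∈ out X G ↔ v ∈ X ∧ v ∉ G := by simp [out]

theorem len_out {X : List ℕ} (h : X.Nodup) (G : List ℕ) :
    X.length ≤ (out X G).length + G.length := by
  rw [← List.length_append]
  exact len_le h fun c hc => by by_cases h : c ∈ G <;> simp [mem_out, hc, h]

theorem tst_tp {F : Fr} {k J s s' y j e M : ℕ} {u : ℝ} {T : List ℕ} {l : List (List ℕ)}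
    {x : List ℕ × List (List ℕ)} (hj : j < J) (h1 : 2 * s ≤ (1 - μ.p) ^ (J * s') * M)
    (hM : k * s + M ≤ y) (he : s' + e ≤ s) (hu : u ≤ e) (hc : μ.p * s * s ≤ 0.44 * e) :
    TP μ (2 * exp (-u / 4)) F (II k s s' y j (T :: l) x F)
      (fun a => tst (o a) s s' (List.range' (j * y) y) x T) (II k s s' y j l) := by
  obtain ⟨G, D⟩ := x
  refine TP.of_pre (by positivity) fun η0 hp => ?_
  set Q := out (List.range' (j * y) y) G
  have hQ : ∀ v, v ∈ Q ↔ (j * y ≤ v ∧ v < (j + 1) * y) ∧ v ∉ G := by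
    simp [Q, mem_out, List.mem_range'_1, add_mul]
  have hT := hp.td T (by simp)
  have nd := hp.nd
  simp only [List.flatten_cons, List.nodup_append, List.mem_append] at nd
  refine TP.map (fun z : List ℕ × List ℕ => (z.1 ++ G, z.2 :: D)) ((tb_tp (M := M) (Q := Q)
    ((List.nodup_range' (s := j * y) (n := y)).filter _) nd.2.1.1 (fun c hc h => ?_) (h1.trans ?_) ?_ he hu hc).conseq
    le_rfl (by positivity) fun η h => ⟨⟨fun w hw v hv hne => Or.inl (h.f2 w ((hQ w).1 hw).1.1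
      ((hQ w).1 hw).2 v hne.symm (by simp [hv])), fun w hw v hv hne => Or.inl (h.f2 w
      ((hQ w).1 hw).1.1 ((hQ w).1 hw).2 v hne.symm (Or.inl ((hQ v).1 hv).1.1)),
      (h.td T (by simp)).2.1⟩, fun a F' he h' => ?_⟩)
  · exact absurd ((hQ c).1 h).1.1 (not_le.2 (hT.2.2 c hc))
  · gcongr ?_ * _
    exact pow_le_pow_of_le_one (sub_nonneg.2 μ.h1) (sub_le_self 1 μ.h0)
      (hT.1 ▸ Nat.mul_le_mul_right _ hj.le)
  · have a1 : _ ≤ Q.length + _ := len_out (List.nodup_range' (s := j * y) (n := y)) G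
    have a2 := hp.lg
    have a3 : D.length * s ≤ k * s := Nat.mul_le_mul_right _ (by have := hp.len; dsimp at this; omega)
    simp only [List.length_range'] at a1 a2
    omega
  generalize (sel (o a) s Q T).2 = L at h' ⊢
  generalize (gst (o a) (T.length + s') L T).2 = T' at h' ⊢
  obtain ⟨b1, b2, b3, b4, b5, b6, b7, b8⟩ := h'
  dsimp only at *
  have hL : ∀ v ∈ L, (j * y ≤ v ∧ v < (j + 1) * y) ∧ v ∉ G := fun v hv => (hQ v).1 (b1 hv)
  have hTl := hT.2.2
  have hD : ∀ v ∈ D.flatten, v < j * y ∨ v ∈ G := fun v hv =>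
    let ⟨S, hS, hv⟩ := List.mem_flatten.1 hv; (h.dn S hS).2.2 v hv
  have hl : ∀ v ∈ l.flatten, v < j * y := fun v hv =>
    let ⟨S, hS, hv⟩ := List.mem_flatten.1 hv; (h.td S (by simp [hS])).2.2 v hv
  have old : ∀ v, v ∈ D.flatten ∨ v ∈ T ∨ v ∈ l.flatten → v ∉ Q := fun v hv hq => by
    have := (hQ v).1 hq
    rcases hv with hv | hv | hv
    · exact (hD v hv).elim (by omega) this.2
    · have := hTl v hv; omega
    · have := hl v hv; omega
  refine ⟨?_, ?_, ?_, ?_, ?_, fun S hS => ?_, fun u v hne hu => ?_, fun w hw hw' v hne hv => ?_,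
    ?_⟩
  · have := h.len; simp only [List.length_cons] at this ⊢; omega
  · have := h.lg; simp only [List.length_cons, List.length_append, add_mul] at this ⊢; omega
  · intro v hv
    exact (List.mem_append.1 hv).elim (fun h => (hL v h).1.2) (h.gq v)
  · simp only [List.flatten_cons, List.nodup_append, List.mem_append]
    refine ⟨⟨b4, nd.1, fun u hu v hv e => ?_⟩, nd.2.1.2.1, fun u hu v hv e => ?_⟩
    · subst e
      exact (b5 u hu).elim (fun h => nd.2.2 u hv u (Or.inl h) rfl) fun h => old u (Or.inl hv) (b1 h)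
    · subst e
      rcases hu with hu | hu
      · exact (b5 u hu).elim (fun h => nd.2.1.2.2 u h u hv rfl)
          fun h => old u (Or.inr (Or.inr hv)) (b1 h)
      · exact nd.2.2 u hu u (Or.inr hv) rfl
  · intro S hS
    rcases List.mem_cons.1 hS with rfl | hS
    · exact ⟨by rw [b6, hT.1]; ring, b7, fun v hv => (b5 v hv).imp (hTl v) fun h => by simp [h]⟩
    · obtain ⟨c1, c2, c3⟩ := h.dn S hS
      exact ⟨c1, c2.ext he, fun v hv => (c3 v hv).imp_right fun h => by simp [h]⟩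
  · obtain ⟨c1, c2, c3⟩ := h.td S (by simp [hS])
    exact ⟨c1, c2.ext he, c3⟩
  · have : u ∉ Q := fun h => absurd ((hQ u).1 h).1.2 (not_lt.2 hu)
    refine b8 u v (fun h => this h.1) (fun h => ?_) (fun h => this (b1 h.1)) (h.f1 u v hne hu)
    have := hTl u h.2
    rw [add_mul] at hu; omega
  · simp only [List.mem_append, not_or] at hw'
    refine b8 w v (fun h => ?_) (fun h => absurd (hTl w h.2) (not_lt.2 hw)) (fun h => hw'.1 h.1)
      (h.f2 w hw hw'.2 v hne (hv.imp_right fun h => by simp [h]))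
    exact hv.elim (fun h' => absurd (hTl v h.2) (not_lt.2 h')) fun h' => nd.2.1.2.2 v h.2 v h' rfl
  · have key : ∀ u ∈ L, ∀ v, v ∈ D.flatten ∨ v ∈ l.flatten → u / y = v / y → ok F' a s(u, v) := by
      intro u hu v hv e
      have c1 := hL u hu
      have c2 : v ∉ Q := old v (hv.imp_right Or.inr)
      have c3 : j * y ≤ v := by
        have hy : 0 < y := Nat.pos_of_ne_zero fun h => by simp [h] at c1
        exact (Nat.le_div_iff_mul_le hy).1 (e ▸ (Nat.le_div_iff_mul_le hy).2 c1.1.1)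
      exact Or.inl (b8 u v (fun h => absurd (hTl v h.2) (not_lt.2 c3)) (fun h => c2 h.1)
        (fun h => c2 (b1 h.2)) (h.f2 u c1.1.1 c1.2 v (fun e => c2 (e ▸ b1 hu)) (Or.inl c3)))
    have key2 : ∀ u v, u ∈ D.flatten ∨ u ∈ T ∨ u ∈ l.flatten →
        v ∈ D.flatten ∨ v ∈ T ∨ v ∈ l.flatten → u ≠ v → u / y = v / y → ok F' a s(u, v) :=
      fun u v hu hv hne e => he.ok (h.f3 u (by simpa using hu) v (by simpa using hv) hne e)
        (b8 u v (fun h => old u hu h.1) (fun h => old v hv h.1) fun h => old u hu (b1 h.1))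
    intro u hu v hv hne e
    simp only [List.flatten_cons, List.mem_append, or_assoc] at hu hv
    rcases hu with hu | hu <;> rcases hv with hv | hv
    · exact Or.inr (b7 u hu v hv hne).2
    · exact (b5 u hu).elim (fun h => key2 u v (by simp [h]) (hv.imp_right Or.inr) hne e)
        fun h => key u h v hv e
    · exact (b5 v hv).elim (fun h => key2 u v (hu.imp_right Or.inr) (by simp [h]) hne e)
        fun h => (key v h u hu e.symm).symm
    · exact key2 u v (hu.imp_right Or.inr) (hv.imp_right Or.inr) hne e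

structure LI (k s' y j : ℕ) (Ts : List (List ℕ)) (F : Fr) (a : A) : Prop where
  len : Ts.length = k
  nd : Ts.flatten.Nodup
  td : ∀ T ∈ Ts, T.length = j * s' ∧ Ind F a T ∧ ∀ v ∈ T, v < j * y
  f1 : ∀ u v, u ≠ v → j * y ≤ u → s(u, v) ∈ F
  f3 : ∀ u ∈ Ts.flatten, ∀ v ∈ Ts.flatten, u ≠ v → u / y = v / y → ok F a s(u, v)

theorem tbd_tp {k J s s' y e M : ℕ} {u : ℝ} (h1 : 2 * s ≤ (1 - μ.p) ^ (J * s') * M)
    (hM : k * s + M ≤ y) (he : s' + e ≤ s) (hu : u ≤ e) (hc : μ.p * s * s ≤ 0.44 * e) :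
    TP μ (J * (k * (2 * exp (-u / 4)))) Set.univ (fun _ => True)
      (fun a => tbd (o a) k J s s' y) (LI k s' y J) := by
  have := TP.foldl (μ := μ) (f := fun a => lay (o a) s s' y) (δ := k * (2 * exp (-u / 4)))
    (by positivity) (List.range J) (I := fun l => LI k s' y (J - l.length))
    (fun Ts F η a h he => ⟨h.len, h.nd, fun T hT => ⟨(h.td T hT).1, (h.td T hT).2.1.ext he,
      (h.td T hT).2.2⟩, h.f1, fun u hu v hv hne e => he.ok (h.f3 u hu v hv hne e) id⟩)
    (fun j l hl Ts F => ?_) (List.replicate k []) Set.univ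
  · simp only [List.length_range, Nat.sub_self, List.length_nil, Nat.sub_zero] at this
    exact this.conseq le_rfl (by positivity) fun η _ => ⟨⟨by simp, by simp, by simp [Ind],
      by simp, by simp⟩, fun _ _ _ h => h⟩
  have hj : j + (l.length + 1) = J := by
    obtain ⟨t, ht⟩ := hl
    have h1 := congrArg List.length ht
    have h2 := congrArg (·[t.length]?) ht
    simp only [List.length_append, List.length_cons, List.length_range] at h1
    simp only [List.getElem?_append_right le_rfl, Nat.sub_self, List.getElem?_cons_zero] at h2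
    rw [List.getElem?_range (by omega)] at h2
    simp only [Option.some.injEq] at h2
    omega
  rw [show J - (j :: l).length = j by simp; omega, show J - l.length = j + 1 by omega]
  refine TP.of_pre (by positivity) fun η0 hp => ?_
  refine TP.map Prod.snd ((TP.foldl (f := fun a => tst (o a) s s' (List.range' (j * y) y))
    (by positivity) Ts (I := II k s s' y j) (fun x F η a h he => ⟨h.len, h.lg, h.gq, h.nd,
      fun T hT => ⟨(h.dn T hT).1, (h.dn T hT).2.1.ext he, (h.dn T hT).2.2⟩, by simp, h.f1, h.f2,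
      fun u hu v hv hne e => he.ok (h.f3 u hu v hv hne e) id⟩)
    (fun T l _ x F => tst_tp (by omega) h1 hM he hu hc) ([], []) F).conseq (by rw [hp.len])
    (by positivity) fun η h => ⟨⟨by simpa using h.len, by simp, by simp, by simpa using h.nd,
      by simp, h.td, fun u v hne hu => h.f1 u v hne (le_trans (by rw [add_mul]; omega) hu),
      fun w hw _ v hne _ => h.f1 w v hne.symm hw, by simpa using h.f3⟩, fun a F' _ h' =>
      ⟨by simpa using h'.len, by simpa using h'.nd, fun T hT => ⟨(h'.dn T hT).1, (h'.dn T hT).2.1,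
        fun v hv => ((h'.dn T hT).2.2 v hv).elim (fun h => h.trans_le (by rw [add_mul]; omega))
          (h'.gq v)⟩, h'.f1, by simpa using h'.f3⟩⟩)

end

end Pool.Agent.Lib.MP_1b5cbf_lc
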