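import Pool.Agent.Lib.MP_1b5cbf_lc.Choice

/-! The main theorem. -/

set_option autoImplicit false

namespace Pool.Agent.Lib.MP_1b5cbf_lc

open Finset Classical Real Filter Topology

noncomputable section

theorem len_outs {a : O} {n : ℕ} {c : List ℕ} (h : c ∈ outs a n) : c.length = n := by
  rcases List.mem_append.1 h with h | h <;> obtain ⟨q, -, rfl⟩ := List.mem_map.1 h <;>
    simp [run, look]

def pq (c : ℝ) (n : ℕ) : ℝ := (⌊c * n⌋₊ : ℝ) / n.choose 2

theorem pq_lim {c : ℝ} (hc : 0 ≤ c) : Tendsto (fun n => pq c n * n) atTop (𝓝 (2 * c)) := by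
  have h1 := (tendsto_nat_floor_mul_div_atTop hc).comp tendsto_natCast_atTop_atTop
  have h2 := (tendsto_natCast_div_add_atTop (-1 : ℝ)).const_mul 2
  have := h2.mul h1
  rw [mul_one] at this
  refine this.congr' ?_
  filter_upwards [eventually_ge_atTop 2] with n hn
  have : (2 : ℝ) ≤ n := by exact_mod_cast hn
  have h3 : (n : ℝ) - 1 ≠ 0 := by linarith
  simp only [pq, Nat.cast_choose_two, Function.comp, ← sub_eq_add_neg]
  field_simp

theorem pq_zero {c : ℝ} (hc : 0 ≤ c) : Tendsto (pq c) atTop (𝓝 0) := by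
  refine ((pq_lim hc).div_atTop tendsto_natCast_atTop_atTop).congr' ?_
  filter_upwards [eventually_ge_atTop 1] with n hn
  rw [mul_div_cancel_right₀ _ (by positivity)]

def Goal (k : ℕ) (c : ℝ) : Prop := Tendsto (fun n : ℕ =>
  ({G : SimpleGraph (Fin n) | G.edgeSet.ncard = ⌊c * n⌋₊ ∧
    ∃ f : G.Coloring (Fin k), alg (mat G) = List.ofFn fun v => (f v : ℕ)}.ncard : ℝ) /
  {G : SimpleGraph (Fin n) | G.edgeSet.ncard = ⌊c * n⌋₊}.ncard) atTop (𝓝 1)

theorem lim {k : ℕ} {c ε β : ℝ} (hc : 0 ≤ c) (hε : 0 < ε) (hβ : 0 ≤ β)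
    (h : ∀ᶠ n in atTop, ∀ μ : Pm, μ.n = n → μ.p = pq c n →
      E μ (fun a => ind (Bad n k a)) ≤ 8 * n ^ 3 * exp (-(ε * n)) + (β / n) ^ 3) : Goal k c := by
  have h1 := ((tendsto_pow_mul_exp_neg_atTop_nhds_zero 5).comp
    ((tendsto_natCast_atTop_atTop (R := ℝ)).const_mul_atTop hε)).const_mul (8 / ε ^ 5)
  have h2 := (tendsto_const_nhds (x := β ^ 3)).div_atTop (tendsto_natCast_atTop_atTop (R := ℝ))
  have h3 := (h1.add h2).const_sub 1
  simp only [mul_zero, add_zero, sub_zero] at h3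
  refine tendsto_of_tendsto_of_tendsto_of_le_of_le' h3 tendsto_const_nhds ?_
    (Eventually.of_forall fun n => div_le_one_of_le₀ (Nat.cast_le.2
      (Set.ncard_le_ncard fun G hG => hG.1)) (Nat.cast_nonneg _))
  filter_upwards [h, eventually_ge_atTop 2, (pq_zero hc).eventually_le_const one_pos]
    with n hn h4 h5
  have h6 : 0 < n.choose 2 := Nat.choose_pos h4
  have h7 : (2 : ℝ) ≤ n := by exact_mod_cast h4
  have h8 := transfer (μ := ⟨n, pq c n, by unfold pq; positivity, h5⟩) (M := ⌊c * n⌋₊)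
    (by exact_mod_cast (div_le_one (by positivity)).1 h5) h6 rfl (Bad n k)
    (fun G => ∃ f : G.Coloring (Fin k), alg (mat G) = List.ofFn fun v => (f v : ℕ)) fun G hG => by
      rw [Bad, not_not, ← ad_mat] at hG
      rw [alg, show (mat G).length = n by simp [mat]]
      exact col_of_valid G (len_outs hG.2) hG.1
  refine le_trans (sub_le_sub_left ?_ 1) h8
  refine (mul_le_mul (b := (n : ℝ) ^ 2) (by rw [Nat.cast_choose_two]; nlinarith) (hn _ rfl rfl)
    (E_nonneg fun _ => ind_nonneg _) (by positivity)).trans (le_of_eq ?_)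
  simp only [Function.comp]
  field_simp

theorem small {k ρ : ℕ} {c w : ℝ} (hc : 0 ≤ c) (hw : 100 ≤ w) (hρ : 20 * w ≤ ρ) (hk : 2 * ρ ≤ k)
    (h : 2 * c < w) : Goal k c := by
  refine lim hc one_pos zero_le_one ?_
  filter_upwards [eventually_ge_atTop k, eventually_ge_atTop 1,
    (pq_lim hc).eventually_le_const h] with n h1 h2 h3
  rintro μ rfl hp
  have h4 : (1 : ℝ) ≤ μ.n := by exact_mod_cast h2
  have h5 := sp_par (a := μ.p * μ.n) (b := 1) hw hρ (by rw [hp]; linarith) (by linarith)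
  refine (core0 h2 (by exact_mod_cast (by linarith : (5 : ℝ) ≤ ρ)) le_rfl hk h1 ?_).trans
    (le_add_of_nonneg_of_le (by positivity) ?_)
  · rw [mul_one] at h5
    gcongr
    linarith
  · rw [div_pow, div_le_div_iff₀ (by positivity) (by positivity)]
    nlinarith [pow_pos (by linarith : (0 : ℝ) < μ.n) 4]

theorem large {k : ℕ} {c l L : ℝ} (h : Big (2 * c + 1) l L) (hk1 : k * l ≤ 2 * (2 * c + 1))
    (hk2 : 2 * c + 1 ≤ k * (l + L - 17 * log L)) : Goal k c := by
  obtain ⟨a1, a2, a3⟩ := h.L3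
  have hL := h.hL
  have hl0 : 0 < l := by linarith
  have hD : 2 < 2 * c + 1 := by linarith [h.hD, add_one_le_exp l]
  have hc : 0 ≤ c := by linarith
  refine lim (ε := 1 / (32 * l ^ 4 * (2 * c + 1))) (β := l ^ 2) hc (by positivity)
    (by positivity) ?_
  have h1 := (pq_zero hc).const_sub 1
  have h2 := (pq_lim hc).div h1 (by norm_num)
  have h3 := ((pq_zero hc).div h1 (by norm_num)).mul_const (l ^ 5)
  simp only [sub_zero, div_one, zero_mul] at h2 h3
  filter_upwards [h2.eventually_le_const (lt_add_one _), h3.eventually_le_const one_pos,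
    h2.eventually_const_le (by linarith : (2 * c + 1) / 2 < 2 * c),
    (pq_zero hc).eventually_le_const one_half_pos] with n b1 b2 b3 b4
  rintro μ rfl hp
  simp only [Pi.div_apply, ← hp] at b1 b2 b3 b4
  rw [mul_div_right_comm] at b1 b3
  have b5 : 0 < 1 - μ.p := by linarith
  rw [one_div_mul_eq_div]
  refine main_par h ⟨pos_of_mul_pos_left (by linarith) (Nat.cast_nonneg μ.n), ?_, ?_⟩ b2 b3 b1
    hk1 hk2
  · have := add_one_le_exp (μ.p / (1 - μ.p))
    rw [div_add_one b5.ne', add_sub_cancel, div_le_iff₀ b5] at this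
    rw [exp_neg, inv_le_iff_one_le_mul₀' (exp_pos _)]
    exact this
  · rw [div_le_iff₀ b5]; nlinarith [μ.h0]

theorem Goal.mono {k k' : ℕ} {c : ℝ} (h : Goal k c) (hk : k ≤ k') : Goal k' c :=
  tendsto_of_tendsto_of_tendsto_of_le_of_le h tendsto_const_nhds
    (fun _ => div_le_div_of_nonneg_right (Nat.cast_le.2 (Set.ncard_le_ncard
      fun G hG => ⟨hG.1, let ⟨f, hf⟩ := hG.2; ⟨SimpleGraph.Coloring.mk (fun v => (f v).castLE hk)
        fun huv e => f.valid huv (Fin.castLE_injective hk e), hf⟩⟩)) (Nat.cast_nonneg _))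
    fun _ => div_le_one_of_le₀ (Nat.cast_le.2 (Set.ncard_le_ncard fun G hG => hG.1))
      (Nat.cast_nonneg _)

theorem Big.lam {D l L : ℝ} (h : Big D l L) : 17 * log L ≤ L := by
  have hL := h.hL
  have h1 := log_le_sub_one_of_pos (sqrt_pos.2 (by linarith : 0 < L))
  rw [log_sqrt (by linarith)] at h1
  have h2 : 34 ≤ √L := le_sqrt_of_sq_le (by linarith)
  nlinarith [sq_sqrt (by linarith : 0 ≤ L)]

theorem large' {k : ℕ} {c l L : ℝ} (h : Big (2 * c + 1) l L)
    (hk : 2 * c + 1 ≤ k * (l + L - 17 * log L)) : Goal k c := by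
  obtain ⟨a1, a2, a3⟩ := h.L3
  have hL := h.hL
  have h1 := h.lam
  have hl0 : 0 < l := by linarith
  have hD : l ≤ 2 * c + 1 := by linarith [h.hD, add_one_le_exp l]
  have h2 : 0 < l + L - 17 * log L := by linarith
  refine (large (k := ⌈(2 * c + 1) / (l + L - 17 * log L)⌉₊) h ?_
    ((div_le_iff₀ h2).1 (Nat.le_ceil _))).mono (Nat.ceil_le.2 ((div_le_iff₀ h2).2 hk))
  have h3 := (Nat.ceil_lt_add_one (div_nonneg (by linarith : 0 ≤ 2 * c + 1) h2.le)).le
  have h4 : (2 * c + 1) / (l + L - 17 * log L) ≤ (2 * c + 1) / l := by gcongr <;> linarith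
  have := mul_le_mul_of_nonneg_right (h3.trans (add_le_add h4 le_rfl)) hl0.le
  rw [add_mul, div_mul_cancel₀ _ hl0.ne'] at this
  linarith

theorem main : ∃ k₀ : ℕ, ∀ k ≥ k₀, ∀ c : ℝ, 0 < c →
    c ≤ k * (log k + 2 * log (log k) - 35 * log (log (log k))) / 2 → Goal k c := by
  obtain ⟨w, hw, hw'⟩ : ∃ w : ℝ, 100 ≤ w ∧ ∀ D ≥ w, 100000 ≤ log (log D) := by
    obtain ⟨w, hw⟩ := eventually_atTop.1
      ((tendsto_log_atTop.comp tendsto_log_atTop).eventually_ge_atTop 100000)
    exact ⟨max 100 w, le_max_left _ _, fun D hD => hw D (le_of_max_le_right hD)⟩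
  obtain ⟨ρ, hρ, -⟩ := ce_spec (a := 20 * w) (by linarith)
  refine ⟨2 * ρ, fun k hk c hc hck => ?_⟩
  by_cases hcw : 2 * c < w
  · exact small hc.le hw hρ hk hcw
  have k1 : w ≤ k := le_trans (by linarith) (Nat.cast_le.2 (le_trans (by omega) hk) : (ρ : ℝ) ≤ k)
  have big : ∀ D ≥ w, Big D (log D) (log (log D)) := fun D hD =>
    ⟨(exp_log (by linarith)).symm, (exp_log (log_pos (by linarith))).symm, hw' D hD⟩
  have hB := big (2 * c + 1) (by linarith)
  have hK := big k k1
  refine large' hB ?_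
  set D := 2 * c + 1
  set a := log (k : ℝ)
  set b := log a
  have k0 : (0 : ℝ) < k := by linarith
  have b0 := hK.hL
  have a0 : b ≤ a := by linarith [hK.hl, add_one_le_exp b]
  have ak : a ≤ k := by linarith [hK.hD, add_one_le_exp a]
  have c0 := hK.logL
  have h1 := hB.lam
  have l0 : 1 ≤ log D := by linarith [hB.hl, add_one_le_exp (log (log D)), hB.hL]
  rcases le_total D k with h2 | h2
  · exact h2.trans (le_mul_of_one_le_right k0.le (by linarith))
  have h3 : a ≤ log D := log_le_log k0 h2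
  rcases le_total D (k * a) with h4 | h4
  · exact h4.trans (mul_le_mul_of_nonneg_left (by linarith) k0.le)
  have h5 : a + b ≤ log D := by
    rw [← log_mul k0.ne' (by linarith)]; exact log_le_log (mul_pos k0 (by linarith)) h4
  have h6 : b ≤ log (log D) := log_le_log (by linarith) h3
  have h7 : D ≤ k * (a + 2 * b - 34 * log b) := by
    have := mul_le_mul (by linarith : (1 : ℝ) ≤ k) (by linarith : 1 ≤ log b) zero_le_one k0.le
    simp only [D]; linarith
  have h8 : log D ≤ a ^ 2 := by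
    have h0 : a + 2 * b - 34 * log b ≤ k ^ 2 := by nlinarith
    have : D ≤ k ^ 3 := h7.trans ((mul_le_mul_of_nonneg_left h0 k0.le).trans_eq (by ring))
    have := log_le_log (by linarith) this
    rw [log_pow] at this
    push_cast at this
    nlinarith
  have h9 : log (log D) ≤ b ^ 2 := by
    have := log_le_log (by linarith) h8
    rw [log_pow] at this
    push_cast at this
    nlinarith
  have h10 := log_le_log (by linarith) h9
  rw [log_pow] at h10
  push_cast at h10
  exact h7.trans (mul_le_mul_of_nonneg_left (by linarith) k0.le)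

end

end Pool.Agent.Lib.MP_1b5cbf_lc
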