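import Pool.Agent.Lib.MP_1b5cbf_lc.Core

/-! The choice of the parameters. -/

set_option autoImplicit false

namespace Pool.Agent.Lib.MP_1b5cbf_lc

open Finset Classical Real

noncomputable section

variable {μ : Pm} {κ D l L : ℝ}

theorem cl_spec (h : 0 < κ) {a : ℝ} (ha : 0 ≤ a) :
    ∃ j : ℕ, a ≤ κ * j ∧ κ * j ≤ a + κ := by
  refine ⟨⌈a / κ⌉₊, (div_le_iff₀' h).1 (Nat.le_ceil _), ?_⟩
  have := mul_le_mul_of_nonneg_left (Nat.ceil_lt_add_one (div_nonneg ha h.le)).le h.le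
  rwa [mul_add, mul_div_cancel₀ _ h.ne', mul_one] at this

theorem ce_spec {a : ℝ} (ha : 0 ≤ a) : ∃ j : ℕ, a ≤ j ∧ j ≤ a + 1 := by
  simpa using cl_spec one_pos ha

structure Big (D l L : ℝ) : Prop where
  hD : D = exp l
  hl : l = exp L
  hL : 100000 ≤ L

theorem Big.L7 (h : Big D l L) : L ^ 7 ≤ l := by
  have h1 := h.hL
  have := pow_div_factorial_le_exp L (by linarith) 8
  rw [div_le_iff₀ (by positivity), ← h.hl] at this
  have h2 : 0 < L ^ 7 := by positivity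
  norm_num [Nat.factorial] at this
  nlinarith

theorem Big.L3 (h : Big D l L) : 100000 * L ≤ L ^ 2 ∧ 100000 * L ^ 2 ≤ L ^ 3 ∧
    100000 * L ^ 3 ≤ l := by
  have h1 := h.hL
  have h2 : L ^ 4 ≤ L ^ 7 := pow_le_pow_right₀ (by linarith) (by norm_num)
  have h3 : 0 < L ^ 3 := by positivity
  exact ⟨by nlinarith, by nlinarith, by nlinarith [h.L7]⟩

theorem Big.l6 (h : Big D l L) : l ^ 6 ≤ D ∧ l ^ 3 * exp (l / 6) ≤ D := by
  obtain ⟨a1, a2, a3⟩ := h.L3
  have h1 := h.hL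
  constructor
  · rw [h.hD]; nth_rw 1 [h.hl]; rw [← exp_nat_mul, exp_le_exp]; push_cast; linarith
  · rw [h.hD]; nth_rw 1 [h.hl]; rw [← exp_nat_mul, ← exp_add, exp_le_exp]; push_cast; linarith

theorem swap_par (h : Big D l L) (h0 : 0 < κ) (hκ : κ * l ^ 5 ≤ 1) : ∃ A g r N m : ℕ,
    1 ≤ 2000 * L ^ 2 * (κ * N) ∧ 1000 * L ^ 2 * (κ * N) ≤ 1 ∧ SP κ (l / (16 * κ)) (L ^ 7 / l) A g r N ∧
    κ * (m * ((r + 1) * (2 * N) : ℕ)) ≤ 9 * L ^ 2 ∧ L ≤ κ * (m * N : ℕ) ∧ (g : ℝ) ≤ l ∧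
    (r : ℝ) ≤ l ∧ (m : ℝ) ≤ l ∧ A = 12 * N := by
  obtain ⟨a1, a2, a3⟩ := h.L3
  have hL := h.hL
  have hl : 100000 ≤ l := by linarith
  have l2 : κ * l ^ 2 ≤ 1 := le_trans (by gcongr <;> linarith) hκ
  have l1 : κ * l ≤ 1 := by nlinarith
  obtain ⟨N, n1, n2⟩ := cl_spec h0 (a := 1 / (2000 * L ^ 2)) (by positivity)
  obtain ⟨g, g1, g2⟩ := ce_spec (a := L) (by positivity)
  obtain ⟨m, m1, m2⟩ := ce_spec (a := 2000 * L ^ 3) (by positivity)
  rw [div_le_iff₀' (by positivity)] at n1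
  have n3 : 1000 * L ^ 2 * (κ * N) ≤ 1 := by
    have := mul_le_mul_of_nonneg_left n2 (by positivity : 0 ≤ 2000 * L ^ 2)
    rw [mul_add, mul_one_div_cancel (by positivity)] at this
    nlinarith
  have g3 : 3 ≤ g := by exact_mod_cast (by linarith : (3 : ℝ) ≤ g)
  have g0 : (0 : ℝ) < g := by linarith
  set r := Nat.log g ⌊l⌋₊
  have r1 : (g : ℝ) ^ r ≤ l := le_trans (by exact_mod_cast (Nat.pow_log_le_self g
    (Nat.floor_pos.2 (by linarith)).ne')) (Nat.floor_le (by linarith))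
  have r2 : l ≤ (g : ℝ) ^ r * g := (Nat.lt_floor_add_one l).le.trans (by
    exact_mod_cast (Nat.lt_pow_succ_log_self (by omega : 1 < g) ⌊l⌋₊))
  have r3 : (r : ℝ) ≤ L := by
    rw [← exp_le_exp, ← h.hl, ← exp_one_pow]
    exact le_trans (pow_le_pow_left₀ (exp_pos _).le (by linarith [exp_one_lt_d9]) _) r1
  have r0 : (0 : ℝ) ≤ r := Nat.cast_nonneg r
  have hν : 0 < κ * N := by by_contra h; nlinarith
  have N0 : (0 : ℝ) < N := pos_of_mul_pos_right hν h0.le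
  have L2 : 768 * (κ * N) ≤ 1 := by nlinarith
  refine ⟨12 * N, g, r, N, m, n1, n3, ⟨by omega, ?_, ?_, ?_, ?_⟩, ?_, ?_, by linarith, by linarith,
    by linarith, rfl⟩
  · have b1 : ((g : ℝ) + 1) ^ r ≤ 3 * g ^ r := by
      have b2 : (g : ℝ) + 1 ≤ exp (1 / g) * g := by
        have := mul_le_mul_of_nonneg_right (add_one_le_exp (1 / g)) g0.le
        rwa [add_mul, one_div_mul_cancel g0.ne', one_mul, add_comm] at this
      refine (pow_le_pow_left₀ (by positivity) b2 r).trans ?_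
      rw [mul_pow, ← exp_nat_mul]
      gcongr
      exact (exp_le_exp.2 (by rw [mul_one_div, div_le_one g0]; linarith)).trans
        (by linarith [exp_one_lt_d9])
    have b3 : (g + 1) ^ r ≤ 3 * g ^ r := by exact_mod_cast b1
    nlinarith
  · rw [le_div_iff₀ (by positivity)]
    push_cast
    nlinarith [mul_le_mul L2 r1 (by positivity) zero_le_one]
  · have b1 : ((r : ℝ) + 2) ^ 2 ≤ (2 * L) ^ 2 := by gcongr; linarith
    push_cast
    nlinarith [mul_le_mul_of_nonneg_right b1 (mul_pos hν N0).le, mul_le_mul_of_nonneg_right n3 N0.le]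
  · have b1 : 8 * ((12 * N : ℕ) : ℝ) / (l / (16 * κ)) ≤ 2 / l := by
      rw [div_div_eq_mul_div]; gcongr; push_cast; linarith
    have b2 : r * (16 * ((g : ℝ) * (g + 1)) / (κ * (l / (16 * κ)))) ≤ 1536 * L ^ 3 / l := by
      rw [show κ * (l / (16 * κ)) = l / 16 by field_simp, div_div_eq_mul_div, ← mul_div_assoc]
      refine div_le_div_of_nonneg_right ?_ (by linarith)
      have : (r : ℝ) * (g * (g + 1)) ≤ L * (2 * L * (3 * L)) := by gcongr <;> linarith
      linarith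
    have b3 : 16 * (N : ℝ) / ((12 * N * g ^ r : ℕ) : ℝ) ≤ 3 * L / l := by
      push_cast
      rw [div_le_div_iff₀ (by positivity) (by positivity)]
      have : (g : ℝ) ^ r * g ≤ g ^ r * (2 * L) := by gcongr; linarith
      nlinarith [mul_le_mul_of_nonneg_left (r2.trans this) N0.le,
        (by positivity : 0 ≤ L * (N * (g : ℝ) ^ r))]
    have b4 : (r + 2) * κ ≤ 1 / l := by
      rw [le_div_iff₀ (by positivity)]
      nlinarith [mul_le_mul_of_nonneg_right (by linarith : (r : ℝ) + 2 ≤ l)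
        (by positivity : 0 ≤ κ * l)]
    refine le_trans (by gcongr : _ ≤ 4 * (2 / l + 1536 * L ^ 3 / l + 3 * L / l + 1 / l)) ?_
    rw [← add_div, ← add_div, ← add_div, ← mul_div_assoc, div_mul_eq_mul_div]
    refine div_le_div_of_nonneg_right ?_ (by linarith)
    have c1 : L ^ 5 ≤ 2000 * (L ^ 7 * (κ * N)) := by
      nlinarith [mul_le_mul_of_nonneg_left n1 (by positivity : 0 ≤ L ^ 5)]
    nlinarith [mul_le_mul_of_nonneg_left a1 (by positivity : 0 ≤ L ^ 3),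
      mul_le_mul_of_nonneg_left hL (by positivity : 0 ≤ L ^ 3)]
  · have : (m : ℝ) * (r + 1) ≤ 2001 * L ^ 3 * (2 * L) := by gcongr <;> linarith
    push_cast
    nlinarith [mul_le_mul_of_nonneg_right this hν.le,
      mul_le_mul_of_nonneg_left n3 (by positivity : 0 ≤ L ^ 2)]
  · push_cast
    nlinarith [mul_le_mul_of_nonneg_right m1 hν.le,
      mul_le_mul_of_nonneg_left n1 (by positivity : 0 ≤ L)]

theorem seed_par (h : Big D l L) (hp : Kp μ κ) (hκ : κ * l ^ 5 ≤ 1) {k : ℕ} (hk : k * l ≤ 2 * D) :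
    ∃ J s' e M : ℕ, 2 * (s' + e : ℕ) ≤ (1 - μ.p) ^ (J * s') * M ∧
      μ.p * (s' + e : ℕ) * (s' + e : ℕ) ≤ 0.44 * e ∧ l / 8 ≤ κ * (J * s' : ℕ) ∧
      κ * (J * s' : ℕ) ≤ l / 6 ∧ 1 ≤ 8 * l ^ 4 * (κ * e) ∧ 1 ≤ J ∧ (J : ℝ) + 1 ≤ 3 * l ^ 3 ∧
      κ * (s' + e : ℕ) ≤ 1 ∧ κ * (J * (k * e + M) : ℕ) ≤ 2 * (D / l ^ 2) ∧ 0 < M := by
  obtain ⟨a1, a2, a3⟩ := h.L3
  have hL := h.hL
  have h0 := hp.pos
  have hl : 100000 ≤ l := by linarith
  have l3 : 1 ≤ l ^ 3 := one_le_pow₀ (by linarith)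
  have l2 : 100000 * l ≤ l ^ 2 := by nlinarith
  obtain ⟨J, j1, j2⟩ := ce_spec (a := l ^ 3) (by positivity)
  have J0 : (0 : ℝ) < J := by linarith
  obtain ⟨s', s1, s2⟩ := cl_spec (mul_pos h0 J0) (a := l / 8) (by positivity)
  obtain ⟨e, e1, e2⟩ := ce_spec (a := 2 * s' / l ^ 2) (by positivity)
  have j3 : κ * J * l ^ 2 ≤ 2 := by
    nlinarith [mul_le_mul_of_nonneg_left (by linarith : (J : ℝ) ≤ 2 * l ^ 3)
      (by positivity : 0 ≤ κ * l ^ 2)]
  have j4 : 0 < κ * J := mul_pos h0 J0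
  have s3 : κ * J * s' ≤ l / 6 := by nlinarith
  have s4 : l ^ 2 ≤ s' := by
    refine le_of_mul_le_mul_left ?_ j4; linarith
  have s0 : (0 : ℝ) < s' := by linarith
  rw [div_le_iff₀ (by positivity)] at e1
  have e3 : e * l ^ 2 ≤ 3 * s' := by
    have := mul_le_mul_of_nonneg_right e2 (by positivity : 0 ≤ l ^ 2)
    rw [add_mul, div_mul_cancel₀ _ (by positivity)] at this
    linarith
  have e0 : (0 : ℝ) ≤ e := Nat.cast_nonneg e
  have e4 : (e : ℝ) ≤ s' := by nlinarith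
  have s5 : κ * s' * l ^ 2 ≤ 1 / 6 := by
    refine le_of_mul_le_mul_right ?_ (by linarith : 0 < l)
    nlinarith [mul_le_mul_of_nonneg_left j1 (mul_pos h0 s0).le]
  have s6 : κ * (s' + e : ℕ) ≤ 2 * (κ * s') := by push_cast; nlinarith
  have lo := hp.lo (c := 2 * (κ * (s' + e : ℕ))) (by positivity) (J * s')
  have up := hp.up (c := 2 * (κ * (s' + e : ℕ))) (by positivity) (J * s')
  generalize Kc κ _ _ = M at lo up
  have s7 : κ * (J * s' : ℕ) ≤ l / 6 := by push_cast; linarith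
  refine ⟨J, s', e, M, le_of_mul_le_mul_left (by linarith) h0, ?_, by push_cast; linarith, s7, ?_,
    by exact_mod_cast (by linarith : (1 : ℝ) ≤ J), by linarith, by nlinarith [mul_pos h0 s0], ?_, ?_⟩
  · have b1 : μ.p * (s' + e : ℕ) * (s' + e : ℕ) ≤ κ * (2 * s') * (2 * s') := by
      push_cast; gcongr
      exacts [hp.p_le, by linarith, by linarith]
    refine b1.trans (le_of_mul_le_mul_right ?_ (by positivity : 0 < l ^ 2))
    nlinarith [mul_le_mul_of_nonneg_left s5 s0.le]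
  · have b1 := mul_le_mul_of_nonneg_left e1 (by positivity : 0 ≤ κ * J)
    have b2 := mul_le_mul_of_nonneg_left (by linarith : (J : ℝ) ≤ 2 * l ^ 3)
      (by positivity : 0 ≤ κ * e * l ^ 2)
    refine le_of_mul_le_mul_right ?_ (by linarith : 0 < l)
    nlinarith
  · have b1 : κ * J * e * l ^ 2 ≤ l / 2 := by
      nlinarith [mul_le_mul_of_nonneg_left e3 j4.le]
    have b2 : κ * M ≤ 5 * (κ * s') * exp (l / 6) := up.trans (by
      gcongr; nlinarith)
    have b3 : J * (κ * M) ≤ l * exp (l / 6) := by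
      nlinarith [mul_le_mul_of_nonneg_left b2 J0.le,
        mul_le_mul_of_nonneg_right s3 (exp_pos (l / 6)).le, mul_pos (by linarith : 0 < l) (exp_pos (l / 6))]
    rw [← mul_div_assoc, le_div_iff₀ (by positivity)]
    push_cast
    nlinarith [mul_le_mul_of_nonneg_left b1 (Nat.cast_nonneg k : (0 : ℝ) ≤ k), h.l6.2,
      mul_le_mul_of_nonneg_right b3 (by positivity : 0 ≤ l ^ 2)]
  · by_contra hM
    obtain rfl : M = 0 := by omega
    push_cast at lo
    nlinarith [mul_pos h0 s0]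

theorem acc_par (h : Big D l L) {x x' z τ : ℝ} (h1 : D / l ^ 5 ≤ x) (h3 : 0 ≤ x')
    (h4 : x ≤ L ^ 7 / l * exp z) (h5 : x' + z ≤ x + τ) (hτ : τ ≤ l / 6) :
    l + L - 7 * log L + 8 * √D / l * √x' ≤ z + 8 * √D / l * √x := by
  obtain ⟨a1, a2, a3⟩ := h.L3
  have hL := h.hL
  have hl : 0 < l := by linarith
  have hD : 0 < D := h.hD ▸ exp_pos _
  have hx : 0 < x := lt_of_lt_of_le (by positivity) h1
  have b1 := log_le_log hx h4
  rw [log_mul (by positivity) (exp_pos _).ne', log_exp, log_div (by positivity) hl.ne', log_pow,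
    show log l = L by rw [h.hl, log_exp]] at b1
  have b2 := log_le_log (by positivity) h1
  rw [log_div hD.ne' (by positivity), log_pow, show log l = L by rw [h.hl, log_exp],
    show log D = l by rw [h.hD, log_exp]] at b2
  have b3 := log_le_log (by positivity) h.L7
  rw [log_pow, show log l = L by rw [h.hl, log_exp]] at b3
  push_cast at b1 b2 b3
  have hs := sqrt_pos.2 hx
  have b4 := log_le_sub_one_of_pos (div_pos (sqrt_pos.2 hD) hs)
  rw [log_div (sqrt_pos.2 hD).ne' hs.ne', log_sqrt hD.le, log_sqrt hx.le,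
    show log D = l by rw [h.hD, log_exp]] at b4
  have b5 : l / (4 * √x) ≤ √x - √x' := by
    rw [div_le_iff₀ (by positivity)]
    nlinarith [sq_sqrt hx.le, sq_sqrt h3, sq_nonneg (√x - √x')]
  have b6 := mul_le_mul_of_nonneg_left b5 (by positivity : 0 ≤ 8 * √D / l)
  rw [show 8 * √D / l * (l / (4 * √x)) = 2 * (√D / √x) by field_simp; ring] at b6
  linarith

theorem sp_par {w a b : ℝ} {ρ : ℕ} (hw : 100 ≤ w) (hρ : 20 * w ≤ ρ) (ha : a ≤ 9 * w) (hb : b ≤ w) :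
    exp (1 + a) * b ≤ 2 ^ (ρ - 5) := by
  have h1 : 5 ≤ ρ := by exact_mod_cast (by linarith : (5 : ℝ) ≤ ρ)
  have : (2 : ℝ) ^ (ρ - 5) = exp ((ρ - 5 : ℕ) * log 2) := by rw [exp_nat_mul, exp_log two_pos]
  rw [this, Nat.cast_sub h1]
  refine (mul_le_mul_of_nonneg_left (hb.trans (by linarith [add_one_le_exp w] : w ≤ exp w))
    (exp_pos _).le).trans ?_
  rw [← exp_add, exp_le_exp]
  push_cast
  nlinarith [log_two_gt_d9]

end

end Pool.Agent.Lib.MP_1b5cbf_lc
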