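import Pool.Agent.Lib.MP_1b5cbf_lc.Layer

/-! The seeded rounds and the remaining greedy rounds. -/

set_option autoImplicit false

namespace Pool.Agent.Lib.MP_1b5cbf_lc

open Finset Classical Real

noncomputable section

variable {μ : Pm} {κ : ℝ}

theorem nodup_out {X : List ℕ} (h : X.Nodup) (G : List ℕ) : (out X G).Nodup := h.filter _

theorem out_step {X C G Y : List ℕ} (hX : X.Nodup) (hC : C.Nodup) (h1 : out X G ⊆ Y) (h2 : C ⊆ Y) :
    (out X (C ++ G)).length + C.length ≤ Y.length := by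
  rw [← List.length_append]
  refine len_le (List.nodup_append.2 ⟨nodup_out hX _, hC, fun u hu v hv e => ?_⟩) fun v hv => ?_
  · exact (mem_out.1 hu).2 (by simp [e, hv])
  · refine (List.mem_append.1 hv).elim (fun h => h1 ?_) fun h => h2 h
    simp only [mem_out, List.mem_append, not_or] at h ⊢
    exact ⟨h.1, h.2.2⟩

structure XI (κ D Λ c : ℝ) (k y h lam : ℕ) (P0 : List ℕ) (Ts l Cs : List (List ℕ)) (F : Fr)
    (a : A) : Prop where
  len : Cs.length + l.length = k
  ic : ∀ C ∈ Cs, Ind F a C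
  il : ∀ T ∈ l, Ind F a T
  dis : ∀ v ∈ Cs.flatten, v ∉ l.flatten
  f1 : ∀ w ∈ out P0 Cs.flatten, ∀ v, v ≠ w → v ∈ out P0 Cs.flatten ∨ v ∈ l.flatten → s(w, v) ∈ F
  f3 : ∀ u ∈ Ts.flatten, ∀ v ∈ Ts.flatten, u ≠ v → u / y = v / y → ok F a s(u, v)
  bb : (out (out Ts.flatten l.flatten) Cs.flatten).length ≤ Cs.length * lam
  acc : (out P0 Cs.flatten).length ≤ h ∨ κ * (out (Ts.flatten ++ P0) Cs.flatten).length +
    Cs.length * Λ + c * √(κ * (out P0 Cs.flatten).length) ≤ D + c * √D

theorem xst_tp {F : Fr} {P0 T : List ℕ} {Ts l Cs : List (List ℕ)} {k y A g r N h m τ : ℕ}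
    {u t Γ D Λ c : ℝ} (hκ : Kp μ κ) (hN : 1 ≤ N) (hu : u ≤ N) (hν : κ * N ≤ 1 / 5)
    (hAl : (Ts.flatten ++ P0).Nodup) (hn : ∀ w ∈ Ts.flatten ++ P0, w < μ.n) (hl : T :: l <:+ Ts)
    (hτ : T.length = τ) (hD : κ * P0.length ≤ D) (hh : D ≤ exp (κ * (h * N : ℕ))) (h1 : 1 ≤ h)
    (sp : SP κ t Γ A g r N) (ht : t + m * ((r + 1) * (2 * N) : ℕ) ≤ τ)
    (hΓ : 15 ≤ Γ * exp (κ * (m * N : ℕ)))
    (hacc : ∀ x x' z : ℝ, κ * h < x → x ≤ D → 0 ≤ x' → x ≤ Γ * exp z → x' + z ≤ x + κ * τ →
      Λ + c * √x' ≤ z + c * √x) :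
    TP μ ((h + m * (r + 3)) * exp (-u / 4)) F
      (XI κ D Λ c k y h (m * ((r + 1) * (2 * N))) P0 Ts (T :: l) Cs F)
      (fun a => xst (o a) A g r N h m P0 Cs T)
      (XI κ D Λ c k y h (m * ((r + 1) * (2 * N))) P0 Ts l) := by
  have h0 := hκ.pos
  obtain ⟨n1, n2, n3⟩ := List.nodup_append.1 hAl
  have hsub := hl.sublist.flatten
  obtain ⟨n4, -, n6⟩ := List.nodup_append.1 (n1.sublist hsub)
  have hTs : ∀ v ∈ T, v ∈ Ts.flatten := fun v hv => hsub.subset (by simp [hv])
  have hls : ∀ v ∈ l.flatten, v ∈ Ts.flatten := fun v hv =>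
    hsub.subset (List.mem_append_right _ hv)
  set P := out P0 Cs.flatten
  have hP : ∀ v ∈ P, v ∈ P0 := fun v hv => (mem_out.1 hv).1
  have hPD : κ * P.length ≤ D :=
    le_trans (by gcongr; exact List.length_filter_le _ _) hD
  refine TP.map (fun C => C :: Cs) ((round_tp (P := P) (t := t) hκ hN hu hν (nodup_out n2 _)
    (fun w hw => hn w (by simp [hP w hw])) n4 (fun v hv => hn v (List.mem_append_left _ (hTs v hv)))
    (fun v hv h => n3 v (hTs v hv) v (hP v h) rfl) (hPD.trans hh) (fun _ => ⟨sp, hτ ▸ ht⟩)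
    hΓ).conseq le_rfl (by positivity) fun η hI => ⟨⟨fun w hw v hv hne =>
      Or.inl (hI.f1 w hw v hne.symm (Or.inl hv)), fun w hw v hv => hI.f1 w hw v
      (fun e => n3 v (hTs v hv) w (hP w hw) e) (by simp [hv]), hI.il T (by simp)⟩,
      fun a F' he h' => ?_⟩)
  generalize rnd (o a) A g r N h m P T = C at h' ⊢
  obtain ⟨b1, b2, b3, b4, b5, b6⟩ := h'
  have hP' : ∀ v ∈ out P0 (C :: Cs).flatten, v ∈ P ∧ v ∉ C := by
    simp only [P, mem_out, List.flatten_cons, List.mem_append, not_or]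
    exact fun v hv => ⟨⟨hv.1, hv.2.2⟩, hv.2.1⟩
  have hCl : ∀ v ∈ C, v ∉ l.flatten := fun v hv hv' => (b2 v hv).elim
    (fun h => n6 v h v hv' rfl) fun h => n3 v (hls v hv') v (hP v h) rfl
  refine ⟨?_, ?_, fun S hS => (hI.il S (by simp [hS])).ext he, ?_, fun w hw v hne hv => ?_,
    fun w hw v hv hne e => he.ok (hI.f3 w hw v hv hne e) (b5.keep
      (fun h => n3 w hw w (hP w h.1) rfl) fun h => n3 v hv v (hP v h.1) rfl), ?_, ?_⟩
  · have := hI.len; simp only [List.length_cons] at this ⊢; omega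
  · intro S hS
    rcases List.mem_cons.1 hS with rfl | hS
    exacts [b3, (hI.ic S hS).ext he]
  · intro v hv hv'
    exact (List.mem_append.1 hv).elim (fun h => hCl v h hv')
      fun h => hI.dis v h (List.mem_append_right _ hv')
  · obtain ⟨c1, c2⟩ := hP' w hw
    refine b5.keep (fun h => ?_) (fun h => h.2.elim
      (fun h => n3 w (hTs w h) w (hP w c1) rfl) c2) (hI.f1 w c1 v hne
      (hv.imp (fun h => (hP' v h).1) fun h => List.mem_append_right _ h))
    rcases hv with hv | hv
    · exact h.2.elim (fun h => n3 v (hTs v h) v (hP v (hP' v hv).1) rfl) (hP' v hv).2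
    · exact h.2.elim (fun h => n6 v h v hv rfl) fun h => hCl v h hv
  · have := len_le (Y := out (out Ts.flatten (T :: l).flatten) Cs.flatten ++ out T C)
      (nodup_out (nodup_out n1 l.flatten) (C :: Cs).flatten) fun v hv => by
        simp only [mem_out, List.flatten_cons, List.mem_append, not_or] at hv ⊢
        tauto
    have := hI.bb
    simp only [List.length_append, List.length_cons, add_mul] at *
    omega
  · by_cases hPh : P.length ≤ h
    · exact Or.inl ((len_le (nodup_out n2 _) fun v hv => (hP' v hv).1).trans hPh)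
    have c1 := hI.acc.resolve_left hPh
    have c2 := out_step (G := Cs.flatten) hAl b1 (List.Subset.refl _) fun v hv => mem_out.2
      ((b2 v hv).elim (fun h => ⟨List.mem_append_left _ (hTs v h),
        fun h' => hI.dis v h' (by simp [h])⟩) fun h => ⟨by simp [hP v h], (mem_out.1 h).2⟩)
    have c3 := out_step (G := Cs.flatten) (Y := P ++ T) n2 b1 (List.subset_append_left _ _)
      fun v hv => by simpa [or_comm] using b2 v hv
    have c4 := hacc (κ * P.length) (κ * (out P0 (C ++ Cs.flatten)).length) (κ * C.length)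
      (by gcongr; omega) hPD (by positivity) (b6 (by omega)) (by
        rw [← mul_add, ← mul_add]
        rw [List.length_append, hτ] at c3
        exact mul_le_mul_of_nonneg_left (by exact_mod_cast c3) h0.le)
    have c5 : κ * ((out (Ts.flatten ++ P0) (C ++ Cs.flatten)).length + C.length) ≤
        κ * (out (Ts.flatten ++ P0) Cs.flatten).length := by gcongr; exact_mod_cast c2
    refine Or.inr ?_
    simp only [List.flatten_cons, List.length_cons]
    push_cast
    linarith

structure YI (κ LB W : ℝ) (J y h : ℕ) (Al : List ℕ) (i : ℕ) (Cs : List (List ℕ)) (F : Fr) (a : A) :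
    Prop where
  ic : ∀ C ∈ Cs, Ind F a C
  f3 : ∀ u ∈ out Al Cs.flatten, ∀ v ∈ out Al Cs.flatten, u ≠ v →
    min (u / y) J = min (v / y) J → ok F a s(u, v)
  acc : LB * Cs.length + κ * (out Al Cs.flatten).length ≤ W
  fin : (∀ j ≤ J, (pool J y Al Cs j).length ≤ h) ∨ (out Al Cs.flatten).length + i ≤ Al.length

theorem bst_tp {F : Fr} {Al : List ℕ} {Cs : List (List ℕ)} {J y N h i : ℕ} {u D LB W : ℝ}
    (hκ : Kp μ κ) (hN : 1 ≤ N) (hu : u ≤ N) (hν : κ * N ≤ 1 / 5) (hAl : Al.Nodup)
    (hn : ∀ w ∈ Al, w < μ.n) (hD : κ * Al.length ≤ D) (hh : D ≤ exp (κ * (h * N : ℕ)))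
    (h1 : 1 ≤ h) (hL0 : 0 < LB) (hL : ∀ z, κ * h ≤ 15 * exp z → LB ≤ z) :
    TP μ (h * exp (-u / 4)) F (YI κ LB W J y h Al i Cs F) (fun a => bst (o a) J y N h Al Cs)
      (YI κ LB W J y h Al (i + 1)) := by
  have h0 := hκ.pos
  unfold bst
  split_ifs with hb
  swap
  · refine TP.pure (by positivity) fun η hI a he => ⟨fun C hC => (hI.ic C hC).ext he,
      fun w hw v hv hne e => he.ok (hI.f3 w hw v hv hne e) id, hI.acc, Or.inl fun j hj => ?_⟩
    unfold big at hb
    cases hf : List.find? (fun j => decide (h < (pool J y Al Cs j).length)) (List.range (J + 1)) with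
    | none => simpa using List.find?_eq_none.1 hf j (List.mem_range.2 (by omega))
    | some j0 => exact absurd (by simpa using List.find?_some hf) (hf ▸ hb)
  obtain ⟨j, hj, e⟩ : ∃ j ≤ J, big J y h Al Cs = pool J y Al Cs j := by
    refine ⟨_, ?_, rfl⟩
    cases hf : List.find? (fun j => decide (h < (pool J y Al Cs j).length)) (List.range (J + 1)) with
    | none => simp
    | some j0 => simpa [Nat.lt_succ_iff] using List.mem_of_find?_eq_some hf
  rw [e] at hb ⊢
  set P := pool J y Al Cs j with hPe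
  have hP : ∀ v ∈ P, v ∈ out Al Cs.flatten ∧ min (v / y) J = j := by simp [P, pool]
  refine TP.map (fun C => C :: Cs) ((round_tp (P := P) (t := 0) (Γ := 15) hκ hN hu hν
    ((nodup_out hAl _).filter _) (fun w hw => hn w (mem_out.1 (hP w hw).1).1) List.nodup_nil
    (by simp) (by simp) (le_trans ?_ (hD.trans hh)) (by simp) (by simp)).conseq (by simp)
    (by positivity) fun η hI => ⟨⟨fun w hw v hv hne => hI.f3 w (hP w hw).1 v (hP v hv).1 hne
      ((hP w hw).2.trans (hP v hv).2.symm), by simp [FR], by simp [Ind]⟩, fun a F' he h' => ?_⟩)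
  · gcongr
    exact (List.length_filter_le _ _).trans (List.length_filter_le _ _)
  generalize rnd (o a) 0 0 0 N h 0 P [] = C at h' ⊢
  obtain ⟨b1, b2, b3, -, b5, b6⟩ := h'
  simp only [List.not_mem_nil, false_or] at b2 b5
  have hP' : ∀ v ∈ out Al (C :: Cs).flatten, v ∈ out Al Cs.flatten ∧ v ∉ C := by
    simp only [mem_out, List.flatten_cons, List.mem_append, not_or]
    exact fun v hv => ⟨⟨hv.1, hv.2.2⟩, hv.2.1⟩
  have c2 := out_step (G := Cs.flatten) hAl b1 (List.Subset.refl _) fun v hv => (hP v (b2 v hv)).1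
  have c3 := hL _ (le_trans (by gcongr) (b6 (by omega)))
  have c4 : 0 < C.length := by
    by_contra h; simp only [not_lt, nonpos_iff_eq_zero] at h; simp [h] at c3; linarith
  refine ⟨fun S hS => ?_, fun w hw v hv hne e => he.ok (hI.f3 w (hP' w hw).1 v (hP' v hv).1 hne e)
    (b5.keep (fun h => (hP' v hv).2 h.2) fun h => (hP' w hw).2 h.2), ?_, Or.inr ?_⟩
  · rcases List.mem_cons.1 hS with rfl | hS
    exacts [b3, (hI.ic S hS).ext he]
  · have c5 : κ * ((out Al (C ++ Cs.flatten)).length + C.length) ≤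
        κ * (out Al Cs.flatten).length := by gcongr; exact_mod_cast c2
    have := hI.acc
    simp only [List.flatten_cons, List.length_cons]
    push_cast
    linarith
  · have := hI.fin.resolve_left fun h => absurd (h j hj) (not_le.2 hb)
    simp only [List.flatten_cons]; omega

theorem len_fib {X : List ℕ} {f : ℕ → ℕ} {J : ℕ} (h : ∀ v, f v < J) :
    X.length = ∑ j ∈ range J, (X.filter fun v => f v == j).length := by
  induction X with
  | nil => simp
  | cons v X ih =>
    simp only [← List.countP_eq_length_filter] at ih ⊢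
    simp [List.countP_cons, sum_add_distrib, ← ih, h v]

theorem xb_tp {F : Fr} {Ts : List (List ℕ)} {k J s' y A g r N h m : ℕ} {u t Γ D Λ c LB W : ℝ}
    (hκ : Kp μ κ) (hN : 1 ≤ N) (hu : u ≤ N) (hν : κ * N ≤ 1 / 5) (hy : 0 < y) (hJ : J * y ≤ μ.n)
    (hD : κ * μ.n ≤ D) (hh : D ≤ exp (κ * (h * N : ℕ))) (h1 : 1 ≤ h)
    (sp : SP κ t Γ A g r N) (ht : t + m * ((r + 1) * (2 * N) : ℕ) ≤ (J * s' : ℕ))
    (hΓ : 15 ≤ Γ * exp (κ * (m * N : ℕ))) (hc : 0 ≤ c)
    (hacc : ∀ x x' z : ℝ, κ * h < x → x ≤ D → 0 ≤ x' → x ≤ Γ * exp z →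
      x' + z ≤ x + κ * (J * s' : ℕ) → Λ + c * √x' ≤ z + c * √x)
    (hL0 : 0 < LB) (hL : ∀ z, κ * h ≤ 15 * exp z → LB ≤ z)
    (hW1 : κ * (h + k * (m * ((r + 1) * (2 * N)) : ℕ)) ≤ W) (hW2 : D + c * √D - k * Λ ≤ W) :
    TP μ ((k * (h + m * (r + 3)) + μ.n * h) * exp (-u / 4)) F (LI k s' y J Ts F)
      (fun a => xb (o a) μ.n J y A g r N h m Ts) fun Cs F' a => (∀ C ∈ Cs, Ind F' a C) ∧
        LB * Cs.length ≤ LB * k + W ∧ (out (List.range μ.n) Cs.flatten).length + k * (J * s') ≤
          (J + 1) * h + J * y := by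
  have h0 := hκ.pos
  refine TP.of_pre (by positivity) fun η0 hp => ?_
  set P0 := List.range' (J * y) (μ.n - J * y)
  have hP0 : ∀ v, v ∈ P0 ↔ J * y ≤ v ∧ v < μ.n := fun v => by
    simp only [P0, List.mem_range'_1]; omega
  have hTs : ∀ v ∈ Ts.flatten, v < J * y := fun v hv =>
    let ⟨S, hS, hv⟩ := List.mem_flatten.1 hv; (hp.td S hS).2.2 v hv
  have hAl : (Ts.flatten ++ P0).Nodup := List.nodup_append.2 ⟨hp.nd, List.nodup_range' ..,
    fun u hu v hv e => by have := hTs u hu; have := (hP0 v).1 hv; omega⟩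
  have hn : ∀ w ∈ Ts.flatten ++ P0, w < μ.n := fun w hw => (List.mem_append.1 hw).elim
    (fun h => (hTs w h).trans_le hJ) fun h => ((hP0 w).1 h).2
  have hAn : (Ts.flatten ++ P0).length ≤ μ.n := by
    simpa using len_le (Y := List.range μ.n) hAl fun v hv => List.mem_range.2 (hn v hv)
  have hD1 : κ * (Ts.flatten ++ P0).length ≤ D := le_trans (by gcongr) hD
  have hD2 : κ * P0.length ≤ D := le_trans (by gcongr; simp) hD1
  have a1 := TP.foldl (μ := μ) (f := fun a => xst (o a) A g r N h m P0) (by positivity) Ts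
    (I := XI κ D Λ c k y h (m * ((r + 1) * (2 * N))) P0 Ts) (fun Cs F η a h he => ⟨h.len,
      fun C hC => (h.ic C hC).ext he, by simp, h.dis, h.f1,
      fun u hu v hv hne e => he.ok (h.f3 u hu v hv hne e) id, h.bb, h.acc⟩)
    (fun T l hl Cs F => xst_tp hκ hN hu hν hAl hn hl (hp.td T (hl.subset (by simp))).1 hD2 hh h1
      sp ht hΓ hacc) [] F
  have a2 := TP.iter (μ := μ) (f := fun a => bst (o a) J y N h (Ts.flatten ++ P0))
    (by positivity) (Ts.flatten ++ P0).length (I := YI κ LB (LB * k + W) J y h (Ts.flatten ++ P0))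
    (fun Cs F η a h he => ⟨fun C hC => (h.ic C hC).ext he,
      fun u hu v hv hne e => he.ok (h.f3 u hu v hv hne e) id, h.acc, h.fin⟩)
    fun i _ Cs F => bst_tp hκ hN hu hν hAl hn hD1 hh h1 hL0 hL
  refine ((a1.conseq le_rfl (by positivity) fun η hI => ⟨?_, fun a F' _ h' => ?_⟩).bind a2).conseq
    ?_ (by positivity) fun η hI => ⟨hI, fun a F' _ h' => ?_⟩
  · refine ⟨by simpa using hI.len, by simp, fun T hT => (hI.td T hT).2.1, by simp,
      fun w hw v hne _ => hI.f1 w v hne.symm ((hP0 w).1 (mem_out.1 hw).1).1, hI.f3, ?_, Or.inr ?_⟩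
    · rw [show out Ts.flatten Ts.flatten = [] from List.filter_eq_nil_iff.2 (by simp)]
      simp [out]
    · simp only [out, List.flatten_nil, List.not_mem_nil, not_false_eq_true, decide_true,
        List.filter_true, List.length_nil, Nat.cast_zero, zero_mul, add_zero]
      gcongr
  · generalize List.foldl _ _ _ = Cs at h' ⊢
    have hk : Cs.length = k := by simpa using h'.len
    refine ⟨h'.ic, fun w hw v hv hne e => ?_, ?_, Or.inr (List.length_filter_le _ _)⟩
    · have lt : ∀ v ∈ Ts.flatten, v / y < J := fun v hv => (Nat.div_lt_iff_lt_mul hy).2 (hTs v hv)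
      have ge : ∀ v ∈ P0, J ≤ v / y := fun v hv => (Nat.le_div_iff_mul_le hy).2 ((hP0 v).1 hv).1
      simp only [mem_out, List.mem_append] at hw hv
      rcases hw.1 with h1 | h1 <;> rcases hv.1 with h2 | h2
      · exact h'.f3 w h1 v h2 hne (by have := lt w h1; have := lt v h2; omega)
      · have := lt w h1; have := ge v h2; omega
      · have := ge w h1; have := lt v h2; omega
      · exact Or.inl (h'.f1 w (mem_out.2 ⟨h1, hw.2⟩) v hne.symm (Or.inl (mem_out.2 ⟨h2, hv.2⟩)))
    · rw [hk]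
      rcases h'.acc with b | b
      · have b1 := h'.bb
        have b2 : (out (Ts.flatten ++ P0) Cs.flatten).length ≤
            h + k * (m * ((r + 1) * (2 * N))) := by
          simp only [out, List.flatten_nil, List.not_mem_nil, not_false_eq_true, decide_true,
            List.filter_true, hk, List.filter_append, List.length_append] at b b1 ⊢
          omega
        refine add_le_add le_rfl (le_trans ?_ hW1)
        gcongr
        exact_mod_cast b2
      · have : 0 ≤ c * √(κ * (out P0 Cs.flatten).length) := by positivity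
        rw [hk] at b
        linarith
  · rw [hp.len, add_mul (_ * _), mul_assoc (k : ℝ), mul_assoc (μ.n : ℝ)]
    gcongr
  · generalize (bst (o a) J y N h (Ts.flatten ++ P0))^[_] _ = Cs at h' ⊢
    refine ⟨h'.ic, le_trans (le_add_of_nonneg_right (by positivity)) h'.acc, ?_⟩
    have b1 : (out (Ts.flatten ++ P0) Cs.flatten).length ≤ (J + 1) * h := by
      rcases h'.fin with b | b
      · rw [len_fib (f := fun v => min (v / y) J) (J := J + 1) fun v => by omega]
        simpa [pool] using sum_le_card_nsmul (range (J + 1)) _ h fun j hj =>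
          b j (Nat.lt_succ_iff.1 (mem_range.1 hj))
      · omega
    have b2 := len_le (Y := out (Ts.flatten ++ P0) Cs.flatten ++
      out (List.range (J * y)) (Ts.flatten ++ [])) (nodup_out List.nodup_range Cs.flatten
        (X := List.range μ.n)) fun v hv => by
        simp only [mem_out, List.mem_append, List.mem_range, hP0, List.not_mem_nil] at hv ⊢
        by_cases h : v < J * y
        · tauto
        · exact Or.inl ⟨Or.inr ⟨by omega, hv.1⟩, hv.2⟩
    have b3 := out_step (G := []) (Y := List.range (J * y)) List.nodup_range hp.nd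
      (fun v hv => (mem_out.1 hv).1) fun v hv => List.mem_range.2 (hTs v hv)
    have b4 : Ts.flatten.length = k * (J * s') := by
      rw [← List.flatMap_id, len_flatMap (f := id) fun T hT => (hp.td T hT).1, hp.len]
    simp only [List.length_append, List.length_range] at b2 b3
    omega

end

end Pool.Agent.Lib.MP_1b5cbf_lc
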