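import Pool.Agent.Lib.MP_1b5cbf_lc.Alg
import Pool.Agent.Lib.Complexity.Bridge

/-! The algorithm runs in polynomial time. -/

set_option autoImplicit false

namespace Pool.Agent.Lib.MP_1b5cbf_lc

open Pool.Agent.Lib.Complexity

variable {α σ β τ : Type} [Enc α] [Enc σ] [Enc β] [Enc τ]

theorem pt_iter {n : α → ℕ} {init : α → σ} {step : α → σ → σ} (hn : PT n) (hi : PT init)
    (hs : PT fun p : α × σ => step p.1 p.2) {C : α → ℕ} (hC : PT C) (I : α → σ → Prop)
    (h0 : ∀ a, I a (init a)) (hc : ∀ a x, I a x → I a (step a x) ∧ sz (step a x) ≤ sz x + C a) :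
    PT fun a => (step a)^[n a] (init a) :=
  PT.iterate hn hi hs (B := fun a => sz (init a) + n a * C a)
    (hi.pb.add (hn.pb_nat.mul hC.pb_nat)) fun a i hi => by
      have := (PT.iterate_sz_add (h0 a) (fun y h => (hc a y h).1) (fun y h => (hc a y h).2) i).2
      have h2 : i * C a ≤ n a * C a := Nat.mul_le_mul_right _ hi.le
      omega

omit [Enc β] in
theorem sz_foldl_inv {f : σ → β → σ} {C : ℕ} {I : σ → Prop} (l : List β) (x : σ) (h0 : I x)
    (h : ∀ y, ∀ b ∈ l, I y → I (f y b) ∧ sz (f y b) ≤ sz y + C) :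
    sz (l.foldl f x) ≤ sz x + l.length * C := by
  induction l generalizing x with
  | nil => simp
  | cons b l ih =>
    have h2 := h x b (by simp) h0
    have h1 := ih (f x b) h2.1 fun y c hc => h y c (by simp [hc])
    simp only [List.foldl_cons, List.length_cons]
    nlinarith [h2.2]

theorem sz_toList (o : Option τ) : sz o.toList = sz o := by cases o <;> simp

theorem pt_scan {b : α → ℕ} {acc : α → List τ → ℕ → Option τ} {R : α → List ℕ} {s : α → List τ}
    (hb : PT b) (hacc : PT fun p : α × List τ × ℕ => acc p.1 p.2.1 p.2.2) (hR : PT R) (hs : PT s)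
    {g : α → ℕ → ℕ} (hg : PT fun p : α × ℕ => g p.1 p.2) (h : ∀ x t w, sz (acc x t w) ≤ g x w) :
    PT fun x => scan (b x) (acc x) (R x) (s x) := by
  refine (PT.foldl_add' (f := fun x (y : List ℕ × List τ) w => if y.2.length < b x then
    (y.1.tail, (acc x y.2 w).toList ++ y.2) else y) hR (hR.prodMk hs) (by fun_prop) hg
    fun x y w => ?_).of_eq fun x => scan_eq _ _
  split_ifs
  · have := sz_le_of_sublist (List.tail_sublist y.1)
    have := h x y.2 w
    simp only [sz_pair, sz_append, sz_toList, sz_prod y]; omega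
  · omega

variable {a : α → O}

@[fun_prop] theorem pt_free (ha : PT fun p : α × ℕ × ℕ => a p.1 p.2.1 p.2.2) {C : α → List ℕ}
    {w : α → ℕ} (hC : PT C) (hw : PT w) : PT fun x => free (a x) (C x) (w x) := by
  unfold free; fun_prop

theorem sz_free (a : O) (C : List ℕ) (w : ℕ) : sz (free a C w) ≤ w + 1 := by
  unfold free; split_ifs <;> simp

@[fun_prop] theorem pt_gst (ha : PT fun p : α × ℕ × ℕ => a p.1 p.2.1 p.2.2) {b : α → ℕ}
    {R C : α → List ℕ} (hb : PT b) (hR : PT R) (hC : PT C) :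
    PT fun x => gst (a x) (b x) (R x) (C x) :=
  pt_scan (g := fun _ w => w + 1) hb (by fun_prop) hR hC (by fun_prop) fun _ _ _ => sz_free _ _ _

@[fun_prop] theorem pt_sel (ha : PT fun p : α × ℕ × ℕ => a p.1 p.2.1 p.2.2) {b : α → ℕ}
    {R C : α → List ℕ} (hb : PT b) (hR : PT R) (hC : PT C) :
    PT fun x => sel (a x) (b x) (R x) (C x) :=
  pt_scan (g := fun _ w => w + 1) (acc := fun x _ => free (a x) (C x)) hb (by fun_prop) hR
    (PT.const _) (by fun_prop) fun _ _ _ => sz_free _ _ _

theorem sz_scan {b : ℕ} {acc : List ℕ → ℕ → Option ℕ} (h : ∀ s w, sz (acc s w) ≤ w + 1)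
    (R C : List ℕ) : sz (scan b acc R C).1 + sz (scan b acc R C).2 ≤ sz R + sz C := by
  induction R generalizing C with
  | nil => exact le_rfl
  | cons w R ih =>
    rw [scan]; split_ifs
    · have := ih ((acc C w).toList ++ C)
      have := h C w
      simp only [sz_append, sz_toList, sz_cons, sz_nat] at *; omega
    · exact le_rfl

theorem sz_gst (a : O) (b : ℕ) (R C : List ℕ) :
    sz (gst a b R C).1 + sz (gst a b R C).2 ≤ sz R + sz C := sz_scan (sz_free a) R C

theorem sz_sel (a : O) (b : ℕ) (R C : List ℕ) : sz (sel a b R C).2 ≤ sz R := by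
  have := sz_scan (b := b) (acc := fun _ => free a C) (fun _ => sz_free a C) R []
  simp only [sz_nil, add_zero] at this
  exact le_trans (Nat.le_add_left _ _) this

@[fun_prop] theorem pt_cr {H : α → List Nd} {ρ : α → ℕ} (hH : PT H) (hρ : PT ρ) :
    PT fun x => cr (H x) (ρ x) := by unfold cr; fun_prop

@[fun_prop] theorem pt_hd {y : α → Nd} (hy : PT y) : PT fun x => hd (y x) := by
  unfold hd; fun_prop

@[fun_prop] theorem pt_kids {T : α → List ℕ} {H : α → List Nd} (hT : PT T) (hH : PT H) :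
    PT fun x => kids (T x) (H x) := by unfold kids; fun_prop

theorem pick_mem {a : O} {C : List ℕ} {Y H : List Nd} {j w : ℕ} {ok : List Nd → Nd → Bool}
    {x : Nd} (h : pick a C Y j ok H w = some x) : ∃ y ∈ Y, x = (y.1, y.2.1, w :: y.2.2) ∧
      ok H y ∧ ∀ c ∈ C, a w c = decide (c ∈ y.2.1.take j) := by
  obtain ⟨y, h1, rfl⟩ := Option.map_eq_some_iff.1 h
  have := List.find?_some h1
  simp only [Bool.and_eq_true, List.all_eq_true, beq_iff_eq] at this
  exact ⟨y, List.mem_of_find?_eq_some h1, rfl, this⟩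

theorem sz_node (y : Nd) (w : ℕ) : sz (y.1, y.2.1, w :: y.2.2) = sz y + w + 1 := by
  simp only [sz_pair, sz_cons, sz_nat, sz_prod y, sz_prod y.2]; omega

theorem pt_pscan (ha : PT fun p : α × ℕ × ℕ => a p.1 p.2.1 p.2.2) {b : α → ℕ}
    {R C : α → List ℕ} {Y : α → List Nd} {j : ℕ} {ok : α → List Nd → Nd → Bool} (hb : PT b)
    (hR : PT R) (hC : PT C) (hY : PT Y)
    (hok : PT fun p : α × List Nd × Nd => ok p.1 p.2.1 p.2.2) :
    PT fun x => scan (b x) (pick (a x) (C x) (Y x) j (ok x)) (R x) [] := by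
  refine pt_scan (g := fun x w => sz (Y x) + w + 1) hb (by unfold pick; fun_prop) hR (PT.const _)
    (by fun_prop) fun x t w => ?_
  cases h : pick (a x) (C x) (Y x) j (ok x) t w with
  | none => simp
  | some z =>
    obtain ⟨y, hy, rfl, -⟩ := pick_mem h
    have := sz_lt_of_mem hy
    rw [sz_some, sz_node]; omega

@[fun_prop] theorem pt_cls (ha : PT fun p : α × ℕ × ℕ => a p.1 p.2.1 p.2.2) {b : α → ℕ}
    {R C : α → List ℕ} {Y : α → List Nd} (hb : PT b) (hC : PT C) (hR : PT R) (hY : PT Y) :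
    PT fun x => cls (a x) (b x) (C x) (R x) (Y x) :=
  pt_pscan (ok := fun _ H y => cr H y.1 == 0) ha hb hR hC hY (by fun_prop)

@[fun_prop] theorem pt_ext (ha : PT fun p : α × ℕ × ℕ => a p.1 p.2.1 p.2.2) {g : α → ℕ}
    {C T : α → List ℕ} {s : α → List ℕ × List Nd} (hg : PT g) (hC : PT C) (hT : PT T)
    (hs : PT s) : PT fun x => ext (a x) (g x) (C x) (T x) (s x) :=
  pt_pscan (ok := fun x H y => decide (cr H y.1 < (g x + 1) * cr (s x).2 y.1) &&
    H.all fun x => !(hd x == hd y)) ha (by fun_prop) (by fun_prop) hC (by fun_prop) (by fun_prop)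

/-- size invariant of the tree levels -/
def Nb (z B : ℕ) (s : List ℕ × List Nd) : Prop :=
  sz s.1 ≤ z ∧ s.2.length ≤ z ∧ ∀ x ∈ s.2, sz x ≤ B

theorem nb_pscan {a : O} {C R : List ℕ} {Y : List Nd} {b j z B : ℕ} {ok : List Nd → Nd → Bool}
    (hR : sz R ≤ z) (hY : ∀ y ∈ Y, sz y ≤ B) :
    Nb z (B + z) (scan b (pick a C Y j ok) R []) := by
  refine ⟨(sz_le_of_sublist (scan_suffix R _).sublist).trans hR, (scan_len R _).trans ?_,
    scan_inv (I := fun H => ∀ x ∈ H, sz x ≤ B + z) R _ (by simp) fun H w hw h _ x hx => ?_⟩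
  · simpa using (length_le_sz R).trans hR
  · rcases List.mem_append.1 hx with hx | hx
    · obtain ⟨y, hy, rfl, -⟩ := pick_mem (Option.mem_toList.1 hx)
      have := hY y hy
      have := sz_lt_of_mem hw
      rw [sz_node]; simp only [sz_nat] at this; omega
    · exact h x hx

theorem nb_tree (a : O) (A g : ℕ) (T C R : List ℕ) (r : ℕ) :
    Nb (sz R) (2 * sz T + 3 + sz R + r * (sz T + sz R)) (tree a A g r T C R) := by
  induction r with
  | zero =>
    simp only [zero_mul, add_zero]
    refine nb_pscan le_rfl fun y hy => ?_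
    obtain ⟨u, hu, rfl⟩ := List.mem_map.1 hy
    have := sz_lt_of_mem hu
    simp at this ⊢; omega
  | succ r ih =>
    rw [tree, Function.iterate_succ_apply', ← tree, show 2 * sz T + 3 + sz R + (r + 1) *
      (sz T + sz R) = 2 * sz T + 3 + sz R + r * (sz T + sz R) + sz T + sz R by ring]
    refine nb_pscan ih.1 fun y hy => ?_
    simp only [kids, List.mem_flatMap, List.mem_map] at hy
    obtain ⟨x, hx, u, hu, rfl⟩ := hy
    have h1 := sz_lt_of_mem hu
    have h2 := ih.2.2 x hx
    simp only [sz_pair, sz_cons, sz_nat, sz_prod x, sz_prod x.2] at h1 h2 ⊢; omega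

theorem Nb.sz_le {z B : ℕ} {s : List ℕ × List Nd} (h : Nb z B s) : sz s.2 ≤ z * (B + 1) :=
  (sz_list_le h.2.2).trans (Nat.mul_le_mul_right _ h.2.1)

@[fun_prop] theorem pt_tree (ha : PT fun p : α × ℕ × ℕ => a p.1 p.2.1 p.2.2) {A g r : α → ℕ}
    {T C R : α → List ℕ} (hA : PT A) (hg : PT g) (hr : PT r) (hT : PT T) (hC : PT C)
    (hR : PT R) : PT fun x => tree (a x) (A x) (g x) (r x) (T x) (C x) (R x) := by
  refine PT.iterate (step := fun x => ext (a x) (g x) (C x) (T x)) hr (by fun_prop) (by fun_prop)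
    (B := fun x => sz (R x) + sz (R x) * (2 * sz (T x) + 3 + sz (R x) + r x *
      (sz (T x) + sz (R x)) + 1) + 1) (PT.pb_nat (by fun_prop)) fun x i hi => ?_
  have h := nb_tree (a x) (A x) (g x) (T x) (C x) (R x) i
  have h1 := h.sz_le
  have h2 := h.1
  rw [← tree, sz_prod]
  refine Nat.succ_le_succ (Nat.add_le_add h2 (h1.trans ?_))
  gcongr

@[fun_prop] theorem pt_swp (ha : PT fun p : α × ℕ × ℕ => a p.1 p.2.1 p.2.2) {A g r N : α → ℕ}
    {T : α → List ℕ} {s : α → List ℕ × List ℕ} (hA : PT A) (hg : PT g) (hr : PT r) (hN : PT N)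
    (hT : PT T) (hs : PT s) : PT fun x => swp (a x) (A x) (g x) (r x) (N x) (T x) (s x) := by
  have h1 : PT fun x => clo (a x) (N x) (s x).2 (tree (a x) (A x) (g x) (r x)
      ((T x).filter fun u => decide (u ∈ (s x).2)) (s x).2 (s x).1) := by
    unfold clo; fun_prop
  have h2 : PT fun p : α × List ℕ × List Nd => fin (a p.1) (N p.1) (s p.1).2 p.2 := by
    unfold fin com; fun_prop
  exact h2.comp (PT.id.prodMk h1)

def Wb (r t z : ℕ) : ℕ := z * (2 * t + 4 + 2 * z + r * (t + z))

theorem sz_flatMap_le (H : List Nd) : sz (H.flatMap fun x => x.2.2) ≤ sz H := by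
  induction H with
  | nil => simp
  | cons x H ih => simp only [List.flatMap_cons, sz_append, sz_cons, sz_prod x, sz_prod x.2]; omega

theorem sz_swp (a : O) (A g r N : ℕ) (T : List ℕ) (s : List ℕ × List ℕ) {z : ℕ} (hz : sz s.1 ≤ z) :
    sz (swp a A g r N T s).1 ≤ sz s.1 ∧ sz (swp a A g r N T s).2 ≤ sz s.2 + Wb r (sz T) z := by
  set T' := T.filter fun u => decide (u ∈ s.2)
  have hT : sz T' ≤ sz T := sz_le_of_sublist List.filter_sublist
  have h := nb_tree a A g T' s.2 s.1 r
  have h1 : Nb _ _ (clo a N s.2 (tree a A g r T' s.2 s.1)) := nb_pscan h.1 h.2.2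
  refine ⟨h1.1, ?_⟩
  unfold swp fin com
  generalize clo a N s.2 (tree a A g r T' s.2 s.1) = u at h1
  have h2 : sz (if u.2.length < 2 * N then [] else u.2) ≤ Wb r (sz T) z := by
    split_ifs
    · simp
    · refine h1.sz_le.trans ?_
      have : r * (sz T' + sz s.1) ≤ r * (sz T + z) := by gcongr
      exact Nat.mul_le_mul hz (by omega)
  generalize (if u.2.length < 2 * N then [] else u.2) = H at h2
  have h3 := sz_gst a (s.2.length + N) (H.flatMap fun x => x.2.2)
    (s.2.filter fun c => decide (c ∉ H.flatMap fun x => x.2.1))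
  have h4 := sz_flatMap_le H
  have h5 : sz (s.2.filter fun c => decide (c ∉ H.flatMap fun x => x.2.1)) ≤ sz s.2 :=
    sz_le_of_sublist List.filter_sublist
  dsimp only; omega

theorem sz_gro (a : O) (N : ℕ) (s : List ℕ × List ℕ) : sz (gro a N s) ≤ sz s + 0 := by
  have := sz_gst a (s.2.length + N) s.1 s.2
  rw [sz_prod, sz_prod s]; unfold gro; omega

@[fun_prop] theorem pt_rnd (ha : PT fun p : α × ℕ × ℕ => a p.1 p.2.1 p.2.2)
    {A g r N h m : α → ℕ} {P T : α → List ℕ} (hA : PT A) (hg : PT g) (hr : PT r) (hN : PT N)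
    (hh : PT h) (hm : PT m) (hP : PT P) (hT : PT T) :
    PT fun x => rnd (a x) (A x) (g x) (r x) (N x) (h x) (m x) (P x) (T x) := by
  have h1 : PT fun x => (gro (a x) (N x))^[h x] ((P x).take ((P x).length / 2), T x) :=
    PT.iterate_add (step := fun x => gro (a x) (N x)) hh (by fun_prop) (by unfold gro; fun_prop)
      (PB.const 0) fun _ _ => sz_gro _ _ _
  refine PT.snd (pt_iter (step := fun x => swp (a x) (A x) (g x) (r x) (N x) (T x)) hm
    (by fun_prop) (by fun_prop) (C := fun x => Wb (r x) (sz (T x)) (sz (P x)))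
    (by unfold Wb; fun_prop) (fun x s => sz s.1 ≤ sz (P x))
    (fun x => sz_le_of_sublist (List.drop_sublist _ _)) fun x s hs => ?_)
  have := sz_swp (a x) (A x) (g x) (r x) (N x) (T x) s hs
  rw [sz_prod, sz_prod s]; omega

theorem sz_rnd (a : O) (A g r N h m : ℕ) (P T : List ℕ) {z : ℕ} (hz : sz P ≤ z) :
    sz (rnd a A g r N h m P T) ≤ 2 * z + sz T + 2 + m * Wb r (sz T) z := by
  have h1 := (PT.iterate_sz_add (I := fun _ => True) (x := (P.take (P.length / 2), T)) trivial
    (fun _ _ => trivial) (fun y _ => sz_gro a N y) h).2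
  have h3 : sz (P.drop (P.length / 2)) ≤ sz P := sz_le_of_sublist (List.drop_sublist _ _)
  have h4 : sz (P.take (P.length / 2)) ≤ sz P := sz_le_of_sublist (List.take_sublist _ _)
  unfold rnd
  generalize (gro a N)^[h] _ = u at h1
  have h2 := (PT.iterate_sz_add (I := fun s => sz s.1 ≤ z) (step := swp a A g r N T)
    (C := Wb r (sz T) z) (x := (P.drop (P.length / 2), u.2)) (h3.trans hz)
    (fun y h => (sz_swp a A g r N T y h).1.trans h) (fun y h => by
      have := sz_swp a A g r N T y h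
      rw [sz_prod, sz_prod y]; omega) m).2
  rw [sz_prod] at h1 h2
  simp only [sz_pair] at h1 h2
  omega

@[fun_prop] theorem pt_out {X G : α → List ℕ} (hX : PT X) (hG : PT G) :
    PT fun x => out (X x) (G x) := by unfold out; fun_prop

theorem sz_out (X G : List ℕ) : sz (out X G) ≤ sz X := sz_le_of_sublist List.filter_sublist

theorem sz_tst (a : O) (s s' : ℕ) (Q : List ℕ) (x : List ℕ × List (List ℕ)) (T : List ℕ) :
    sz (tst a s s' Q x T).1 ≤ sz x.1 + sz Q ∧
      sz (tst a s s' Q x T).2 ≤ sz x.2 + (sz T + 1 + sz Q) := by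
  have h1 := (sz_sel a s (out Q x.1) T).trans (sz_out _ _)
  have h2 := sz_gst a (T.length + s') (sel a s (out Q x.1) T).2 T
  simp only [tst, tad, sz_append, sz_cons]; omega

@[fun_prop] theorem pt_lay (ha : PT fun p : α × ℕ × ℕ => a p.1 p.2.1 p.2.2) {s s' y j : α → ℕ}
    {Ts : α → List (List ℕ)} (hs : PT s) (hs' : PT s') (hy : PT y) (hT : PT Ts) (hj : PT j) :
    PT fun x => lay (a x) (s x) (s' x) (y x) (Ts x) (j x) := by
  refine PT.snd (PT.foldl_add' (f := fun x => tst (a x) (s x) (s' x) (List.range' (j x * y x) (y x)))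
    (g := fun x T => 2 * sz (List.range' (j x * y x) (y x)) + sz T + 1) hT (PT.const _)
    (by unfold tst tad; fun_prop) (by fun_prop) fun x u T => ?_)
  have := sz_tst (a x) (s x) (s' x) (List.range' (j x * y x) (y x)) u T
  rw [sz_prod, sz_prod u]; omega

theorem sz_lay (a : O) (s s' : ℕ) (Q : List ℕ) (Ts : List (List ℕ)) (x : List ℕ × List (List ℕ)) :
    (Ts.foldl (tst a s s' Q) x).2.length = x.2.length + Ts.length ∧
      sz (Ts.foldl (tst a s s' Q) x).2 ≤ sz x.2 + sz Ts + Ts.length * sz Q := by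
  induction Ts generalizing x with
  | nil => simp
  | cons T Ts ih =>
    have h1 := ih (tst a s s' Q x T)
    have h2 := (sz_tst a s s' Q x T).2
    have h3 : (tst a s s' Q x T).2.length = x.2.length + 1 := rfl
    simp only [List.foldl_cons, List.length_cons, sz_cons]
    refine ⟨by omega, by nlinarith [h1.2]⟩

@[fun_prop] theorem pt_tbd (ha : PT fun p : α × ℕ × ℕ => a p.1 p.2.1 p.2.2) {k J s s' y : α → ℕ}
    (hk : PT k) (hJ : PT J) (hs : PT s) (hs' : PT s') (hy : PT y) :
    PT fun x => tbd (a x) (k x) (J x) (s x) (s' x) (y x) := by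
  refine PT.foldl (f := fun x => lay (a x) (s x) (s' x) (y x)) (by fun_prop) (by fun_prop)
    (by fun_prop) (B := fun x => sz (List.replicate (k x) ([] : List ℕ)) + J x *
      (k x * (y x * (J x * y x + y x + 1)))) (PT.pb_nat (by fun_prop)) fun x i => ?_
  refine (sz_foldl_inv (I := fun Ts => Ts.length = k x)
    (C := k x * (y x * (J x * y x + y x + 1))) _ _ (by simp) fun Ts j hj h => ?_).trans ?_
  · have h1 := sz_lay (a x) (s x) (s' x) (List.range' (j * y x) (y x)) Ts ([], [])
    have h2 : j < J x := List.mem_range.1 (List.mem_of_mem_take hj)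
    have h3 : sz (List.range' (j * y x) (y x)) ≤ y x * (J x * y x + y x + 1) := by
      refine (sz_list_le (B := J x * y x + y x) fun v hv => ?_).trans (by simp)
      have := (List.mem_range'_1.1 hv).2
      have : j * y x ≤ J x * y x := by gcongr
      simp; omega
    simp only [List.length_nil, zero_add, sz_nil, h] at h1
    exact ⟨h1.1, h1.2.trans (by gcongr)⟩
  · gcongr
    simp

@[fun_prop] theorem pt_xph (ha : PT fun p : α × ℕ × ℕ => a p.1 p.2.1 p.2.2)
    {A g r N h m : α → ℕ} {P : α → List ℕ} {Ts : α → List (List ℕ)} (hA : PT A) (hg : PT g)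
    (hr : PT r) (hN : PT N) (hh : PT h) (hm : PT m) (hP : PT P) (hT : PT Ts) :
    PT fun x => xph (a x) (A x) (g x) (r x) (N x) (h x) (m x) (P x) (Ts x) := by
  refine PT.foldl_add' (f := fun x => xst (a x) (A x) (g x) (r x) (N x) (h x) (m x) (P x))
    (g := fun x T => 2 * sz (P x) + sz T + 2 + m x * Wb (r x) (sz T) (sz (P x)) + 1) hT
    (PT.const _) (by unfold xst; fun_prop) (by unfold Wb; fun_prop) fun x Cs T => ?_
  have := sz_rnd (a x) (A x) (g x) (r x) (N x) (h x) (m x) _ T (sz_out (P x) Cs.flatten)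
  simp only [xst, sz_cons]; omega

@[fun_prop] theorem pt_big {J y h : α → ℕ} {Al : α → List ℕ} {Cs : α → List (List ℕ)}
    (hJ : PT J) (hy : PT y) (hh : PT h) (hA : PT Al) (hC : PT Cs) :
    PT fun x => big (J x) (y x) (h x) (Al x) (Cs x) := by unfold big pool; fun_prop

@[fun_prop] theorem pt_bph (ha : PT fun p : α × ℕ × ℕ => a p.1 p.2.1 p.2.2)
    {J y N h : α → ℕ} {Al : α → List ℕ} {Cs : α → List (List ℕ)} (hJ : PT J) (hy : PT y)
    (hN : PT N) (hh : PT h) (hA : PT Al) (hC : PT Cs) :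
    PT fun x => bph (a x) (J x) (y x) (N x) (h x) (Al x) (Cs x) := by
  refine PT.iterate_add (step := fun x => bst (a x) (J x) (y x) (N x) (h x) (Al x)) hA.length hC
    (by unfold bst; fun_prop) (C := fun x => 2 * sz (Al x) + 3) (PT.pb_nat (by fun_prop))
    fun x Cs => ?_
  have := sz_rnd (a x) 0 0 0 (N x) (h x) 0 (big (J x) (y x) (h x) (Al x) Cs) []
    ((sz_le_of_sublist List.filter_sublist).trans (sz_out (Al x) Cs.flatten))
  unfold bst
  split_ifs
  · simp only [sz_cons, sz_nil, zero_mul] at this ⊢; omega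
  · omega

@[fun_prop] theorem pt_gcol (ha : PT fun p : α × ℕ × ℕ => a p.1 p.2.1 p.2.2) {K : α → ℕ}
    {G : α → List ℕ} (hK : PT K) (hG : PT G) : PT fun x => gcol (a x) (K x) (G x) := by
  have h1 : PT fun x => (peel (a x) (K x) (G x))^[(G x).length] [] := by
    refine PT.iterate_add (step := fun x => peel (a x) (K x) (G x)) hG.length (PT.const _)
      (by unfold peel; fun_prop) hG.pb fun x St => ?_
    rw [peel, sz_append, sz_toList]
    cases h : List.find? _ _ with
    | none => simp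
    | some v =>
      have := sz_lt_of_mem (List.mem_of_mem_filter (List.mem_of_find?_eq_some h))
      rw [sz_some]; omega
  refine PT.foldl_add' (f := fun x => ins (a x) (K x)) (g := fun x v => v + K x + 2) h1
    (PT.const _) (by unfold ins; fun_prop) (by fun_prop) fun x col v => ?_
  rw [ins]
  cases h : List.find? _ _ with
  | none => simp; omega
  | some c =>
    have := List.mem_range.1 (List.mem_of_find?_eq_some h)
    simp; omega

@[fun_prop] theorem pt_asg (ha : PT fun p : α × ℕ × ℕ => a p.1 p.2.1 p.2.2) {n K : α → ℕ}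
    {Cs : α → List (List ℕ)} (hn : PT n) (hK : PT K) (hC : PT Cs) :
    PT fun x => asg (a x) (n x) (K x) (Cs x) := by unfold asg; fun_prop

@[fun_prop] theorem pt_look {n : α → ℕ} {l : α → List (ℕ × ℕ)} (hn : PT n) (hl : PT l) :
    PT fun x => look (n x) (l x) := by unfold look; fun_prop

@[fun_prop] theorem pt_xb (ha : PT fun p : α × ℕ × ℕ => a p.1 p.2.1 p.2.2)
    {n J y A g r N h m : α → ℕ} {Ts : α → List (List ℕ)} (hn : PT n) (hJ : PT J) (hy : PT y)
    (hA : PT A) (hg : PT g) (hr : PT r) (hN : PT N) (hh : PT h) (hm : PT m) (hT : PT Ts) :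
    PT fun x => xb (a x) (n x) (J x) (y x) (A x) (g x) (r x) (N x) (h x) (m x) (Ts x) := by
  unfold xb; fun_prop

@[fun_prop] theorem pt_run (ha : PT fun p : α × ℕ × ℕ => a p.1 p.2.1 p.2.2) {n : α → ℕ}
    {q : α → List ℕ} (hn : PT n) (hq : PT q) : PT fun x => run (a x) (n x) (q x) := by
  unfold run classes; fun_prop

@[fun_prop] theorem pt_tup {n : α → ℕ} (hn : PT n) (i : ℕ) : PT fun x => tup (n x) i := by
  induction i with
  | zero => exact PT.const _
  | succ i ih => unfold tup; fun_prop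

@[fun_prop] theorem pt_valid (ha : PT fun p : α × ℕ × ℕ => a p.1 p.2.1 p.2.2) {n k : α → ℕ}
    {c : α → List ℕ} (hn : PT n) (hk : PT k) (hc : PT c) :
    PT fun x => valid (a x) (n x) (k x) (c x) := by unfold valid; fun_prop

theorem pt_outs (ha : PT fun p : α × ℕ × ℕ => a p.1 p.2.1 p.2.2) {n : α → ℕ} (hn : PT n) :
    PT fun x => outs (a x) (n x) :=
  PT.append (PT.map (pt_tup hn 12) (by fun_prop))
    (PT.map (f := fun x K => look (n x) (asg (a x) (n x) K [])) (by fun_prop) (by fun_prop))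

theorem pt_best (ha : PT fun p : α × ℕ × ℕ => a p.1 p.2.1 p.2.2) {n : α → ℕ}
    {l : α → List (List ℕ)} (hn : PT n) (hl : PT l) : PT fun x => best (a x) (n x) (l x) := by
  unfold best; fun_prop

theorem pt_alg : PT fun M => alg M := by
  have ha : PT fun p : List (List Bool) × ℕ × ℕ => ad p.1 p.2.1 p.2.2 := by unfold ad; fun_prop
  unfold alg
  exact pt_best ha (PT.length PT.id) (pt_outs ha (PT.length PT.id))

theorem alg_poly : N68a2faeb.IsPolyTime alg :=
  isPolyTime_of_rep (f' := fun M => (alg M).map fun c : ℕ => (c : ℤ))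
    (PT.map (f := fun _ (c : ℕ) => (c : ℤ)) pt_alg (by fun_prop)) fun M => by
      have : (Rep.up M : List (List Bool)) = M :=
        (List.map_congr_left fun l _ => up_str l).trans (List.map_id _)
      rw [this]
      simp [Function.comp_def]

end Pool.Agent.Lib.MP_1b5cbf_lc
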