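import Mathlib

/-! The binomial random graph as a law on adjacency oracles; resampling on a stopping set. -/

set_option autoImplicit false

namespace Pool.Agent.Lib.MP_1b5cbf_lc

open Finset Classical

noncomputable section

abbrev A := Sym2 ℕ → Bool
abbrev Fr := Set (Sym2 ℕ)

def mix (F : Fr) (η ω : A) : A := fun e => if e ∈ F then ω e else η e

theorem mix_in {F : Fr} {e : Sym2 ℕ} (h : e ∈ F) (η ω : A) : mix F η ω e = ω e := if_pos h
theorem mix_out {F : Fr} {e : Sym2 ℕ} (h : e ∉ F) (η ω : A) : mix F η ω e = η e := if_neg h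

theorem mix_mix {F G : Fr} (h : G ⊆ F) (η ω ω' : A) :
    mix F η (mix G ω ω') = mix G (mix F η ω) ω' := by
  funext e
  by_cases h1 : e ∈ G
  · simp [mix, h1, h h1]
  · simp [mix, h1]

theorem mix_sub {F G : Fr} (h : G ⊆ F) (a ω : A) : mix G a ω = mix F a (mix G a ω) := by
  funext e
  by_cases h1 : e ∈ F
  · simp [mix, h1]
  · simp [mix, h1, show e ∉ G from fun h2 => h1 (h h2)]

def ind (P : Prop) : ℝ := if P then 1 else 0

theorem ind_nonneg (P : Prop) : 0 ≤ ind P := by unfold ind; split_ifs <;> norm_num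
theorem ind_le_one (P : Prop) : ind P ≤ 1 := by unfold ind; split_ifs <;> norm_num
theorem ind_pos {P : Prop} (h : P) : ind P = 1 := if_pos h
theorem ind_neg {P : Prop} (h : ¬P) : ind P = 0 := if_neg h
theorem ind_mono {P Q : Prop} (h : P → Q) : ind P ≤ ind Q := by
  by_cases hp : P
  · rw [ind_pos hp, ind_pos (h hp)]
  · rw [ind_neg hp]; exact ind_nonneg _

abbrev Ed (n : ℕ) := (⊤ : SimpleGraph (Fin n)).edgeSet

def emb {n : ℕ} (e : Ed n) : Sym2 ℕ := e.1.map Fin.val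

theorem emb_inj {n : ℕ} : Function.Injective (emb (n := n)) := fun _ _ h =>
  Subtype.ext (Sym2.map.injective Fin.val_injective h)

def toA {n : ℕ} (ω : Ed n → Bool) : A := Function.extend emb ω fun _ => false

theorem toA_emb {n : ℕ} (ω : Ed n → Bool) (i : Ed n) : toA ω (emb i) = ω i :=
  emb_inj.extend_apply _ _ _

theorem toA_not {n : ℕ} (ω : Ed n → Bool) {e : Sym2 ℕ} (h : ¬∃ i : Ed n, emb i = e) :
    toA ω e = false := Function.extend_apply' _ _ _ h

def wt {n : ℕ} (p : ℝ) (ω : Ed n → Bool) : ℝ := ∏ i, if ω i then p else 1 - p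

structure Pm where
  n : ℕ
  p : ℝ
  h0 : 0 ≤ p
  h1 : p ≤ 1

variable (μ : Pm)

def E (g : A → ℝ) : ℝ := ∑ ω : Ed μ.n → Bool, wt μ.p ω * g (toA ω)

theorem wt_nonneg (ω : Ed μ.n → Bool) : 0 ≤ wt μ.p ω :=
  prod_nonneg fun i _ => by have := μ.h0; have := μ.h1; split_ifs <;> linarith

theorem sum_prod (f : Ed μ.n → Bool → ℝ) :
    ∑ ω : Ed μ.n → Bool, wt μ.p ω * ∏ i, f i (ω i) =
      ∏ i, (μ.p * f i true + (1 - μ.p) * f i false) := by
  have := prod_univ_sum (fun _ : Ed μ.n => (univ : Finset Bool))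
    fun i b => (if b then μ.p else 1 - μ.p) * f i b
  simp only [Fintype.piFinset_univ, prod_mul_distrib] at this
  rw [show (∑ ω : Ed μ.n → Bool, wt μ.p ω * ∏ i, f i (ω i)) = _ from this.symm]
  simp

variable {μ}

theorem E_mono {f g : A → ℝ} (h : ∀ a, f a ≤ g a) : E μ f ≤ E μ g :=
  sum_le_sum fun ω _ => mul_le_mul_of_nonneg_left (h _) (wt_nonneg μ ω)

theorem E_add (f g : A → ℝ) : E μ (fun a => f a + g a) = E μ f + E μ g := by
  simp [E, mul_add, sum_add_distrib]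

theorem E_mul (c : ℝ) (f : A → ℝ) : E μ (fun a => c * f a) = c * E μ f := by
  simp only [E, mul_sum]; exact sum_congr rfl fun _ _ => by ring

theorem E_const (c : ℝ) : E μ (fun _ => c) = c := by
  have := sum_prod μ fun _ _ => 1
  simp only [prod_const_one, mul_one, add_sub_cancel] at this
  rw [E, ← sum_mul, this, one_mul]

theorem E_sum {ι : Type} (s : Finset ι) (f : ι → A → ℝ) :
    E μ (fun a => ∑ i ∈ s, f i a) = ∑ i ∈ s, E μ (f i) := by
  simp only [E, mul_sum]; exact sum_comm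

theorem E_le {f : A → ℝ} {c : ℝ} (h : ∀ a, f a ≤ c) : E μ f ≤ c :=
  (E_mono h).trans (E_const c).le

theorem E_nonneg {f : A → ℝ} (h : ∀ a, 0 ≤ f a) : 0 ≤ E μ f :=
  (E_const (μ := μ) 0).ge.trans (E_mono h)

/-- resampling on a stopping set -/
theorem stop (Fs : A → Fr) (h : ∀ η ω, Fs (mix (Fs η) η ω) = Fs η) (g : A → ℝ) :
    E μ (fun η => E μ fun ω => g (mix (Fs η) η ω)) = E μ g := by
  let m : Fr → (Ed μ.n → Bool) → (Ed μ.n → Bool) → Ed μ.n → Bool :=
    fun F x y i => if emb i ∈ F then y i else x i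
  have hm : ∀ F x y, toA (m F x y) = mix F (toA x) (toA y) := by
    intro F x y
    funext e
    by_cases he : ∃ i : Ed μ.n, emb i = e
    · obtain ⟨i, rfl⟩ := he
      simp only [toA_emb, mix, m]
    · simp [mix, toA_not _ he]
  let Φ : (Ed μ.n → Bool) × (Ed μ.n → Bool) → (Ed μ.n → Bool) × (Ed μ.n → Bool) :=
    fun x => (m (Fs (toA x.1)) x.1 x.2, m (Fs (toA x.1)) x.2 x.1)
  have hΦ : Function.Involutive Φ := by
    intro x
    simp only [Φ, hm, h]
    refine Prod.ext ?_ ?_ <;> funext i <;> simp only [m] <;> split_ifs <;> rfl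
  have hw : ∀ x, wt μ.p (Φ x).1 * wt μ.p (Φ x).2 = wt μ.p x.1 * wt μ.p x.2 := by
    intro x
    simp only [wt, ← prod_mul_distrib, Φ, m]
    refine prod_congr rfl fun i _ => ?_
    by_cases hi : emb i ∈ Fs (toA x.1)
    · simp only [hi, if_true]; ring
    · simp only [hi, if_false]
  have e1 := Equiv.sum_comp hΦ.toPerm fun x => wt μ.p x.1 * wt μ.p x.2 * g (toA x.1)
  simp only [Function.Involutive.coe_toPerm, hw] at e1
  have e2 : E μ g = E μ fun η => E μ fun _ => g η := by simp only [E_const]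
  rw [e2]
  simp only [E, mul_sum, ← mul_assoc]
  rw [← Fintype.sum_prod_type', ← Fintype.sum_prod_type', ← e1]
  simp only [Φ, hm]

def Vd (n : ℕ) (e : Sym2 ℕ) : Prop := ∃ i : Ed n, emb i = e

theorem vd_of {n u v : ℕ} (hu : u < n) (hv : v < n) (h : u ≠ v) : Vd n s(u, v) :=
  ⟨⟨s(⟨u, hu⟩, ⟨v, hv⟩), by simpa using h⟩, rfl⟩

theorem E_coord (e : Sym2 ℕ) (f : Bool → ℝ) : E μ (fun a => f (a e)) =
    if Vd μ.n e then μ.p * f true + (1 - μ.p) * f false else f false := by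
  split_ifs with h
  · obtain ⟨i, rfl⟩ := h
    have := sum_prod μ fun j b => if j = i then f b else 1
    simp only [prod_ite_eq', mem_univ, if_true] at this
    simp only [E, toA_emb, this]
    rw [prod_eq_single i] <;> simp +contextual
  · simp only [E, toA_not _ h]
    exact E_const (μ := μ) _

theorem E_prod {ι : Type} (I : Finset ι) (φ : ι → Sym2 ℕ) (hφ : Set.InjOn φ I)
    (f : ι → Bool → ℝ) :
    E μ (fun a => ∏ i ∈ I, f i (a (φ i))) = ∏ i ∈ I, E μ fun a => f i (a (φ i)) := by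
  induction I using Finset.induction_on with
  | empty => simp [E_const]
  | insert j I hj ih =>
    rw [← stop (fun _ => {φ j}) fun _ _ => rfl, prod_insert hj,
      ← ih (hφ.mono (by simp)), ← E_mul]
    congr 1
    funext η
    rw [mul_comm, ← E_mul]
    congr 1
    funext ω
    rw [prod_insert hj, mix_in (Set.mem_singleton _), mul_comm]
    congr 1
    refine prod_congr rfl fun i hi => ?_
    rw [mix_out]
    intro h
    exact hj (hφ (by simp [hi]) (by simp) h ▸ hi)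

/-- fresh or a known non-edge -/
def ok (F : Fr) (a : A) (e : Sym2 ℕ) : Prop := e ∈ F ∨ a e = false
/-- a known non-edge -/
def no (F : Fr) (a : A) (e : Sym2 ℕ) : Prop := e ∉ F ∧ a e = false

/-- probability of a neighbourhood pattern -/
theorem pattern {F : Fr} {η : A} {w j : ℕ} (C : List ℕ) (S : Finset ℕ) (K : ℕ → Prop)
    (hS : ∀ c ∈ S, s(w, c) ∈ F ∧ Vd μ.n s(w, c)) (hj : #S ≤ j)
    (hC : ∀ c ∈ C, ok F η s(w, c)) (hK : ∀ c, K c → s(w, c) ∉ F) :
    μ.p ^ j * (1 - μ.p) ^ (C.filter fun c => ¬K c).length ≤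
      E μ fun ω => ind (∀ c ∈ C, mix F η ω s(w, c) = decide (c ∈ S)) := by
  have h0 := μ.h0
  have h1 := μ.h1
  set I := C.toFinset.filter fun c => s(w, c) ∈ F
  have := E_prod (μ := μ) I (fun c => s(w, c)) (fun c _ c' _ h => Sym2.congr_right.1 h)
    fun c b => ind (b = decide (c ∈ S))
  refine le_trans ?_ (this.ge.trans (E_mono fun ω => ?_))
  · have h2 : ∏ c ∈ I, (if c ∈ S then μ.p else 1 - μ.p) ≤
        ∏ c ∈ I, E μ fun a => ind (a s(w, c) = decide (c ∈ S)) := by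
      refine prod_le_prod (fun c _ => by split_ifs <;> linarith) fun c _ => ?_
      rw [E_coord s(w, c) fun b => ind (b = decide (c ∈ S))]
      by_cases hc : c ∈ S
      · simp [hc, (hS c hc).2, ind]
      · simp only [hc, decide_false, if_false]
        rw [ind_neg (P := true = false) (by simp), ind_pos trivial]
        split_ifs <;> linarith
    refine le_trans ?_ h2
    rw [prod_ite, prod_const, prod_const]
    refine mul_le_mul (pow_le_pow_of_le_one h0 h1 ((card_le_card fun c hc => ?_).trans hj))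
      (pow_le_pow_of_le_one (by linarith) (by linarith) ((card_le_card fun c hc => ?_).trans
        (List.toFinset_card_le _))) (pow_nonneg (by linarith) _) (pow_nonneg h0 _)
    · exact (mem_filter.1 hc).2
    · simp only [I, mem_filter, List.mem_toFinset, List.mem_filter, decide_eq_true_eq] at hc ⊢
      exact ⟨hc.1.1, fun h => hK c h hc.1.2⟩
  · by_cases h : ∀ c ∈ I, ω s(w, c) = decide (c ∈ S)
    · rw [ind_pos (P := ∀ c ∈ C, _)]
      · exact prod_le_one (fun _ _ => ind_nonneg _) fun _ _ => ind_le_one _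
      · intro c hc
        by_cases hF : s(w, c) ∈ F
        · rw [mix_in hF]; exact h c (by simp [I, hc, hF])
        · rw [mix_out hF, (hC c hc).resolve_left hF, decide_eq_false fun h => hF (hS c h).1]
    · push Not at h
      obtain ⟨c, hc, h⟩ := h
      rw [prod_eq_zero hc (ind_neg h)]
      exact ind_nonneg _

/-! ### Hoare logic with a ghost set of fresh pairs -/

def Ext (F : Fr) (η : A) (F' : Fr) (a : A) : Prop := F' ⊆ F ∧ ∀ e, e ∉ F → a e = η e

theorem Ext.ok {F F' : Fr} {η a : A} (h : Ext F η F' a) {e : Sym2 ℕ} (h1 : ok F η e)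
    (h2 : e ∈ F → e ∈ F') : ok F' a e := by
  by_cases he : e ∈ F
  · exact Or.inl (h2 he)
  · exact Or.inr (h.2 e he ▸ h1.resolve_left he)

theorem Ext.no {F F' : Fr} {η a : A} (h : Ext F η F' a) {e : Sym2 ℕ} (h1 : no F η e) :
    no F' a e := ⟨fun h2 => h1.1 (h.1 h2), h.2 e h1.1 ▸ h1.2⟩

variable (μ) in
def Tr {S : Type} (F : Fr) (f : A → S) (Φ : S → Fr → A → ℝ) (B : A → ℝ) : Prop :=
  ∃ φ : A → Fr, (∀ a, φ a ⊆ F) ∧
    (∀ a ω, f (mix (φ a) a ω) = f a ∧ φ (mix (φ a) a ω) = φ a) ∧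
    ∀ η, E μ (fun ω => Φ (f (mix F η ω)) (φ (mix F η ω)) (mix F η ω)) ≤ B η

variable {S S' : Type} {F : Fr}

theorem Tr.bind {f : A → S} {g : S → A → S'} {Φ : S → Fr → A → ℝ} {Ψ : S' → Fr → A → ℝ}
    {B : A → ℝ} (h1 : Tr μ F f Φ B) (h2 : ∀ s F', Tr μ F' (g s) Ψ (Φ s F')) :
    Tr μ F (fun a => g (f a) a) Ψ B := by
  obtain ⟨φ, a1, a2, a3⟩ := h1
  choose ψ b1 b2 b3 using h2
  have key : ∀ a ω, f (mix (ψ (f a) (φ a) a) a ω) = f a ∧ φ (mix (ψ (f a) (φ a) a) a ω) = φ a :=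
    fun a ω => by rw [mix_sub (b1 _ _ _)]; exact a2 _ _
  refine ⟨fun a => ψ (f a) (φ a) a, fun a => (b1 _ _ _).trans (a1 a), fun a ω => ?_, fun η => ?_⟩
  · simp only [key]; exact b2 _ _ _ _
  · refine le_trans ?_ (a3 η)
    rw [← stop (fun ω => φ (mix F η ω)) fun ω ω' => by rw [mix_mix (a1 _), (a2 _ _).2]]
    refine E_mono fun ω => ?_
    simp only [mix_mix (a1 _), a2]
    exact b3 _ _ _

theorem Tr.mono {f : A → S} {Φ Ψ : S → Fr → A → ℝ} {B B' : A → ℝ} (h : Tr μ F f Φ B)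
    (h' : ∀ η, (∀ s F' a, Ψ s F' a ≤ B' η) ∨ ∃ c, B η + c ≤ B' η ∧
      ∀ a F', Ext F η F' a → Ψ (f a) F' a ≤ Φ (f a) F' a + c) : Tr μ F f Ψ B' := by
  obtain ⟨φ, a1, a2, a3⟩ := h
  refine ⟨φ, a1, a2, fun η => ?_⟩
  rcases h' η with h' | ⟨c, h1, h2⟩
  · exact E_le fun _ => h' _ _ _
  · refine (E_mono fun ω => h2 _ _ ⟨a1 _, fun e he => mix_out he _ _⟩).trans ?_
    rw [E_add, E_const]
    linarith [a3 η]

theorem Tr.triv {f : A → S} {Φ : S → Fr → A → ℝ} {B : A → ℝ} (h : ∀ η s F' a, Φ s F' a ≤ B η) :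
    Tr μ F f Φ B :=
  ⟨fun _ => ∅, fun _ => Set.empty_subset _, fun a ω => by
    rw [show mix ∅ a ω = a from funext fun e => mix_out (by simp) _ _]; exact ⟨rfl, rfl⟩,
    fun η => E_le fun _ => h η _ _ _⟩

theorem Tr.read {f : A → S} {Φ : S → Fr → A → ℝ} {B : A → ℝ} (D : Fr)
    (h1 : ∀ a a', (∀ e ∈ D, a e = a' e) → f a = f a')
    (h2 : ∀ η, E μ (fun ω => Φ (f (mix F η ω)) (F \ D) (mix F η ω)) ≤ B η) : Tr μ F f Φ B :=
  ⟨fun _ => F \ D, fun _ => Set.sdiff_subset,
    fun _ _ => ⟨h1 _ _ fun _ he => mix_out (fun h => h.2 he) _ _, rfl⟩, h2⟩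

variable (μ) in
def TP (δ : ℝ) (F : Fr) (P : A → Prop) (f : A → S) (Q : S → Fr → A → Prop) : Prop :=
  Tr μ F f (fun s F' a => ind (¬Q s F' a)) fun η => δ + ind (¬P η)

variable {δ δ' : ℝ} {P P' : A → Prop}

theorem TP.conseq {f : A → S} {Q Q' : S → Fr → A → Prop} (h : TP μ δ F P f Q) (hδ : δ ≤ δ')
    (h0 : 0 ≤ δ') (h' : ∀ η, P' η → P η ∧ ∀ a F', Ext F η F' a → Q (f a) F' a → Q' (f a) F' a) :
    TP μ δ' F P' f Q' := by
  refine Tr.mono h fun η => ?_
  by_cases hp : P' η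
  · refine Or.inr ⟨0, ?_, fun a F' he => ?_⟩
    · rw [ind_neg (not_not.2 hp), ind_neg (not_not.2 (h' η hp).1)]; linarith
    · rw [add_zero]; exact ind_mono fun h1 h2 => h1 ((h' η hp).2 a F' he h2)
  · exact Or.inl fun _ _ _ => by rw [ind_pos hp]; linarith [ind_le_one (¬Q' ‹_› ‹_› ‹_›)]

theorem TP.bind {f : A → S} {g : S → A → S'} {Q : S → Fr → A → Prop} {R : S' → Fr → A → Prop}
    (h1 : TP μ δ F P f Q) (h2 : ∀ s F', TP μ δ' F' (Q s F') (g s) R) :
    TP μ (δ + δ') F P (fun a => g (f a) a) R :=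
  Tr.bind (Tr.mono h1 fun _ => Or.inr ⟨δ', le_of_eq (by ring), fun _ _ _ => le_of_eq (by ring)⟩) h2

theorem TP.pure {s : S} {Q : S → Fr → A → Prop} (h0 : 0 ≤ δ)
    (h : ∀ η, P η → ∀ a, Ext F η F a → Q s F a) : TP μ δ F P (fun _ => s) Q := by
  refine Tr.read ∅ (fun _ _ _ => rfl) fun η => E_le fun ω => ?_
  by_cases hp : P η
  · rw [Set.sdiff_empty, ind_neg (not_not.2 (h η hp _ ⟨le_rfl, fun e he => mix_out he _ _⟩))]
    linarith [ind_nonneg (¬P η)]
  · rw [ind_pos hp]; linarith [ind_le_one (¬Q s (F \ ∅) (mix F η ω))]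

theorem TP.of_pre {f : A → S} {Q : S → Fr → A → Prop} (h0 : 0 ≤ δ)
    (h : ∀ η, P η → TP μ δ F P f Q) : TP μ δ F P f Q := by
  by_cases hp : ∃ η, P η
  · obtain ⟨η, hp⟩ := hp
    exact h η hp
  · refine Tr.triv fun η s F' a => ?_
    rw [ind_pos (P := ¬P η) fun h => hp ⟨η, h⟩]
    linarith [ind_le_one (¬Q s F' a)]

theorem TP.map {f : A → S} (g : S → S') {Q : S' → Fr → A → Prop}
    (h : TP μ δ F P f fun s => Q (g s)) : TP μ δ F P (fun a => g (f a)) Q := by
  obtain ⟨φ, a1, a2, a3⟩ := h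
  exact ⟨φ, a1, fun a ω => ⟨by simp only [(a2 a ω).1], (a2 a ω).2⟩, a3⟩

def Stab (I : Fr → A → Prop) : Prop := ∀ F η a, I F η → Ext F η F a → I F a

theorem TP.foldl {β : Type} {f : A → S → β → S} (h0 : 0 ≤ δ) (l : List β)
    {I : List β → S → Fr → A → Prop} (hs : ∀ s, Stab (I [] s))
    (h : ∀ b l', b :: l' <:+ l → ∀ s F, TP μ δ F (I (b :: l') s F) (fun a => f a s b) (I l')) :
    ∀ s F, TP μ (l.length * δ) F (I l s F) (fun a => l.foldl (f a) s) (I []) := by
  induction l with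
  | nil => exact fun s F => TP.pure (by simp) fun η hp a he => hs s F η a hp he
  | cons b l ih =>
    intro s F
    have := TP.bind (h b l List.suffix_rfl s F)
      (ih fun c l' hl => h c l' (hl.trans (List.suffix_cons _ _)))
    refine this.conseq (le_of_eq ?_) (by positivity) fun η hp => ⟨hp, fun _ _ _ h => h⟩
    simp only [List.length_cons]; push_cast; ring

theorem TP.iter {f : A → S → S} (h0 : 0 ≤ δ) (t : ℕ) {I : ℕ → S → Fr → A → Prop}
    (hs : ∀ s, Stab (I 0 s))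
    (h : ∀ i < t, ∀ s F, TP μ δ F (I i s F) (fun a => f a s) (I (i + 1))) :
    ∀ s F, TP μ (t * δ) F (I 0 s F) (fun a => (f a)^[t] s) (I t) := by
  intro s F
  induction t with
  | zero => exact TP.pure (by simp) fun η hp a he => hs s F η a hp he
  | succ t ih =>
    have := TP.bind (ih fun i hi => h i (by omega)) (h t (by omega))
    simp only [Function.iterate_succ_apply']
    refine this.conseq (le_of_eq ?_) (by positivity) fun η hp => ⟨hp, fun _ _ _ h => h⟩
    push_cast; ring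

theorem TP.final {f : A → S} {Q : S → A → Prop}
    (h : TP μ δ Set.univ (fun _ => True) f fun s _ a => Q s a) :
    E μ (fun a => ind (¬Q (f a) a)) ≤ δ := by
  obtain ⟨φ, -, -, a3⟩ := h
  have := a3 fun _ => false
  dsimp only at this
  rw [ind_neg (not_not.2 trivial), add_zero] at this
  simpa only [show ∀ ω, mix Set.univ (fun _ => false) ω = ω from
    fun ω => funext fun e => mix_in (Set.mem_univ _) _ _] using this

end

end Pool.Agent.Lib.MP_1b5cbf_lc
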