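import Pool.Agent.Lib.MP_1b5cbf_lc.Block

/-! The size of one colour class. -/

set_option autoImplicit false

namespace Pool.Agent.Lib.MP_1b5cbf_lc

open Finset Classical Real

noncomputable section

variable {μ : Pm} {κ : ℝ}

theorem TP.le {S : Type} {δ δ' : ℝ} {F : Fr} {P : A → Prop} {f : A → S} {Q : S → Fr → A → Prop}
    (h : TP μ δ F P f Q) (h' : δ ≤ δ') : TP μ δ' F P f Q :=
  Tr.mono h fun _ => Or.inr ⟨0, by linarith, fun _ _ _ => by simp⟩

theorem tf_self (T : List ℕ) : tf T T = T.length := by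
  rw [tf, List.filter_eq_self.2 (by simp)]

theorem phase {F0 : Fr} {R0 C0 T : List ℕ} {f : A → List ℕ × List ℕ → List ℕ × List ℕ}
    {N l m : ℕ} {K : ℕ → ℕ} {t X G δ : ℝ} (hκ : 0 ≤ κ) (h0 : 0 ≤ δ) (hG : 0 ≤ G) (hX0 : 0 ≤ X)
    (hK : ∀ z, κ * K z ≤ X * exp (κ * z)) (hX : X ≤ G * (κ * N)) (ht : 0 < m → t + m * l ≤ tf T C0)
    (hf : 0 < m → ∀ s F, t ≤ tf T s.2 → TP μ δ F (RI F0 R0 C0 T s.1 s.2 F) (fun a => f a s)
      (BQ F0 R0 C0 T N l (K s.2.length) s)) :
    TP μ (m * δ) F0 (RI F0 R0 C0 T R0 C0 F0) (fun a => (f a)^[m] (R0, C0)) fun x F a =>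
      RI F0 R0 C0 T x.1 x.2 F a ∧ C0.length ≤ x.2.length ∧ tf T C0 ≤ tf T x.2 + m * l ∧
        (κ * R0.length ≤ (G + X) * exp (κ * x.2.length) ∨ C0.length + m * N ≤ x.2.length) := by
  refine (TP.iter (f := f) h0 m (I := fun i x F a => RI F0 R0 C0 T x.1 x.2 F a ∧
    C0.length ≤ x.2.length ∧ tf T C0 ≤ tf T x.2 + i * l ∧
      (κ * R0.length ≤ (G + X) * exp (κ * x.2.length) ∨ C0.length + i * N ≤ x.2.length ∧
        κ * R0.length ≤ κ * x.1.length + G * exp (κ * x.2.length)))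
    (fun s F η a h he => ⟨RI.stab _ _ _ h.1 he, h.2⟩) (fun i hi s F => TP.of_pre h0 fun η hp => ?_)
    (R0, C0) F0).conseq le_rfl (by positivity) fun η h => ⟨⟨h, le_rfl, by simp, Or.inr ⟨by simp,
      le_add_of_nonneg_right (by positivity)⟩⟩, fun a F _ h =>
      ⟨h.1, h.2.1, h.2.2.1, h.2.2.2.imp_right And.left⟩⟩
  refine (hf (by omega) s F ?_).conseq le_rfl h0 fun η h => ⟨h.1, fun a F' _ h' => ?_⟩
  · have h1 : (tf T C0 : ℝ) ≤ tf T s.2 + m * l := by
      have := Nat.mul_le_mul_right l hi.le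
      exact_mod_cast hp.2.2.1.trans (by omega)
    linarith [ht (by omega)]
  · generalize f a s = x at h'
    obtain ⟨b1, b2, b3, b4⟩ := h'
    obtain ⟨-, c2, c3, c4⟩ := h
    have e1 : exp (κ * s.2.length) ≤ exp (κ * x.2.length) := by gcongr
    have e2 := hK s.2.length
    have e3 := exp_pos (κ * s.2.length)
    refine ⟨b1, c2.trans b2, by rw [add_mul]; omega, ?_⟩
    rcases c4 with c4 | ⟨c4, c5⟩
    · exact Or.inl (c4.trans (by gcongr))
    by_cases hk : K s.2.length ≤ s.1.length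
    · obtain ⟨d1, d2⟩ := b4 hk
      have d3 : κ * s.1.length ≤ κ * (x.1.length + K s.2.length) := by
        gcongr; exact_mod_cast d2
      have d4 : exp (κ * N) * exp (κ * s.2.length) ≤ exp (κ * x.2.length) := by
        rw [← exp_add, ← mul_add]; gcongr; exact_mod_cast add_comm N _ ▸ d1
      have d5 := mul_le_mul_of_nonneg_right (add_one_le_exp (κ * N)) e3.le
      have d6 := mul_le_mul_of_nonneg_left (d5.trans d4) hG
      refine Or.inr ⟨by rw [add_mul]; omega, ?_⟩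
      nlinarith
    · have d3 : κ * s.1.length ≤ κ * K s.2.length := by gcongr; omega
      refine Or.inl (le_trans ?_ (mul_le_mul_of_nonneg_left e1 (by positivity)))
      linarith

structure Kp (μ : Pm) (κ : ℝ) : Prop where
  pos : 0 < κ
  le : exp (-κ) ≤ 1 - μ.p
  ge : κ ≤ 2 * μ.p

theorem Kp.p_le (h : Kp μ κ) : μ.p ≤ κ := by linarith [h.le, add_one_le_exp (-κ)]

theorem Kp.pow (h : Kp μ κ) (z : ℕ) : 1 ≤ (1 - μ.p) ^ z * exp (κ * z) := by
  have := pow_le_pow_left₀ (exp_pos _).le h.le z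
  rw [← exp_nat_mul] at this
  refine le_trans (le_of_eq ?_) (mul_le_mul_of_nonneg_right this (exp_pos _).le)
  rw [← exp_add]; simp [mul_comm]

def Kc (κ c : ℝ) (z : ℕ) : ℕ := ⌈c * exp (κ * z) / κ⌉₊

theorem Kp.up (h : Kp μ κ) {c : ℝ} (hc : 0 ≤ c) (z : ℕ) :
    κ * Kc κ c z ≤ (c + κ) * exp (κ * z) := by
  have h0 := h.pos
  have h1 := (Nat.ceil_lt_add_one (a := c * exp (κ * z) / κ) (by positivity)).le
  have h2 : 1 ≤ exp (κ * z) := one_le_exp (by positivity)
  refine (mul_le_mul_of_nonneg_left h1 h0.le).trans ?_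
  rw [mul_add, mul_div_cancel₀ _ h0.ne']
  nlinarith

theorem Kp.lo (h : Kp μ κ) {c : ℝ} (hc : 0 ≤ c) (z : ℕ) : c ≤ κ * ((1 - μ.p) ^ z * Kc κ c z) := by
  have h1 := (div_le_iff₀ h.pos).1 (Nat.le_ceil (c * exp (κ * z) / κ))
  have h2 := mul_le_mul_of_nonneg_left h1 (pow_nonneg (sub_nonneg.2 μ.h1) z)
  have h3 := mul_le_mul_of_nonneg_left (h.pow z) hc
  unfold Kc
  nlinarith

structure SP (κ t Γ : ℝ) (A g r N : ℕ) : Prop where
  g1 : 1 ≤ g
  hA : 4 * N * (g + 1) ^ r ≤ A * g ^ r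
  ht : 4 * (A * g ^ r : ℕ) ≤ t
  hc : κ * ((r + 2) * (2 * N) : ℕ) * ((r + 2) * (2 * N) : ℕ) ≤ 0.44 * N
  hX : 4 * (8 * A / t + r * (16 * (g * (g + 1)) / (κ * t)) + 16 * N / (A * g ^ r : ℕ) + (r + 2) * κ) ≤
    Γ * (κ * N)

theorem round_tp {F : Fr} {P T : List ℕ} {A g r N h m : ℕ} {u t Γ : ℝ} (hκ : Kp μ κ)
    (hN : 1 ≤ N) (hu : u ≤ N) (hν : κ * N ≤ 1 / 5) (hP : P.Nodup) (hn : ∀ w ∈ P, w < μ.n)
    (hT : T.Nodup) (hTn : ∀ v ∈ T, v < μ.n) (hd : ∀ v ∈ T, v ∉ P)
    (hh : κ * P.length ≤ exp (κ * (h * N : ℕ)))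
    (hm : 0 < m → SP κ t Γ A g r N ∧ t + m * ((r + 1) * (2 * N) : ℕ) ≤ T.length)
    (hΓ : 15 ≤ Γ * exp (κ * (m * N : ℕ))) :
    TP μ ((h + m * (r + 3)) * exp (-u / 4)) F (fun η => OK F η P P ∧ FR F P T ∧ Ind F η T)
      (fun a => rnd (o a) A g r N h m P T) fun C F' a => C.Nodup ∧ (∀ c ∈ C, c ∈ T ∨ c ∈ P) ∧
        Ind F' a C ∧ (out T C).length ≤ m * ((r + 1) * (2 * N)) ∧
        Fm F F' (· ∈ P) (fun c => c ∈ T ∨ c ∈ C) ∧
        (2 ≤ P.length → κ * P.length ≤ Γ * exp (κ * C.length)) := by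
  have h0 := hκ.pos
  have hp := hκ.ge
  have hN' : (1 : ℝ) ≤ N := by exact_mod_cast hN
  have hΓ0 : 0 ≤ Γ := by
    by_contra h; nlinarith [exp_pos (κ * (m * N : ℕ))]
  set R1 := P.take (P.length / 2)
  set R2 := P.drop (P.length / 2)
  have hs1 : R1 ⊆ P := List.take_subset _ _
  have hs2 : R2 ⊆ P := List.drop_subset _ _
  have h12 : ∀ v ∈ R1, v ∉ R2 := fun v h1 h2 =>
    (List.nodup_append.1 ((List.take_append_drop _ P).symm ▸ hP)).2.2 v h1 v h2 rfl
  have a1 := phase (μ := μ) (F0 := F) (R0 := R1) (C0 := T) (T := T) (f := fun a => gro (o a) N)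
    (N := N) (l := 0) (m := h) (K := fun z => Kc κ (2 * (κ * N)) (z + N)) (t := 0)
    (X := 4 * (κ * N)) (G := 4) h0.le (exp_pos (-u / 4)).le (by norm_num) (by positivity)
    (fun z => (hκ.up (by positivity) _).trans (by
      have e1 : exp (κ * N) ≤ 4 / 3 := by
        have := add_one_le_exp (-(κ * N))
        rw [exp_neg, ← one_div, le_div_iff₀ (exp_pos _)] at this
        nlinarith [exp_pos (κ * N)]
      push_cast
      rw [mul_add κ, exp_add, mul_comm (exp _), ← mul_assoc]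
      refine mul_le_mul_of_nonneg_right ?_ (exp_pos _).le
      nlinarith [exp_pos (κ * N), mul_le_mul_of_nonneg_left hN' h0.le])) le_rfl (by simp) fun _ s F _ =>
      gro_tp (hP.sublist (List.take_sublist _ _)) hT hu (le_of_mul_le_mul_left
        (le_of_eq_of_le (by ring) (hκ.lo (by positivity) _)) h0)
  set X := 8 * A / t + r * (16 * (g * (g + 1)) / (κ * t)) + 16 * N / (A * g ^ r : ℕ) + (r + 2) * κ
  have a2 : ∀ C1 F1, tf T T ≤ tf T C1 → TP μ (m * ((r + 3) * exp (-u / 4))) F1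
      (RI F1 R2 C1 T R2 C1 F1) (fun a => (swp (o a) A g r N T)^[m] (R2, C1)) fun x F a =>
      RI F1 R2 C1 T x.1 x.2 F a ∧ C1.length ≤ x.2.length ∧
        tf T C1 ≤ tf T x.2 + m * ((r + 1) * (2 * N)) ∧
        (κ * R2.length ≤ Γ / 2 * exp (κ * x.2.length) ∨ C1.length + m * N ≤ x.2.length) := by
    intro C1 F1 hC1
    rcases Nat.eq_zero_or_pos m with rfl | hm0
    · exact TP.pure (by simp) fun η h a he => ⟨RI.stab _ _ _ h he, le_rfl, by simp, by simp⟩
    obtain ⟨sp, ht⟩ := hm hm0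
    have hg := sp.g1
    have hAg : (0 : ℝ) < (A * g ^ r : ℕ) := by
      exact_mod_cast lt_of_lt_of_le (by positivity) sp.hA
    have ht0 : 0 < t := by linarith [sp.ht]
    have hX := sp.hX
    refine (phase (N := N) (K := fun z => Kc κ (8 * A / t) z + r * Kc κ (16 * (g * (g + 1)) / (κ * t)) z +
      Kc κ (16 * N / (A * g ^ r : ℕ)) z) (t := t) (X := X) (G := Γ / 4) h0.le (by positivity)
      (by positivity) (by positivity) (fun z => ?_) (by linarith) (fun _ => ht.trans ?_)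
      fun _ s F hs => swp_tp (hP.sublist (List.drop_sublist _ _)) (fun w hw => hn w (hs2 hw)) hT
        hTn hs hg hu sp.hA sp.ht ?_ ?_ ?_ (le_trans (by gcongr; exact hκ.p_le) sp.hc)).conseq
      le_rfl (by positivity) fun η h => ⟨h, fun a F' _ h => ⟨h.1, h.2.1, h.2.2.1,
        h.2.2.2.imp_left fun h => h.trans ?_⟩⟩
    · have b1 := hκ.up (c := 8 * A / t) (by positivity) z
      have b2 := mul_le_mul_of_nonneg_left (hκ.up (c := 16 * (g * (g + 1)) / (κ * t)) (by positivity) z)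
        (Nat.cast_nonneg r : (0 : ℝ) ≤ r)
      have b3 := hκ.up (c := 16 * N / (A * g ^ r : ℕ)) (by positivity) z
      simp only [X, Nat.cast_add, Nat.cast_mul r]
      linarith
    · exact Nat.cast_le.2 (tf_self T ▸ hC1)
    · have b1 := hκ.lo (c := 8 * A / t) (by positivity) s.2.length
      have b0 := mul_nonneg (pow_nonneg (sub_nonneg.2 μ.h1) s.2.length)
        (Nat.cast_nonneg (Kc κ (8 * A / t) s.2.length))
      rw [div_le_iff₀ ht0] at b1
      nlinarith [mul_le_mul_of_nonneg_right hp (mul_nonneg b0 ht0.le)]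
    · have b1 := hκ.lo (c := 16 * (g * (g + 1)) / (κ * t)) (by positivity) s.2.length
      have b0 := mul_nonneg (pow_nonneg (sub_nonneg.2 μ.h1) s.2.length)
        (Nat.cast_nonneg (Kc κ (16 * (g * (g + 1)) / (κ * t)) s.2.length))
      rw [div_le_iff₀ (by positivity)] at b1
      nlinarith [mul_le_mul_of_nonneg_right (pow_le_pow_left₀ h0.le hp 2) (mul_nonneg b0 ht0.le)]
    · have b1 := hκ.lo (c := 16 * N / (A * g ^ r : ℕ)) (by positivity) s.2.length
      have b0 := mul_nonneg (pow_nonneg (sub_nonneg.2 μ.h1) s.2.length)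
        (Nat.cast_nonneg (Kc κ (16 * N / (A * g ^ r : ℕ)) s.2.length))
      rw [div_le_iff₀ hAg] at b1
      nlinarith [mul_le_mul_of_nonneg_right hp (mul_nonneg b0 hAg.le)]
    · gcongr
      nlinarith
  refine TP.map Prod.snd (((a1.conseq (Q' := fun x F1 a => RI F1 R2 x.2 T R2 x.2 F1 a ∧
    tf T T ≤ tf T x.2 ∧ (∀ c ∈ x.2, c ∈ T ∨ c ∈ P) ∧ Fm F F1 (· ∈ P) (fun c => c ∈ T ∨ c ∈ x.2) ∧
    κ * R1.length ≤ 5 * exp (κ * x.2.length)) le_rfl (by positivity) fun η h => ⟨?_,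
    fun a F1 he h' => ?_⟩).bind fun x F1 => TP.of_pre (by positivity) fun η hq =>
      (a2 x.2 F1 hq.2.1).conseq le_rfl (by positivity) fun η hq => ⟨hq.1, fun a F2 _ h' => ?_⟩
      ).le (le_of_eq (by ring)))
  · exact ⟨List.suffix_rfl, hT, fun c hc h => hd c hc (hs1 h), fun c => Or.inl, fun c => Or.inl,
      fun w hw v hv => h.1 w (hs1 hw) v (hs1 hv), fun w hw v hv _ => Or.inl (h.2.1 w (hs1 hw) v hv),
      fun w hw => h.2.1 w (hs1 hw), h.2.2, Fm.refl⟩
  · generalize (gro (o a) N)^[_] _ = x at h' ⊢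
    obtain ⟨b1, b2, b3, b4⟩ := h'
    have dis : ∀ c ∈ x.2, c ∉ R2 := fun c hc h' => (b1.mem c hc).elim
      (fun h => hd c h (hs2 h')) fun h => h12 c h h'
    have keep : ∀ w ∈ R2, ∀ v, s(w, v) ∈ F → s(w, v) ∈ F1 := fun w hw v =>
      b1.fm.keep (fun h => h12 w h.1.1 hw) fun h => h.2.elim (fun h => hd w h (hs2 hw))
        fun h => dis w h hw
    refine ⟨⟨List.suffix_rfl, b1.nd, dis, fun c => Or.inl, fun c => Or.inr, fun w hw v hv hne =>
      he.ok (h.1 w (hs2 hw) v (hs2 hv) hne) (keep w hw v), fun w hw v hv hne => he.ok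
        ((b1.mem v hv).elim (fun h' => Or.inl (h.2.1 w (hs2 hw) v h'))
          fun h' => h.1 w (hs2 hw) v (hs1 h') hne) (keep w hw v),
      fun w hw v hv => keep w hw v (h.2.1 w (hs2 hw) v hv), b1.ind, Fm.refl⟩, by simpa using b3,
      fun c hc => (b1.mem c hc).imp_right fun h => hs1 h,
      b1.fm.mono (fun y hy => hs1 hy.1) fun _ h => h, ?_⟩
    have e := exp_pos (κ * x.2.length)
    rcases b4 with b4 | b4
    · nlinarith
    · have c1 : κ * R1.length ≤ κ * P.length := by gcongr; exact List.length_take_le' _ _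
      have c2 := hh.trans (exp_le_exp.2 (mul_le_mul_of_nonneg_left
        (Nat.cast_le.2 (le_trans (Nat.le_add_left _ _) b4)) h0.le))
      linarith
  · generalize (swp (o a) A g r N T)^[_] _ = y at h' ⊢
    obtain ⟨b1, b2, b3, b4⟩ := h'
    obtain ⟨-, c2, c3, c4, c5⟩ := hq
    refine ⟨b1.nd, fun c hc => (b1.mem c hc).elim (c3 c) fun h => Or.inr (hs2 h), b1.ind, ?_,
      (c4.mono (fun _ h => h) fun c hc => hc.elim Or.inl (b1.keep c)).trans
        (b1.fm.mono (fun y hy => hs2 hy.1) fun _ h => h), fun h2 => ?_⟩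
    · have := List.length_eq_length_filter_add (l := T) fun v => decide (v ∈ y.2)
      have e := tf_self T
      simp only [tf, out, decide_not] at *
      omega
    · rcases b4 with b4 | b4
      · have : κ * P.length ≤ κ * (2 * R2.length) := by
          gcongr
          exact_mod_cast (by simp [R2]; omega : P.length ≤ 2 * R2.length)
        linarith
      · have d1 : κ * P.length ≤ κ * (3 * R1.length) := by
          gcongr
          exact_mod_cast (by simp [R1]; omega : P.length ≤ 3 * R1.length)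
        have d2 : exp (κ * (m * N : ℕ)) * exp (κ * x.2.length) ≤ exp (κ * y.2.length) := by
          rw [← exp_add, ← mul_add]; gcongr; exact_mod_cast add_comm (m * N) _ ▸ b4
        nlinarith [mul_le_mul_of_nonneg_left d2 hΓ0,
          mul_le_mul_of_nonneg_right hΓ (exp_pos (κ * x.2.length)).le]

end

end Pool.Agent.Lib.MP_1b5cbf_lc
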