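import Pool.Agent.Lib.MP_1b5cbf_lc.Prob
import Pool.Agent.Lib.MP_1b5cbf_lc.Poly

/-! The three scanning stages. -/

set_option autoImplicit false

namespace Pool.Agent.Lib.MP_1b5cbf_lc

open Finset Classical

noncomputable section

variable {μ : Pm}

def o (a : A) : O := fun u v => a s(u, v)

theorem seq {τ : Type} {b : ℕ} {acc : A → List τ → ℕ → Option τ} {rd : List τ → ℕ → Fr} {θ : ℝ}
    {I : List ℕ → List τ → Fr → A → Prop} {G : Prop} (hθ : 0 ≤ θ)
    (hrd : ∀ s w a a', (∀ e ∈ rd s w, a e = a' e) → acc a s w = acc a' s w)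
    (hstab : ∀ R s, Stab (I R s))
    (hstep : ∀ w R s F η a, I (w :: R) s F η → s.length < b → Ext F η (F \ rd s w) a →
      I R ((acc a s w).toList ++ s) (F \ rd s w) a)
    (hp : G → ∀ w R s F η, I (w :: R) s F η → s.length < b →
      1 - E μ (fun ω => ind (acc (mix F η ω) s w).isSome) / 2 ≤ θ) (R : List ℕ) :
    ∀ s K F, TP μ (ind G * (2 ^ (b - s.length) * θ ^ K)) F (I R s F)
      (fun a => scan b (acc a) R s) fun x F' a => I x.1 x.2 F' a ∧
        (G → K ≤ R.length → b ≤ x.2.length ∧ R.length ≤ x.1.length + K) := by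
  have hG := ind_nonneg G
  have triv : ∀ (R : List ℕ) s F (Q : List ℕ × List τ → Fr → A → Prop), G →
      TP μ (ind G * (2 ^ (b - s.length) * θ ^ 0)) F (I R s F) (fun a => scan b (acc a) R s) Q := by
    intro R s F Q hG
    refine Tr.triv fun η x F' a => ?_
    have : (1 : ℝ) ≤ 2 ^ (b - s.length) := one_le_pow₀ one_le_two
    rw [ind_pos hG]
    linarith [ind_le_one (¬Q x F' a), ind_nonneg (¬I R s F η)]
  induction R with
  | nil =>
    intro s K F
    by_cases h : G ∧ K = 0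
    · obtain ⟨h, rfl⟩ := h; exact triv _ _ _ _ h
    · exact TP.pure (by positivity) fun η hI a he => ⟨hstab _ _ _ _ _ hI he,
        fun h1 h2 => absurd ⟨h1, by simpa using h2⟩ h⟩
  | cons w R ih =>
    intro s K F
    by_cases hb : s.length < b
    swap
    · simp only [scan, if_neg hb]
      exact TP.pure (by positivity) fun η hI a he => ⟨hstab _ _ _ _ _ hI he,
        fun _ _ => ⟨not_lt.1 hb, by simp⟩⟩
    by_cases h : G ∧ K = 0
    · obtain ⟨h, rfl⟩ := h; exact triv _ _ _ _ h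
    simp only [scan, if_pos hb]
    have h1 : Tr μ F (fun a => (acc a s w).toList ++ s) (fun s' F' a =>
        ind G * (2 ^ (b - s'.length) * θ ^ (K - 1)) + ind (¬I R s' F' a)) fun η =>
        if I (w :: R) s F η then ind G * (2 ^ (b - s.length) * θ ^ K)
        else ind G * (2 ^ b * θ ^ (K - 1)) + 1 := by
      refine Tr.read (rd s w) (fun a a' h => by rw [hrd s w a a' h]) fun η => ?_
      split_ifs with hI
      · by_cases hG : G
        · obtain ⟨K, rfl⟩ : ∃ K', K = K' + 1 := ⟨K - 1, by have := mt (And.intro hG) h; omega⟩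
          have h2 := hp hG w R s F η hI hb
          have h3 : ∀ ω, ind G * (2 ^ (b - ((acc (mix F η ω) s w).toList ++ s).length) *
              θ ^ (K + 1 - 1)) + ind (¬I R ((acc (mix F η ω) s w).toList ++ s) (F \ rd s w)
              (mix F η ω)) = 2 ^ (b - s.length) * θ ^ K + (-(2 ^ (b - s.length) * θ ^ K / 2)) *
              ind (acc (mix F η ω) s w).isSome := by
            intro ω
            rw [ind_neg (not_not.2 (hstep w R s F η _ hI hb
              ⟨Set.sdiff_subset, fun e he => mix_out he _ _⟩)), ind_pos hG]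
            cases acc (mix F η ω) s w with
            | none => simp [ind]
            | some x =>
              rw [show b - s.length = b - ((some x).toList ++ s).length + 1 by simp; omega]
              simp [ind]; ring
          simp only [h3, E_add, E_const, E_mul]
          rw [ind_pos hG, pow_succ]
          have : (0 : ℝ) ≤ 2 ^ (b - s.length) * θ ^ K := by positivity
          nlinarith
        · refine E_le fun ω => ?_
          rw [ind_neg (not_not.2 (hstep w R s F η _ hI hb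
            ⟨Set.sdiff_subset, fun e he => mix_out he _ _⟩)), ind_neg hG]
          simp
      · refine E_le fun ω => add_le_add ?_ (ind_le_one _)
        gcongr
        · norm_num
        · omega
    refine Tr.mono (h1.bind fun s' F' => ih s' (K - 1) F') fun η => ?_
    by_cases hI : I (w :: R) s F η
    · refine Or.inr ⟨0, by rw [if_pos hI]; linarith [ind_nonneg (¬I (w :: R) s F η)],
        fun a F' _ => ?_⟩
      rw [add_zero]
      refine ind_mono fun h1 h2 => h1 ⟨h2.1, fun hG hK => ?_⟩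
      have := mt (And.intro hG) h
      have := h2.2 hG (by simp at hK; omega)
      simp only [List.length_cons]; omega
    · refine Or.inl fun x F' a => (ind_le_one _).trans ?_
      rw [ind_pos hI]
      exact le_add_of_nonneg_left (by positivity)

def OK (F : Fr) (a : A) (X Y : List ℕ) : Prop := ∀ u ∈ X, ∀ v ∈ Y, u ≠ v → ok F a s(u, v)
def FR (F : Fr) (X Y : List ℕ) : Prop := ∀ u ∈ X, ∀ v ∈ Y, s(u, v) ∈ F
def Ind (F : Fr) (a : A) (C : List ℕ) : Prop := ∀ u ∈ C, ∀ v ∈ C, u ≠ v → no F a s(u, v)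
def Fm (F F' : Fr) (X Y : ℕ → Prop) : Prop := ∀ e ∈ F, e ∉ F' → ∃ x y, X x ∧ Y y ∧ e = s(x, y)
def rdc (C : List ℕ) (w : ℕ) : Fr := {e | ∃ c ∈ C, e = s(w, c)}

section
variable {F F' F0 : Fr} {η a : A} {X Y X' Y' : ℕ → Prop}

theorem Fm.keep (h : Fm F F' X Y) {u v : ℕ} (h1 : ¬(X u ∧ Y v)) (h2 : ¬(X v ∧ Y u))
    (h0 : s(u, v) ∈ F) : s(u, v) ∈ F' := by
  by_contra h3
  obtain ⟨x, y, hx, hy, e⟩ := h _ h0 h3
  rcases Sym2.eq_iff.1 e with ⟨rfl, rfl⟩ | ⟨rfl, rfl⟩
  · exact h1 ⟨hx, hy⟩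
  · exact h2 ⟨hx, hy⟩

theorem Fm.refl : Fm F F X Y := fun _ h1 h2 => absurd h1 h2

theorem Fm.mono (h : Fm F F' X Y) (h1 : ∀ x, X x → X' x) (h2 : ∀ x, Y x → Y' x) : Fm F F' X' Y' :=
  fun e a b => let ⟨x, y, hx, hy, he⟩ := h e a b; ⟨x, y, h1 x hx, h2 y hy, he⟩

theorem Fm.trans (h : Fm F0 F X Y) (h' : Fm F F' X Y) : Fm F0 F' X Y := fun e a b => by
  by_cases he : e ∈ F
  exacts [h' e he b, h e a he]

theorem fm_rdc (F : Fr) (C : List ℕ) (w : ℕ) : Fm F (F \ rdc C w) (· = w) (· ∈ C) := fun e a b => by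
  obtain ⟨c, hc, he⟩ : e ∈ rdc C w := by_contra fun h => b ⟨a, h⟩
  exact ⟨w, c, rfl, hc, he⟩

theorem OK.stab {U V : List ℕ} (h : OK F η U V) (he : Ext F η F a) : OK F a U V :=
  fun u hu v hv huv => he.ok (h u hu v hv huv) id

theorem Ind.ext {C : List ℕ} (h : Ind F η C) (he : Ext F η F' a) : Ind F' a C :=
  fun u hu v hv huv => he.no (h u hu v hv huv)

theorem no.symm {u v : ℕ} (h : no F a s(u, v)) : no F a s(v, u) := Sym2.eq_swap ▸ h
theorem ok.symm {u v : ℕ} (h : ok F a s(u, v)) : ok F a s(v, u) := Sym2.eq_swap ▸ h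

end

theorem free_rd {C : List ℕ} {w : ℕ} {a a' : A} (h : ∀ e ∈ rdc C w, a e = a' e) :
    free (o a) C w = free (o a') C w := by
  unfold free
  refine if_congr ?_ rfl rfl
  simp only [List.all_eq_true]
  refine forall₂_congr fun c hc => ?_
  rw [o, o, h _ ⟨c, hc, rfl⟩]

theorem free_some {a : O} {C : List ℕ} {w x : ℕ} (h : free a C w = some x) :
    x = w ∧ ∀ c ∈ C, a w c = false := by
  unfold free at h
  split_ifs at h with h1
  exact ⟨(Option.some.inj h).symm, by simpa using h1⟩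

theorem free_prob {F : Fr} {η : A} {w : ℕ} {C : List ℕ} (K : ℕ → Prop)
    (hC : ∀ c ∈ C, ok F η s(w, c)) (hK : ∀ c, K c → s(w, c) ∉ F) :
    (1 - μ.p) ^ (C.filter fun c => ¬K c).length ≤
      E μ fun ω => ind (free (o (mix F η ω)) C w).isSome := by
  have := pattern (μ := μ) (j := 0) C ∅ K (by simp) (by simp) hC hK
  rw [pow_zero, one_mul] at this
  refine this.trans (E_mono fun ω => ind_mono fun h => ?_)
  unfold free
  rw [if_pos (by simpa [o] using h)]; rfl

theorem suf_cons {w : ℕ} {R R0 : List ℕ} (h : w :: R <:+ R0) (h0 : R0.Nodup) :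
    R <:+ R0 ∧ w ∉ R ∧ w ∈ R0 :=
  ⟨(List.suffix_cons _ _).trans h, (List.nodup_cons.1 (h0.sublist h.sublist)).1,
    h.subset (by simp)⟩

structure GI (F0 : Fr) (R0 C0 : List ℕ) (K : ℕ → Prop) (R C : List ℕ) (F : Fr) (a : A) :
    Prop where
  suf : R <:+ R0
  pre : C0 <:+ C
  nd : C.Nodup
  mem : ∀ c ∈ C, c ∈ C0 ∨ c ∈ R0 ∧ c ∉ R
  rc : OK F a R C
  rr : OK F a R R
  kn : ∀ w ∈ R, ∀ c, K c → s(w, c) ∉ F
  ind : Ind F a C
  fm : Fm F0 F (fun x => x ∈ R0 ∧ x ∉ R) (· ∈ C)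

theorem gstage {F0 : Fr} {R0 C0 : List ℕ} {K : ℕ → Prop} {b β M : ℕ} {θ δ : ℝ} {G : Prop}
    (hR : R0.Nodup) (hd : ∀ c ∈ C0, c ∉ R0) (h0 : 0 ≤ δ) (hθ0 : 0 ≤ θ)
    (hβ : (C0.filter fun c => ¬K c).length + (b - C0.length) ≤ β)
    (hθ : G → 1 - (1 - μ.p) ^ β / 2 ≤ θ) (hδ : G → 2 ^ (b - C0.length) * θ ^ M ≤ δ) :
    TP μ δ F0 (GI F0 R0 C0 K R0 C0 F0) (fun a => gst (o a) b R0 C0) fun x F a =>
      GI F0 R0 C0 K x.1 x.2 F a ∧ x.2.length ≤ max b C0.length ∧
        (G → M ≤ R0.length → b ≤ x.2.length ∧ R0.length ≤ x.1.length + M) := by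
  have dis : ∀ {R C F a}, GI F0 R0 C0 K R C F a → ∀ u ∈ R, u ∉ C := fun h u hu hc =>
    (h.mem u hc).elim (fun h1 => hd u h1 (h.suf.subset hu)) fun h1 => h1.2 hu
  refine (seq (μ := μ) (b := b) (acc := fun a => free (o a)) (rd := rdc) (I := GI F0 R0 C0 K)
    (G := G) hθ0 (fun _ _ _ _ => free_rd) (fun R C F η a h he => ⟨h.suf, h.pre, h.nd, h.mem,
      h.rc.stab he, h.rr.stab he, h.kn, h.ind.ext he, h.fm⟩) ?_ ?_ R0 C0 M F0).conseq ?_ h0
    fun η h => ⟨h, fun a F' _ h => ⟨h.1, scan_le _ _, h.2⟩⟩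
  · intro w R C F η a h hb he
    obtain ⟨h1, h2, h3⟩ := suf_cons h.suf hR
    have hw : w ∉ C := dis h w (by simp)
    have keep : ∀ u ∈ R, ∀ v, v ∈ R ∨ v ∈ C ∨ v = w → s(u, v) ∈ F → s(u, v) ∈ F \ rdc C w :=
      fun u hu v hv => (fm_rdc F C w).keep (fun h => h2 (h.1 ▸ hu))
        fun h' => dis h u (by simp [hu]) h'.2
    have hfm : ∀ C', C ⊆ C' → Fm F0 (F \ rdc C w) (fun x => x ∈ R0 ∧ x ∉ R) (· ∈ C') :=
      fun C' hC => (h.fm.mono (fun x hx => ⟨hx.1, fun h => hx.2 (by simp [h])⟩)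
        fun x hx => hC hx).trans ((fm_rdc F C w).mono (fun x hx => hx ▸ ⟨h3, h2⟩) fun x hx => hC hx)
    have hrr : OK (F \ rdc C w) a R R := fun u hu v hv huv =>
      he.ok (h.rr u (by simp [hu]) v (by simp [hv]) huv) (keep u hu v (Or.inl hv))
    have hrc : OK (F \ rdc C w) a R C := fun u hu v hv huv =>
      he.ok (h.rc u (by simp [hu]) v hv huv) (keep u hu v (Or.inr (Or.inl hv)))
    have hkn : ∀ u ∈ R, ∀ c, K c → s(u, c) ∉ F \ rdc C w := fun u hu c hc h' =>
      h.kn u (by simp [hu]) c hc h'.1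
    have hm : ∀ c ∈ C, c ∈ C0 ∨ c ∈ R0 ∧ c ∉ R := fun c hc =>
      (h.mem c hc).imp_right fun h => ⟨h.1, fun h' => h.2 (by simp [h'])⟩
    cases hf : free (o a) C w with
    | none => exact ⟨h1, h.pre, h.nd, hm, hrc, hrr, hkn, h.ind.ext he, hfm _ (by simp)⟩
    | some x =>
      obtain ⟨rfl, hx⟩ := free_some hf
      have hno : ∀ c ∈ C, no (F \ rdc C x) a s(x, c) := fun c hc =>
        ⟨fun h => h.2 ⟨c, hc, rfl⟩, hx c hc⟩
      refine ⟨h1, h.pre.trans (List.suffix_cons _ _), List.nodup_cons.2 ⟨hw, h.nd⟩, ?_, ?_, hrr,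
        hkn, ?_, hfm _ (by simp)⟩
      · intro c hc
        rcases List.mem_cons.1 hc with rfl | hc
        exacts [Or.inr ⟨h3, h2⟩, hm c hc]
      · intro u hu v hv huv
        rcases List.mem_cons.1 hv with rfl | hv
        exacts [he.ok (h.rr u (by simp [hu]) v (by simp) huv) (keep u hu v (by simp)),
          hrc u hu v hv huv]
      · intro u hu v hv huv
        rcases List.mem_cons.1 hu with e | hu' <;> rcases List.mem_cons.1 hv with e' | hv'
        exacts [absurd (e.trans e'.symm) huv, e ▸ hno v hv', e' ▸ (hno u hu').symm,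
          h.ind.ext he u hu' v hv' huv]
  · intro hG w R C F η h hb
    have h1 := free_prob (μ := μ) K (fun c hc => h.rc w (by simp) c hc
      fun e => dis h w (by simp) (e ▸ hc)) (h.kn w (by simp))
    have h2 : (C.filter fun c => ¬K c).length ≤ β := by
      obtain ⟨D, rfl⟩ := h.pre
      have := List.length_filter_le (fun c => decide ¬K c) D
      simp only [List.filter_append, List.length_append] at hb ⊢
      omega
    have h3 := pow_le_pow_of_le_one (sub_nonneg.2 μ.h1) (sub_le_self 1 μ.h0) h2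
    linarith [hθ hG]
  · by_cases hG : G
    · rw [ind_pos hG, one_mul]; exact hδ hG
    · rw [ind_neg hG, zero_mul]; exact h0

structure SI (F0 : Fr) (R0 C : List ℕ) (R L : List ℕ) (F : Fr) (a : A) : Prop where
  suf : R <:+ R0
  nd : L.Nodup
  mem : ∀ l ∈ L, l ∈ R0 ∧ l ∉ R ∧ ∀ c ∈ C, no F a s(l, c)
  rc : OK F a R C
  fm : Fm F0 F (· ∈ R0) (· ∈ C)

theorem sstage {F0 : Fr} {R0 C : List ℕ} {b M : ℕ} {θ δ : ℝ}
    (hR : R0.Nodup) (hd : ∀ c ∈ C, c ∉ R0) (h0 : 0 ≤ δ) (hθ0 : 0 ≤ θ)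
    (hθ : 1 - (1 - μ.p) ^ C.length / 2 ≤ θ) (hδ : 2 ^ b * θ ^ M ≤ δ) (hM : M ≤ R0.length) :
    TP μ δ F0 (fun η => OK F0 η R0 C) (fun a => (sel (o a) b R0 C).2) fun L F a =>
      L.Nodup ∧ L.length = b ∧ (∀ l ∈ L, l ∈ R0 ∧ ∀ c ∈ C, no F a s(l, c)) ∧
        Fm F0 F (· ∈ R0) (· ∈ C) := by
  refine TP.map Prod.snd ((seq (μ := μ) (b := b) (acc := fun a _ => free (o a) C)
    (rd := fun _ => rdc C) (I := SI F0 R0 C) (G := True) hθ0 (fun _ _ _ _ => free_rd)
    (fun R L F η a h he => ⟨h.suf, h.nd, fun l hl => ⟨(h.mem l hl).1, (h.mem l hl).2.1,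
      fun c hc => he.no ((h.mem l hl).2.2 c hc)⟩, h.rc.stab he, h.fm⟩) ?_ ?_ R0 [] M F0).conseq
    (by rw [ind_pos trivial]; simpa using hδ) h0
    fun η h => ⟨⟨List.suffix_rfl, by simp, by simp, h, Fm.refl⟩, fun a F' _ h => ⟨h.1.nd,
      le_antisymm (by simpa using scan_le (b := b) R0 []) (h.2 trivial hM).1,
      fun l hl => ⟨(h.1.mem l hl).1, (h.1.mem l hl).2.2⟩, h.1.fm⟩⟩)
  · intro w R L F η a h hb he
    obtain ⟨h1, h2, h3⟩ := suf_cons h.suf hR
    have hfm := h.fm.trans ((fm_rdc F C w).mono (fun x hx => hx ▸ h3) fun x hx => hx)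
    have hrc : OK (F \ rdc C w) a R C := fun u hu v hv huv =>
      he.ok (h.rc u (by simp [hu]) v hv huv) ((fm_rdc F C w).keep (fun h => h2 (h.1 ▸ hu))
        fun h' => hd u h'.2 (h1.subset hu))
    have hm : ∀ l ∈ L, l ∈ R0 ∧ l ∉ R ∧ ∀ c ∈ C, no (F \ rdc C w) a s(l, c) := fun l hl =>
      ⟨(h.mem l hl).1, fun h' => (h.mem l hl).2.1 (by simp [h']),
        fun c hc => he.no ((h.mem l hl).2.2 c hc)⟩
    cases hf : free (o a) C w with
    | none => exact ⟨h1, h.nd, hm, hrc, hfm⟩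
    | some x =>
      obtain ⟨rfl, hx⟩ := free_some hf
      refine ⟨h1, List.nodup_cons.2 ⟨fun h' => (h.mem x h').2.1 (by simp), h.nd⟩, ?_, hrc, hfm⟩
      intro l hl
      rcases List.mem_cons.1 hl with rfl | hl
      exacts [⟨h3, h2, fun c hc => ⟨fun h => h.2 ⟨c, hc, rfl⟩, hx c hc⟩⟩, hm l hl]
  · intro _ w R L F η h hb
    have h1 := free_prob (μ := μ) (fun _ => False) (fun c hc => h.rc w (by simp) c hc
      fun e => hd c hc (e ▸ h.suf.subset (by simp))) (by simp)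
    simp only [not_false_eq_true, decide_true, List.filter_true] at h1
    linarith

end

end Pool.Agent.Lib.MP_1b5cbf_lc
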