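import Pool.Agent.Lib.MP_1b5cbf_lc.Garb

/-! From the binomial to the uniform random graph. -/

set_option autoImplicit false

namespace Pool.Agent.Lib.MP_1b5cbf_lc

open Finset Classical Real

noncomputable section

theorem mode_nat {N M : ℕ} (hM : M ≤ N) :
    N ^ N ≤ (N + 1) * (M ^ M * (N - M) ^ (N - M) * N.choose M) := by
  set f := fun j => M ^ j * (N - M) ^ (N - j) * N.choose j
  have key : ∀ j < N, f (j + 1) * ((j + 1) * (N - M)) = f j * ((N - j) * M) := by
    intro j hj
    have := Nat.choose_succ_right_eq N j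
    simp only [f]
    rw [show N - j = N - (j + 1) + 1 by omega] at this ⊢
    calc _ = M ^ (j + 1) * (N - M) ^ (N - (j + 1) + 1) * (N.choose (j + 1) * (j + 1)) := by ring
      _ = _ := by rw [this]; ring
  have up : ∀ i j, j + i = M → f j ≤ f M := by
    intro i
    induction i with
    | zero => intro j h; rw [← h]; rfl
    | succ i ih =>
      intro j h
      refine le_trans (Nat.le_of_mul_le_mul_right ?_
        (Nat.mul_pos (by omega : 0 < N - j) (by omega : 0 < M))) (ih (j + 1) (by omega))
      rw [← key j (by omega), mul_comm (N - j)]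
      gcongr <;> omega
  have dn : ∀ i, M + i ≤ N → f (M + i) ≤ f M := by
    intro i
    induction i with
    | zero => exact fun _ => le_rfl
    | succ i ih =>
      intro h
      refine le_trans (Nat.le_of_mul_le_mul_right ?_
        (Nat.mul_pos (by omega : 0 < M + i + 1) (by omega : 0 < N - M))) (ih (by omega))
      rw [← add_assoc, key _ (by omega), mul_comm (M + i + 1)]
      gcongr <;> omega
  have := add_pow M (N - M) N
  rw [Nat.add_sub_cancel' hM] at this
  rw [this]
  refine (sum_le_card_nsmul _ _ (f M) fun j hj => ?_).trans (by simp [f])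
  rcases le_total j M with h | h
  · exact up (M - j) j (by omega)
  · have := dn (j - M) (by have := mem_range.1 hj; omega)
    rwa [Nat.add_sub_cancel' h] at this

theorem mode_real {N M : ℕ} (hM : M ≤ N) (hN : 0 < N) :
    1 ≤ (N + 1) * (((M : ℝ) / N) ^ M * (1 - (M : ℝ) / N) ^ (N - M) * N.choose M) := by
  have h0 : (0 : ℝ) < N := by exact_mod_cast hN
  have h1 : ((N : ℝ)) ^ N ≤ (N + 1) * (M ^ M * (N - M) ^ (N - M) * N.choose M) := by
    exact_mod_cast mode_nat hM
  rw [one_sub_div h0.ne', div_pow, div_pow, div_mul_div_comm, ← pow_add, Nat.add_sub_cancel' hM,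
    div_mul_eq_mul_div, ← mul_div_assoc, one_le_div (by positivity)]
  exact h1

theorem card_Ed (n : ℕ) : Fintype.card (Ed n) = n.choose 2 := by
  rw [SimpleGraph.card_edgeSet, SimpleGraph.card_edgeFinset_top_eq_card_choose_two, Fintype.card_fin]

def om {n : ℕ} (G : SimpleGraph (Fin n)) : Ed n → Bool := fun i => decide (i.1 ∈ G.edgeSet)

theorem om_inj {n : ℕ} : Function.Injective (om (n := n)) := fun G H h => by
  ext u v
  by_cases e : u = v
  · simp [e]
  · simpa [om] using congrFun h ⟨s(u, v), by simpa using e⟩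

theorem wt_om {n : ℕ} (p : ℝ) (G : SimpleGraph (Fin n)) :
    wt p (om G) = p ^ G.edgeSet.ncard * (1 - p) ^ (n.choose 2 - G.edgeSet.ncard) := by
  have h1 : #(univ.filter fun i => om G i = true) = G.edgeSet.ncard := by
    rw [← Set.ncard_coe_finset, ← Set.ncard_image_of_injective _ Subtype.val_injective]
    congr 1
    ext e
    simp only [om, coe_filter, mem_univ, true_and, decide_eq_true_eq, Set.mem_image,
      Set.mem_ofPred_eq, Subtype.exists, exists_and_right, exists_eq_right, exists_prop]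
    exact ⟨fun h => h.2, fun h => ⟨SimpleGraph.edgeSet_mono le_top h, h⟩⟩
  have h2 := card_filter_add_card_filter_not (s := univ) fun i => om G i = true
  rw [card_univ, card_Ed, h1] at h2
  rw [wt, prod_ite, prod_const, prod_const, h1, ← h2, Nat.add_sub_cancel_left]

theorem total_ge (n M : ℕ) :
    (n.choose 2).choose M ≤ {G : SimpleGraph (Fin n) | G.edgeSet.ncard = M}.ncard := by
  have e : ∀ S : Finset (Ed n), (SimpleGraph.fromEdgeSet (Subtype.val '' (S : Set (Ed n)))).edgeSet
      = Subtype.val '' (S : Set (Ed n)) := fun S => by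
    rw [SimpleGraph.edgeSet_fromEdgeSet, sdiff_eq_left, Set.disjoint_left]
    rintro _ ⟨i, -, rfl⟩ h
    exact SimpleGraph.not_isDiag_of_mem_edgeSet _ i.2 h
  rw [← card_Ed, ← card_univ, ← card_powersetCard, ← Set.ncard_coe_finset]
  refine Set.ncard_le_ncard_of_injOn
    (fun S => SimpleGraph.fromEdgeSet (Subtype.val '' (S : Set (Ed n)))) (fun S hS => ?_)
    fun S _ S' _ h => ?_
  · rw [Set.mem_ofPred_eq, e, Set.ncard_image_of_injective _ Subtype.val_injective,
      Set.ncard_coe_finset, (mem_powersetCard.1 hS).2]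
  · have := congrArg SimpleGraph.edgeSet h
    rw [e, e] at this
    exact coe_injective (Subtype.val_injective.image_injective this)

theorem transfer {μ : Pm} {M : ℕ} (hM : M ≤ μ.n.choose 2) (hN : 0 < μ.n.choose 2)
    (hp : μ.p = M / μ.n.choose 2) (B : A → Prop) (Q : SimpleGraph (Fin μ.n) → Prop)
    (h : ∀ G, ¬B (toA (om G)) → Q G) :
    1 - (μ.n.choose 2 + 1) * E μ (fun a => ind (B a)) ≤
      ({G | G.edgeSet.ncard = M ∧ Q G}.ncard : ℝ) / {G : SimpleGraph (Fin μ.n) |
        G.edgeSet.ncard = M}.ncard := by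
  have h0 := μ.h0
  have h1 := sub_nonneg.2 μ.h1
  set w := μ.p ^ M * (1 - μ.p) ^ (μ.n.choose 2 - M)
  set S := univ.filter fun G : SimpleGraph (Fin μ.n) => G.edgeSet.ncard = M
  have a1 : #(S.filter fun G => ¬Q G) * w ≤ E μ fun a => ind (B a) := by
    rw [← nsmul_eq_mul, ← sum_const, E]
    refine le_trans ?_ (sum_le_sum_of_subset_of_nonneg (subset_univ
      ((S.filter fun G => ¬Q G).image om)) fun ω _ _ => mul_nonneg (wt_nonneg μ ω) (ind_nonneg _))
    rw [sum_image fun _ _ _ _ h => om_inj h]
    refine sum_le_sum fun G hG => ?_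
    simp only [S, mem_filter, mem_univ, true_and] at hG
    rw [wt_om, hG.1, ind_pos (not_not.1 (mt (h G) hG.2)), mul_one]
  have a2 : {G : SimpleGraph (Fin μ.n) | G.edgeSet.ncard = M}.ncard = #S := by
    rw [← Set.ncard_coe_finset]; congr 1; ext; simp [S]
  have a3 : {G | G.edgeSet.ncard = M ∧ Q G}.ncard = #(S.filter Q) := by
    rw [← Set.ncard_coe_finset]; congr 1; ext; simp [S]
  have a4 : ((μ.n.choose 2).choose M : ℝ) ≤ #S := by exact_mod_cast a2 ▸ total_ge μ.n M
  have a5 := mode_real hM hN
  rw [← hp] at a5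
  have a6 : (#(S.filter Q) : ℝ) + #(S.filter fun G => ¬Q G) = #S := by
    exact_mod_cast card_filter_add_card_filter_not Q
  have a7 : (0 : ℝ) < #S := lt_of_lt_of_le (by exact_mod_cast Nat.choose_pos hM) a4
  have a8 : 1 ≤ (μ.n.choose 2 + 1) * (w * #S) := a5.trans (by gcongr)
  rw [a2, a3, le_div_iff₀ a7]
  have a9 := mul_le_mul_of_nonneg_left a8 (Nat.cast_nonneg #(S.filter fun G => ¬Q G) : (0 : ℝ) ≤ _)
  nlinarith [mul_le_mul_of_nonneg_left a1 (by positivity : (0 : ℝ) ≤ (μ.n.choose 2 + 1) * #S)]

def mat {n : ℕ} (G : SimpleGraph (Fin n)) : List (List Bool) :=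
  List.ofFn fun u => List.ofFn fun v => decide (G.Adj u v)

theorem ad_mat {n : ℕ} (G : SimpleGraph (Fin n)) : ad (mat G) = o (toA (om G)) := by
  funext u v
  by_cases h : u < n ∧ v < n ∧ u ≠ v
  · rw [o, show s(u, v) = emb ⟨s(⟨u, h.1⟩, ⟨v, h.2.1⟩), by simpa using h.2.2⟩ from rfl, toA_emb]
    simp [ad, mat, om, h.1, h.2.1]
  · rw [o, toA_not]
    · by_cases hu : u < n
      · by_cases hv : v < n
        · obtain rfl : u = v := by tauto
          simp [ad, mat, hu]
        · simp [ad, mat, hu, hv]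
      · simp [ad, mat, hu]
    · rintro ⟨⟨e, he⟩, h'⟩
      induction e using Sym2.ind with
      | _ a b =>
        have := a.2
        have := b.2
        have : a.1 ≠ b.1 := fun e => by simpa using he (Fin.ext e)
        simp only [emb, Sym2.map_mk, Sym2.eq_iff] at h'
        omega

theorem col_of_valid {n k : ℕ} (G : SimpleGraph (Fin n)) {c : List ℕ} (hl : c.length = n)
    (h : valid (ad (mat G)) n k c) :
    ∃ f : G.Coloring (Fin k), c = List.ofFn fun v => (f v : ℕ) := by
  replace h := valid_iff.1 h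
  refine ⟨SimpleGraph.Coloring.mk (fun v => ⟨c.getD v 0, (h v v.2).1⟩) fun {u v} huv e => ?_, ?_⟩
  · exact (h u u.2).2 v v.2 (fun e => huv.ne (Fin.ext e)) (by simpa [ad, mat] using huv)
      (congrArg Fin.val e)
  · refine List.ext_getElem (by simp [hl]) fun i h1 h2 => ?_
    rw [List.getElem_ofFn]
    exact (List.getD_eq_getElem _ _ h1).symm

end

end Pool.Agent.Lib.MP_1b5cbf_lc
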