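import Pool.Agent.Lib.MP_1b5cbf_lc.Stage

/-! Growing the augmenting trees. -/

set_option autoImplicit false

namespace Pool.Agent.Lib.MP_1b5cbf_lc

open Finset Classical Real

noncomputable section

variable {μ : Pm}

theorem num1 {b K : ℕ} {q u : ℝ} (h1 : u ≤ b) (h2 : 2 * b ≤ q * K) :
    2 ^ b * exp (-q / 2) ^ K ≤ exp (-u / 4) := by
  have : (2 : ℝ) ^ b = exp (b * log 2) := by rw [exp_nat_mul, exp_log two_pos]
  rw [this, ← exp_nat_mul, ← exp_add, exp_le_exp]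
  nlinarith [log_two_lt_d9, (Nat.cast_nonneg b : (0 : ℝ) ≤ b)]

theorem num2 {j β e M : ℕ} {u : ℝ} (hj : j ≤ β) (h1 : β + e ≤ M) (h2 : u ≤ e)
    (h3 : μ.p * M * M ≤ 0.44 * e) : 2 ^ j * (1 - (1 - μ.p) ^ β / 2) ^ M ≤ exp (-u / 4) := by
  have h0 := μ.h0
  have h4 := one_add_mul_le_pow (a := -μ.p) (by linarith [μ.h1]) β
  have h5 : (β : ℝ) + e ≤ M := by exact_mod_cast h1
  have h6 : (j : ℝ) ≤ β := by exact_mod_cast hj
  have he : (0 : ℝ) ≤ e := Nat.cast_nonneg e
  have h7 : 1 - (1 - μ.p) ^ β / 2 ≤ exp (μ.p * M - log 2) := by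
    rw [exp_sub, exp_log two_pos, sub_eq_add_neg 1 μ.p]
    nlinarith [add_one_le_exp (μ.p * M)]
  have h8 : 0 ≤ 1 - (1 - μ.p) ^ β / 2 := by
    linarith [pow_le_one₀ (n := β) (sub_nonneg.2 μ.h1) (sub_le_self 1 h0)]
  have : (2 : ℝ) ^ j = exp (j * log 2) := by rw [exp_nat_mul, exp_log two_pos]
  refine (mul_le_mul_of_nonneg_left (pow_le_pow_left₀ h8 h7 M) (by positivity)).trans ?_
  rw [this, ← exp_nat_mul, ← exp_add, exp_le_exp]
  nlinarith [log_two_gt_d9]

structure BI (F1 : Fr) (R0 C T R : List ℕ) (F : Fr) (a : A) : Prop where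
  suf : R <:+ R0
  rr : OK F a R0 R0
  rc : OK F a R C
  fr : FR F R T
  ind : Ind F a C
  fm : Fm F1 F (fun x => x ∈ R0 ∧ x ∉ R) (· ∈ C)

structure Good (R0 C R : List ℕ) (X : List Nd) (F : Fr) (a : A) : Prop where
  nd : ∀ x ∈ X, x.2.2.Nodup
  mem : ∀ x ∈ X, ∀ l ∈ x.2.2, l ∈ R0 ∧ l ∉ R ∧ ∀ c ∈ C, c ∉ x.2.1 → no F a s(l, c)
  dis : ∀ x ∈ X, ∀ y ∈ X, x.1 ≠ y.1 → ∀ l ∈ x.2.2, l ∉ y.2.2

theorem Good.ext {R0 C R R' : List ℕ} {X X' : List Nd} {F F' : Fr} {η a : A}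
    (h : Good R0 C R X F η) (he : Ext F η F' a) (hR : R' ⊆ R) (hX : X' ⊆ X) :
    Good R0 C R' X' F' a :=
  ⟨fun x hx => h.nd x (hX hx), fun x hx l hl => let ⟨a, b, c⟩ := h.mem x (hX hx) l hl
    ⟨a, fun h => b (hR h), fun v hv hv' => he.no (c v hv hv')⟩,
    fun x hx y hy => h.dis x (hX hx) y (hX hy)⟩

theorem BI.stab {F1 : Fr} {R0 C T R : List ℕ} : Stab (BI F1 R0 C T R) := fun _ _ _ h he =>
  ⟨h.suf, h.rr.stab he, h.rc.stab he, h.fr, h.ind.ext he, h.fm⟩

theorem pstage {F1 F : Fr} {R0 C T R : List ℕ} {Y : List Nd} {j b M : ℕ}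
    {ok : List Nd → Nd → Bool} {Z : List Nd → Prop} {m u : ℝ} {G : Prop}
    (hR : R0.Nodup) (hd : ∀ c ∈ C, c ∉ R0) (hn : ∀ w ∈ R0, w < μ.n) (hZ0 : Z [])
    (hZ : ∀ H w, ∀ y ∈ Y, Z H → ok H y → Z ((y.1, y.2.1, w :: y.2.2) :: H))
    (hc : G → ∀ H, Z H → H.length < b → ∃ 𝒴 : Finset (Finset ℕ), m ≤ #𝒴 ∧ ∀ S ∈ 𝒴, #S ≤ j ∧
      (∀ c ∈ S, c ∈ T ∧ c ∈ C ∧ c < μ.n) ∧ ∃ y ∈ Y, ok H y ∧ ∀ c, c ∈ y.2.1.take j ↔ c ∈ S)
    (hK : G → u ≤ b ∧ 2 * b ≤ m * (μ.p ^ j * (1 - μ.p) ^ C.length) * M) :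
    TP μ (exp (-u / 4)) F (fun η => BI F1 R0 C T R F η ∧ Good R0 C R Y F η)
      (fun a => scan b (pick (o a) C Y j ok) R []) fun x F' a => BI F1 R0 C T x.1 F' a ∧
        Good R0 C x.1 x.2 F' a ∧ Z x.2 ∧ x.2.length ≤ b ∧
          (G → M ≤ R.length → b ≤ x.2.length ∧ R.length ≤ x.1.length + M) := by
  refine (seq (μ := μ) (b := b) (acc := fun a => pick (o a) C Y j ok) (rd := fun _ => rdc C)
    (I := fun R H F a => BI F1 R0 C T R F a ∧ Good R0 C R (H ++ Y) F a ∧ Z H) (G := G)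
    (θ := exp (-(m * (μ.p ^ j * (1 - μ.p) ^ C.length)) / 2)) (exp_pos _).le ?_
    (fun R H F η a h he => ⟨BI.stab _ _ _ h.1 he, h.2.1.ext he (by simp) (by simp), h.2.2⟩)
    ?_ ?_ R [] M F).conseq ?_ (exp_pos _).le fun η h => ⟨⟨h.1, h.2, hZ0⟩, fun a F' he h =>
      ⟨h.1.1, h.1.2.1.ext ⟨le_rfl, fun _ _ => rfl⟩ (by simp) (by simp), h.1.2.2,
        by simpa using scan_le (b := b) R [], h.2⟩⟩
  · intro H w a a' h
    unfold pick
    congr 2
    funext y
    congr 1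
    rw [Bool.eq_iff_iff]
    simp only [List.all_eq_true]
    refine forall₂_congr fun c hc => ?_
    rw [o, o, h _ ⟨c, hc, rfl⟩]
  · intro w R H F η a ⟨h, hg, hz⟩ hb he
    obtain ⟨h1, h2, h3⟩ := suf_cons h.suf hR
    have keep : ∀ u ∈ R, ∀ v, s(u, v) ∈ F → s(u, v) ∈ F \ rdc C w := fun u hu v =>
      (fm_rdc F C w).keep (fun h => h2 (h.1 ▸ hu)) fun h' => hd u h'.2 (h1.subset hu)
    have hB : BI F1 R0 C T R (F \ rdc C w) a := ⟨h1, fun u hu v hv huv =>
      he.ok (h.rr u hu v hv huv) ((fm_rdc F C w).keep (fun h => hd v h.2 hv) fun h => hd u h.2 hu),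
      fun u hu v hv huv => he.ok (h.rc u (by simp [hu]) v hv huv) (keep u hu v),
      fun u hu v hv => keep u hu v (h.fr u (by simp [hu]) v hv), h.ind.ext he,
      (h.fm.mono (fun x hx => ⟨hx.1, fun h => hx.2 (by simp [h])⟩) fun x hx => hx).trans
        ((fm_rdc F C w).mono (fun x hx => hx ▸ ⟨h3, h2⟩) fun x hx => hx)⟩
    have hg' := hg.ext he (R' := R) (by simp) (List.Subset.refl _)
    cases hf : pick (o a) C Y j ok H w with
    | none => exact ⟨hB, hg', hz⟩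
    | some x =>
      obtain ⟨y, hy, rfl, hok, hx⟩ := pick_mem hf
      have hy' : y ∈ H ++ Y := by simp [hy]
      have hw : ∀ z ∈ H ++ Y, w ∉ z.2.2 := fun z hz h => (hg.mem z hz w h).2.1 (by simp)
      refine ⟨hB, ⟨?_, ?_, ?_⟩, hZ H w y hy hz hok⟩
      · intro z hz
        rcases List.mem_cons.1 hz with rfl | hz
        exacts [List.nodup_cons.2 ⟨hw y hy', hg.nd y hy'⟩, hg.nd z hz]
      · intro z hz l hl
        rcases List.mem_cons.1 hz with rfl | hz
        · rcases List.mem_cons.1 hl with rfl | hl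
          · exact ⟨h3, h2, fun c hc hc' => ⟨fun h => h.2 ⟨c, hc, rfl⟩,
              (hx c hc).trans (decide_eq_false fun h => hc' (List.mem_of_mem_take h))⟩⟩
          · exact hg'.mem y hy' l hl
        · exact hg'.mem z hz l hl
      · intro z hz z' hz' hne l hl hl'
        rcases List.mem_cons.1 hz with e | hz1 <;> rcases List.mem_cons.1 hz' with e' | hz2
        · exact hne (by rw [e, e'])
        · subst e
          rcases List.mem_cons.1 hl with rfl | hl
          exacts [hw z' hz2 hl', hg.dis y hy' z' hz2 hne l hl hl']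
        · subst e'
          rcases List.mem_cons.1 hl' with rfl | hl'
          exacts [hw z hz1 hl, hg.dis z hz1 y hy' hne l hl hl']
        · exact hg.dis z hz1 z' hz2 hne l hl hl'
  · intro hG w R H F η ⟨h, _, hz⟩ hb
    obtain ⟨𝒴, h1, h2⟩ := hc hG H hz hb
    have hw : w ∈ R0 := h.suf.subset (by simp)
    have h3 : ∀ S ∈ 𝒴, μ.p ^ j * (1 - μ.p) ^ C.length ≤
        E μ fun ω => ind (∀ c ∈ C, mix F η ω s(w, c) = decide (c ∈ S)) := fun S hS => by
      have := pattern (μ := μ) (F := F) (η := η) (w := w) C S (fun _ => False)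
        (fun c hc => let ⟨a1, a2, a3⟩ := (h2 S hS).2.1 c hc
          ⟨h.fr w (by simp) c a1, vd_of (hn w hw) a3 fun e => hd c a2 (e ▸ hw)⟩) (h2 S hS).1
        (fun c hc => h.rc w (by simp) c hc fun e => hd c hc (e ▸ hw)) (by simp)
      simpa using this
    have h4 := card_nsmul_le_sum _ _ _ h3
    rw [← E_sum, nsmul_eq_mul] at h4
    have h5 := h4.trans (E_mono (g := fun ω => ind (pick (o (mix F η ω)) C Y j ok H w).isSome)
      fun ω => by
        by_cases hS : ∃ S ∈ 𝒴, ∀ c ∈ C, mix F η ω s(w, c) = decide (c ∈ S)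
        · obtain ⟨S, hS, hp⟩ := hS
          obtain ⟨y, hy, hok, hy'⟩ := (h2 S hS).2.2
          rw [sum_eq_single S (fun S' hS' hne => ind_neg fun hp' => hne ?_) (fun h => absurd hS h)]
          · refine ind_mono fun _ => ?_
            simp only [pick, Option.isSome_map, List.find?_isSome, Bool.and_eq_true,
              List.all_eq_true, beq_iff_eq]
            exact ⟨y, hy, hok, fun c hc => by simp only [hy']; exact hp c hc⟩
          · ext c
            by_cases hc : c ∈ C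
            · simpa using (hp' c hc).symm.trans (hp c hc)
            · exact ⟨fun h => absurd ((h2 S' hS').2.1 c h).2.1 hc,
                fun h => absurd ((h2 S hS).2.1 c h).2.1 hc⟩
        · rw [sum_eq_zero fun S hS' => ind_neg fun h => hS ⟨S, hS', h⟩]
          exact ind_nonneg _)
    have h6 := mul_le_mul_of_nonneg_right h1
      (mul_nonneg (pow_nonneg μ.h0 j) (pow_nonneg (sub_nonneg.2 μ.h1) C.length))
    linarith [add_one_le_exp (-(m * (μ.p ^ j * (1 - μ.p) ^ C.length)) / 2)]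
  · by_cases hG : G
    · rw [ind_pos hG, one_mul]; exact num1 (hK hG).1 (hK hG).2
    · rw [ind_neg hG, zero_mul]; exact (exp_pos _).le

theorem cr_cons (x : Nd) (H : List Nd) (ρ : ℕ) :
    cr (x :: H) ρ = cr H ρ + if x.1 = ρ then 1 else 0 := by
  simp [cr, List.countP_cons]

theorem sum_cr (S : Finset ℕ) (H : List Nd) :
    ∑ ρ ∈ S, cr H ρ = H.countP fun x => decide (x.1 ∈ S) := by
  induction H with
  | nil => simp [cr]
  | cons x H ih => simp [cr_cons, sum_add_distrib, ih, List.countP_cons]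

theorem blocked {Y H : List Nd} {α β : ℕ} (q : ℕ → Bool)
    (h : ∀ ρ, ¬q ρ → α * cr Y ρ ≤ β * cr H ρ) :
    α * Y.length ≤ α * (Y.filter fun y => q y.1).length + β * H.length := by
  set S := (Y.map Prod.fst).toFinset.filter fun ρ => ¬q ρ
  have h1 : α * ∑ ρ ∈ S, cr Y ρ ≤ β * ∑ ρ ∈ S, cr H ρ := by
    rw [mul_sum, mul_sum]; exact sum_le_sum fun ρ hρ => h ρ (mem_filter.1 hρ).2
  rw [sum_cr, sum_cr] at h1
  have h2 := List.length_eq_countP_add_countP (fun y : Nd => q y.1) (l := Y)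
  have h3 : (Y.countP fun y => decide ¬q y.1 = true) = Y.countP fun x => decide (x.1 ∈ S) :=
    List.countP_congr fun y hy => by
      simp only [S, mem_filter, List.mem_toFinset, decide_eq_true_eq, iff_and_self]
      exact fun _ => List.mem_map_of_mem hy
  have h4 := Nat.mul_le_mul_left β (List.countP_le_length (p := fun x : Nd => decide (x.1 ∈ S))
    (l := H))
  rw [← List.countP_eq_length_filter, h2, h3, mul_add]
  omega

theorem card_heads {Y : List Nd} (hY : (Y.map hd).Nodup) (q : Nd → Bool) :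
    #((Y.filter q).map hd).toFinset = (Y.filter q).length := by
  rw [List.toFinset_card_of_nodup (hY.sublist (List.filter_sublist.map _)), List.length_map]

theorem cstage {F1 F : Fr} {R0 C T R : List ℕ} {Y : List Nd} {b B M : ℕ} {m u : ℝ} {G : Prop}
    (hR : R0.Nodup) (hd' : ∀ c ∈ C, c ∉ R0) (hn : ∀ w ∈ R0, w < μ.n) (hY : (Y.map hd).Nodup)
    (hY1 : ∀ y ∈ Y, y.2.1 ≠ [] ∧ hd y ∈ T ∧ hd y ∈ C ∧ hd y < μ.n) (hB : ∀ ρ, cr Y ρ ≤ B)
    (hK : G → 2 * b * B ≤ Y.length ∧ 2 * m ≤ Y.length ∧ u ≤ b ∧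
      2 * b ≤ m * (μ.p * (1 - μ.p) ^ C.length) * M) :
    TP μ (exp (-u / 4)) F (fun η => BI F1 R0 C T R F η ∧ Good R0 C R Y F η)
      (fun a => cls (o a) b C R Y) fun x F' a => BI F1 R0 C T x.1 F' a ∧
        Good R0 C x.1 x.2 F' a ∧ ((∀ z ∈ x.2, ∃ y ∈ Y, z.1 = y.1 ∧ z.2.1 = y.2.1 ∧
          z.2.2.length = y.2.2.length + 1) ∧ ∀ ρ, cr x.2 ρ ≤ 1) ∧ x.2.length ≤ b ∧
          (G → M ≤ R.length → b ≤ x.2.length ∧ R.length ≤ x.1.length + M) := by
  refine pstage (m := m) (Z := fun H => (∀ z ∈ H, ∃ y ∈ Y, z.1 = y.1 ∧ z.2.1 = y.2.1 ∧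
    z.2.2.length = y.2.2.length + 1) ∧ ∀ ρ, cr H ρ ≤ 1) hR hd' hn (by simp [cr]) ?_ ?_
    fun hG => ⟨(hK hG).2.2.1, by simpa using (hK hG).2.2.2⟩
  · intro H w y hy hz hok
    refine ⟨fun z hz' => ?_, fun ρ => ?_⟩
    · rcases List.mem_cons.1 hz' with rfl | hz'
      exacts [⟨y, hy, rfl, rfl, rfl⟩, hz.1 z hz']
    · have := hz.2 ρ
      rw [cr_cons]
      split_ifs with h
      · subst h; simp only [beq_iff_eq] at hok; simp only [hok]; rfl
      · exact this
  · intro hG H _ hb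
    refine ⟨((Y.filter fun y => cr H y.1 == 0).map hd).toFinset.image singleton, ?_, ?_⟩
    · rw [card_image_of_injective _ singleton_injective, card_heads hY]
      have h1 := blocked (Y := Y) (H := H) (α := 1) (β := B) (fun ρ => cr H ρ == 0) fun ρ h => by
        have := hB ρ
        simp only [beq_iff_eq] at h
        nlinarith [Nat.pos_of_ne_zero h]
      have h2 := (hK hG).1
      have h3 : Y.length ≤ 2 * (Y.filter fun y => cr H y.1 == 0).length := by nlinarith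
      have h4 : (Y.length : ℝ) ≤ 2 * (Y.filter fun y => cr H y.1 == 0).length := by
        exact_mod_cast h3
      linarith [(hK hG).2.1]
    · simp only [mem_image, List.mem_toFinset, List.mem_map, List.mem_filter]
      rintro _ ⟨_, ⟨y, ⟨hy, hok⟩, rfl⟩, rfl⟩
      refine ⟨by simp, by simpa using (hY1 y hy).2, y, hy, hok, fun c => ?_⟩
      obtain ⟨v, l, e⟩ := List.exists_cons_of_ne_nil (hY1 y hy).1
      simp [hd, e]

structure Lv (n : ℕ) (C T : List ℕ) (g i : ℕ) (H : List Nd) : Prop where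
  sh : ∀ x ∈ H, x.2.1.length = i + 1 ∧ x.2.2.length = i + 1 ∧ x.2.1 ⊆ T ∧ hd x ∈ C ∧ hd x < n
  nd : (H.map hd).Nodup
  cap : ∀ ρ, cr H ρ ≤ (g + 1) ^ i

theorem estage {F1 F : Fr} {R0 C T T' : List ℕ} {s : List ℕ × List Nd} {g i M : ℕ} {t u : ℝ}
    {G : Prop} (hR : R0.Nodup) (hd' : ∀ c ∈ C, c ∉ R0) (hn : ∀ w ∈ R0, w < μ.n) (hT : T'.Nodup)
    (hT' : ∀ v ∈ T', v ∈ T ∧ v ∈ C ∧ v < μ.n) (hL : Lv μ.n C T g i s.2) (ht : t ≤ T'.length)
    (hK : G → 2 * (s.2.length + g * s.2.length) ≤ t ∧ u ≤ (g * s.2.length : ℕ) ∧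
      2 * g * (g + 1) ≤ t / 2 * (μ.p ^ 2 * (1 - μ.p) ^ C.length) * M) :
    TP μ (exp (-u / 4)) F (fun η => BI F1 R0 C T s.1 F η ∧ Good R0 C s.1 s.2 F η)
      (fun a => ext (o a) g C T' s) fun x F' a => BI F1 R0 C T x.1 F' a ∧
        Good R0 C x.1 x.2 F' a ∧ Lv μ.n C T g (i + 1) x.2 ∧ x.2.length ≤ g * s.2.length ∧
          (G → M ≤ s.1.length → g * s.2.length ≤ x.2.length ∧ s.1.length ≤ x.1.length + M) := by
  obtain ⟨R, H0⟩ := s
  dsimp only at *
  have mk : ∀ y ∈ kids T' H0, ∃ x ∈ H0, ∃ v ∈ T', (x.1, v :: x.2.1, x.2.2) = y := by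
    simp [kids]
  refine (pstage (F1 := F1) (T := T) (R := R) (M := M) (m := H0.length / (g + 1) * (t / 2)) (G := G)
    (Y := kids T' H0) (Z := fun H => (∀ x ∈ H, x.2.1.length = i + 1 + 1 ∧
      x.2.2.length = i + 1 + 1 ∧ x.2.1 ⊆ T ∧ hd x ∈ C ∧ hd x < μ.n) ∧ (H.map hd).Nodup ∧
      ∀ ρ, cr H ρ ≤ (g + 1) * cr H0 ρ) hR hd' hn (by simp [cr]) ?_ ?_ fun hG => ⟨(hK hG).2.1, ?_⟩).conseq
    le_rfl (exp_pos _).le fun η h => ⟨⟨h.1, ?_, ?_, ?_⟩, fun a F' _ h => ⟨h.1, h.2.1,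
      ⟨h.2.2.1.1, h.2.2.1.2.1, fun ρ => (h.2.2.1.2.2 ρ).trans ?_⟩, h.2.2.2⟩⟩
  · intro H w y hy hz hok
    obtain ⟨x, hx, v, hv, rfl⟩ := mk y hy
    simp only [Bool.and_eq_true, decide_eq_true_eq, List.all_eq_true, Bool.not_eq_eq_eq_not,
      Bool.not_true, beq_eq_false_iff_ne] at hok
    refine ⟨fun z hz' => ?_, List.nodup_cons.2 ⟨fun h => ?_, hz.2.1⟩, fun ρ => ?_⟩
    · rcases List.mem_cons.1 hz' with rfl | hz'
      · obtain ⟨a1, a2, a3, -⟩ := hL.sh x hx
        exact ⟨by simp [a1], by simp [a2], by simp [a3, (hT' v hv).1], (hT' v hv).2⟩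
      · exact hz.1 z hz'
    · obtain ⟨z, hz', e⟩ := List.mem_map.1 h
      exact hok.2 z hz' e
    · have := hz.2.2 ρ
      rw [cr_cons]
      split_ifs with h
      · subst h; exact hok.1
      · exact this
  · intro hG H hz hb
    set Es := ((H0.filter fun y => decide (cr H y.1 < (g + 1) * cr H0 y.1)).map hd).toFinset
    set Us := T'.toFinset \ (H0.map hd ++ H.map hd).toFinset
    have hE : ∀ e ∈ Es, ∃ x ∈ H0, cr H x.1 < (g + 1) * cr H0 x.1 ∧ hd x = e := by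
      simp only [Es, List.mem_toFinset, List.mem_map, List.mem_filter, decide_eq_true_eq]
      exact fun e ⟨x, hx, he⟩ => ⟨x, hx.1, hx.2, he⟩
    have hU : ∀ v ∈ Us, v ∈ T' ∧ (∀ x ∈ H0, hd x ≠ v) ∧ ∀ x ∈ H, hd x ≠ v := by
      simp [Us]
    refine ⟨(Es ×ˢ Us).image fun q => {q.2, q.1}, ?_, ?_⟩
    · rw [card_image_of_injOn, card_product, card_heads hL.nd]
      · have h1 := blocked (Y := H0) (H := H) (α := g + 1) (β := 1)
          (fun ρ => decide (cr H ρ < (g + 1) * cr H0 ρ)) fun ρ h => by simpa using h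
        have h2 : H0.length ≤ (g + 1) * (H0.filter fun y =>
            decide (cr H y.1 < (g + 1) * cr H0 y.1)).length := by nlinarith
        have h3 : T'.length ≤ #Us + (H0.length + g * H0.length) := by
          have : _ ≤ #Us := le_card_sdiff (H0.map hd ++ H.map hd).toFinset T'.toFinset
          have h4 := List.toFinset_card_le (H0.map hd ++ H.map hd)
          rw [List.toFinset_card_of_nodup hT] at this
          simp only [List.length_append, List.length_map] at h4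
          omega
        have h2' : (H0.length : ℝ) ≤ (g + 1) * (H0.filter fun y =>
            decide (cr H y.1 < (g + 1) * cr H0 y.1)).length := by exact_mod_cast h2
        have h3' : (T'.length : ℝ) ≤ #Us + (H0.length + g * H0.length) := by exact_mod_cast h3
        have h4 := (hK hG).1
        have h5 : (0 : ℝ) ≤ H0.length + g * H0.length := by positivity
        push_cast
        exact mul_le_mul ((div_le_iff₀' (by positivity)).2 h2') (by linarith) (by linarith)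
          (by positivity)
      · rintro ⟨e, v⟩ h ⟨e', v'⟩ h' heq
        simp only [coe_product, Set.mem_prod, mem_coe] at h h'
        have ne : ∀ e ∈ Es, ∀ v ∈ Us, e ≠ v := fun e he v hv => by
          obtain ⟨x, hx, -, rfl⟩ := hE e he
          exact (hU v hv).2.1 x hx
        have a1 : v ∈ ({v', e'} : Finset ℕ) := by simp only at heq; rw [← heq]; simp
        have a2 : e ∈ ({v', e'} : Finset ℕ) := by simp only at heq; rw [← heq]; simp
        simp only [mem_insert, mem_singleton] at a1 a2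
        rw [a1.resolve_right (ne e' h'.1 v h.2).symm, a2.resolve_left (ne e h.1 v' h'.2)]
    · simp only [mem_image, mem_product]
      rintro _ ⟨⟨e, v⟩, ⟨he, hv⟩, rfl⟩
      obtain ⟨x, hx, hc, rfl⟩ := hE e he
      obtain ⟨a1, -, a3, a4⟩ := hL.sh x hx
      obtain ⟨e, l, el⟩ := List.exists_cons_of_length_eq_add_one a1
      have he' : hd x = e := by simp [hd, el]
      refine ⟨card_le_two, fun c hc => ?_, (x.1, v :: x.2.1, x.2.2), ?_, ?_, fun c => ?_⟩
      · rcases mem_insert.1 hc with rfl | hc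
        · exact hT' _ (hU _ hv).1
        · rw [mem_singleton.1 hc]
          exact ⟨a3 (by simp [he', el]), a4⟩
      · simp only [kids, List.mem_flatMap, List.mem_map]
        exact ⟨x, hx, v, (hU v hv).1, rfl⟩
      · have : hd (x.1, v :: x.2.1, x.2.2) = v := rfl
        simpa [hc, this] using (hU v hv).2.2
      · simp [he', el]
  · have := mul_le_mul_of_nonneg_left (hK hG).2.2
      (by positivity : (0 : ℝ) ≤ H0.length / (g + 1))
    rw [show (H0.length : ℝ) / (g + 1) * (2 * g * (g + 1)) = 2 * (g * H0.length) by field_simp]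
      at this
    push_cast
    linarith
  · intro y hy
    obtain ⟨x, hx, v, hv, rfl⟩ := mk y hy
    exact h.2.nd x hx
  · intro y hy l hl
    obtain ⟨x, hx, v, hv, rfl⟩ := mk y hy
    obtain ⟨a1, a2, a3⟩ := h.2.mem x hx l hl
    exact ⟨a1, a2, fun c hc hc' => a3 c hc fun h => hc' (by simp [h])⟩
  · intro y hy y' hy'
    obtain ⟨x, hx, v, hv, rfl⟩ := mk y hy
    obtain ⟨x', hx', v', hv', rfl⟩ := mk y' hy'
    exact h.2.dis x hx x' hx'
  · rw [pow_succ']
    exact Nat.mul_le_mul_left _ (hL.cap ρ)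

end

end Pool.Agent.Lib.MP_1b5cbf_lc
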